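import Pool.Agent.DT70.Relabel

/-! Module DT70/Glue. Gluing isomorphisms along a marked facet.

`glue`. Put h x = u x if x ∈ Rz M, else f x, and k y = w y if y ∈ Rz M', else g y.
(1) If x ∈ Rz K₀ ∩ Rz M then x ∈ sx F (`sx_inter`, hlab, `sx_mono`), so u x = f x.
(2) If x ∈ Rz K₀ and x ∈ sx F then x ∈ Rz M: x ∈ sx s with s ∈ K₀, F is not a subset of s, so
    some v ∈ F has x v = 0, x ∈ Rz (bd F) (`mem_bd`), and bd F consists of faces of M.
(3) x ∈ Rz M: h x = u x ∈ Rz M', k (h x) = w (u x) = x.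
(4) x ∈ Rz K₀, x ∉ Rz M: f x ∉ sx F', since otherwise x = g (f x) ∈ sx F, contradiction to
    (2). So f x ∈ Rz K₀' and, by (1) for the other side, f x ∉ Rz M'; k (f x) = g (f x) = x.
(5) the class: on Rz M, h = u; on Rz K₀, h = f by (1); use `hC.union`.
The other half is the same statement with the roles exchanged (prove a one-sided lemma first and
apply it twice).

`swap_facet`. a, a' are lists of 5 distinct vertices; σ sends a_i to a'_i and fixes the other
vertices, τ the converse. On the vertices of M, τ (σ v) = v because a vertex of M outside a is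
not in a'. `relabel` gives huw for u = push (verts M) σ τ, w = pull (verts M) σ. Agreement:
for x ∈ sx a the w-th coordinates of facetMap a a' x and of push x are both
x (a_i) if w = a'_i (a_i is a vertex of M by hb), and both 0 if w is not in a' (in push: τ w = w; if
σ w = w then w is not in a, so x w = 0). For y ∈ sx a', g y = facetMap a' a y since f maps
sx a onto sx a'; compare with pull: v = a_i: y (a'_i); v in verts M outside a: y v = 0 as v is not in
a'; other v: 0.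
-/

namespace Pool.Agent.DT70

theorem glue_meet {K₀ M : Set (Finset ℕ)} {F : Finset ℕ} (hlab : ∀ s ∈ K₀, ∀ t ∈ M, s ∩ t ⊆ F)
    {x : E} (h1 : x ∈ Rz K₀) (h2 : x ∈ Rz M) : x ∈ sx F := by
  obtain ⟨s, hs, hxs⟩ := h1
  obtain ⟨t, ht, hxt⟩ := h2
  exact sx_mono (hlab s hs t ht) (sx_inter hxs hxt)

theorem glue_face {K₀ M : Set (Finset ℕ)} {F : Finset ℕ} (hb : ∀ s ∈ bd F, ∃ t ∈ M, s ⊆ t)
    (hmax : ∀ s ∈ K₀, ¬ F ⊆ s) {x : E} (h1 : x ∈ Rz K₀) (h2 : x ∈ sx F) : x ∈ Rz M := by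
  obtain ⟨s, hs, hxs⟩ := h1
  obtain ⟨v, hvF, hvs⟩ := Finset.not_subset.1 (hmax s hs)
  obtain ⟨t, ht, hxt⟩ := mem_bd h2 hvF (hxs.2.1 v hvs)
  obtain ⟨t', ht', htt⟩ := hb t ht
  exact ⟨t', ht', sx_mono htt hxt⟩

open Classical in
theorem glue_aux {C : Set E → (E → E) → Prop} (hC : Cls C) {K₀ K₀' M M' : Set (Finset ℕ)}
    {F F' : Finset ℕ} (hKf : K₀.Finite) (hMf : M.Finite)
    {f g u w : E → E}
    (hfg : Iso C (Rz (K₀ ∪ {F})) (Rz (K₀' ∪ {F'})) f g) (huw : Iso C (Rz M) (Rz M') u w)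
    (hF' : ∀ y ∈ sx F', g y ∈ sx F)
    (hfu : ∀ x ∈ sx F, x ∈ Rz M → u x = f x)
    (hlab : ∀ s ∈ K₀, ∀ t ∈ M, s ∩ t ⊆ F) (hlab' : ∀ s ∈ K₀', ∀ t ∈ M', s ∩ t ⊆ F')
    (hb : ∀ s ∈ bd F, ∃ t ∈ M, s ⊆ t)
    (hmax : ∀ s ∈ K₀, ¬ F ⊆ s) :
    (∀ x ∈ Rz (K₀ ∪ M), (fun x => if x ∈ Rz M then u x else f x) x ∈ Rz (K₀' ∪ M') ∧
      (fun y => if y ∈ Rz M' then w y else g y) ((fun x => if x ∈ Rz M then u x else f x) x) = x) ∧
      C (Rz (K₀ ∪ M)) (fun x => if x ∈ Rz M then u x else f x) := by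
  refine ⟨?_, ?_⟩
  · intro x hx
    by_cases hxM : x ∈ Rz M
    · obtain ⟨h1, h2⟩ := huw.1 x hxM
      simp only [if_pos hxM, if_pos h1]
      exact ⟨Rz_mono Set.subset_union_right h1, h2⟩
    · have hxK : x ∈ Rz K₀ := by
        rw [Rz_union] at hx
        exact hx.resolve_right hxM
      obtain ⟨h1, h2⟩ := hfg.1 x (Rz_mono Set.subset_union_left hxK)
      have h3 : f x ∉ sx F' := by
        intro h
        have h4 : x ∈ sx F := by
          have := hF' _ h
          rwa [h2] at this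
        exact hxM (glue_face hb hmax hxK h4)
      have h5 : f x ∈ Rz K₀' := by
        rw [Rz_union, Rz_singleton] at h1
        exact h1.resolve_right h3
      have h6 : f x ∉ Rz M' := fun h => h3 (glue_meet hlab' h5 h)
      simp only [if_neg hxM, if_neg h6]
      exact ⟨Rz_mono Set.subset_union_left h5, h2⟩
  · refine hC.union hKf hMf ?_ ?_
    · refine hC.congr (hC.mono hfg.2.2.1 (Rz_mono Set.subset_union_left)) ?_
      intro x hx
      by_cases hxM : x ∈ Rz M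
      · simp only [if_pos hxM]
        exact hfu x (glue_meet hlab hx hxM) hxM
      · simp only [if_neg hxM]
    · refine hC.congr huw.2.2.1 ?_
      intro x hx
      simp only [if_pos hx]

open Classical in
theorem glue {C : Set E → (E → E) → Prop} (hC : Cls C) {K₀ K₀' M M' : Set (Finset ℕ)}
    {F F' : Finset ℕ} (hKf : K₀.Finite) (hKf' : K₀'.Finite) (hMf : M.Finite) (hMf' : M'.Finite)
    {f g u w : E → E}
    (hfg : Iso C (Rz (K₀ ∪ {F})) (Rz (K₀' ∪ {F'})) f g) (huw : Iso C (Rz M) (Rz M') u w)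
    (hF : ∀ x ∈ sx F, f x ∈ sx F') (hF' : ∀ y ∈ sx F', g y ∈ sx F)
    (hfu : ∀ x ∈ sx F, x ∈ Rz M → u x = f x) (hgw : ∀ y ∈ sx F', y ∈ Rz M' → w y = g y)
    (hlab : ∀ s ∈ K₀, ∀ t ∈ M, s ∩ t ⊆ F) (hlab' : ∀ s ∈ K₀', ∀ t ∈ M', s ∩ t ⊆ F')
    (hb : ∀ s ∈ bd F, ∃ t ∈ M, s ⊆ t) (hb' : ∀ s ∈ bd F', ∃ t ∈ M', s ⊆ t)
    (hmax : ∀ s ∈ K₀, ¬ F ⊆ s) (hmax' : ∀ s ∈ K₀', ¬ F' ⊆ s) :
    Iso C (Rz (K₀ ∪ M)) (Rz (K₀' ∪ M')) (fun x => if x ∈ Rz M then u x else f x)
      (fun y => if y ∈ Rz M' then w y else g y) := by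
  obtain ⟨h1, h2⟩ := glue_aux hC hKf hMf hfg huw hF' hfu hlab hlab' hb hmax
  obtain ⟨h3, h4⟩ := glue_aux hC hKf' hMf' hfg.symm huw.symm hF hgw hlab' hlab hb' hmax'
  exact ⟨h1, h3, h2, h4⟩

/-- Replace the marked facet `a` by `a'`. -/
def swp (a a' : List ℕ) (v : ℕ) : ℕ := if v ∈ a then a'.getD (a.idxOf v) 0 else v

theorem getD_spec {a a' : List ℕ} (ha' : a'.Nodup) (hl : a.length = a'.length)
    {v : ℕ} (hv : v ∈ a) :
    a'.getD (a.idxOf v) 0 ∈ a' ∧ a.getD (a'.idxOf (a'.getD (a.idxOf v) 0)) 0 = v := by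
  have h1 : a.idxOf v < a.length := List.idxOf_lt_length_of_mem hv
  have h2 : a.idxOf v < a'.length := hl ▸ h1
  rw [List.getD_eq_getElem a' 0 h2]
  refine ⟨List.getElem_mem h2, ?_⟩
  rw [ha'.idxOf_getElem _ h2, List.getD_eq_getElem a 0 h1]
  exact List.getElem_idxOf h1

theorem swp_mem {a a' : List ℕ} (ha' : a'.Nodup) (hl : a.length = a'.length)
    {v : ℕ} (hv : v ∈ a) : swp a a' v ∈ a' := by
  rw [swp, if_pos hv]
  exact (getD_spec ha' hl hv).1

theorem swp_swp {a a' : List ℕ} (ha' : a'.Nodup) (hl : a.length = a'.length)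
    {v : ℕ} (hv : v ∈ a) : swp a' a (swp a a' v) = v := by
  have h := getD_spec ha' hl hv
  rw [swp, if_pos (swp_mem ha' hl hv)]
  simp only [swp, if_pos hv]
  exact h.2

theorem facetMap_mem {a a' : List ℕ} (ha : a.Nodup) (ha' : a'.Nodup) (hl : a.length = a'.length)
    {x : E} (hx : x ∈ sx a.toFinset) :
    facetMap a a' x ∈ sx a'.toFinset ∧ facetMap a' a (facetMap a a' x) = x := by
  refine ⟨⟨?_, ?_, ?_⟩, ?_⟩
  · intro v
    simp only [facetMap]
    split_ifs
    · exact hx.1 _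
    · exact le_refl _
  · intro v hv
    rw [List.mem_toFinset] at hv
    simp only [facetMap, if_neg hv]
  · rw [← hx.2.2]
    refine Finset.sum_bij' (fun w _ => a.getD (a'.idxOf w) 0) (fun v _ => a'.getD (a.idxOf v) 0)
      ?_ ?_ ?_ ?_ ?_
    · intro w hw
      rw [List.mem_toFinset] at hw ⊢
      exact (getD_spec ha hl.symm hw).1
    · intro w hw
      rw [List.mem_toFinset] at hw ⊢
      exact (getD_spec ha' hl hw).1
    · intro w hw
      rw [List.mem_toFinset] at hw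
      exact (getD_spec ha hl.symm hw).2
    · intro w hw
      rw [List.mem_toFinset] at hw
      exact (getD_spec ha' hl hw).2
    · intro w hw
      rw [List.mem_toFinset] at hw
      simp only [facetMap, if_pos hw]
  · funext v
    by_cases hv : v ∈ a
    · obtain ⟨h1, h2⟩ := getD_spec ha' hl hv
      simp only [facetMap, if_pos hv, if_pos h1, h2]
    · simp only [facetMap, if_neg hv]
      exact (hx.2.1 v (by rwa [List.mem_toFinset])).symm

theorem swap_facet {C : Set E → (E → E) → Prop} (hC : Cls C) {X₀ X₀' M : Set (Finset ℕ)}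
    {a a' : List ℕ} (hXf : X₀.Finite) (hXf' : X₀'.Finite) (hMf : M.Finite)
    (ha : a.Nodup) (ha' : a'.Nodup) (hl : a.length = 5) (hl' : a'.length = 5)
    (hM : ∀ s ∈ M, ∀ v ∈ s, v ∈ a ∨ v ∉ a')
    (hlab : ∀ s ∈ X₀, ∀ t ∈ M, ∀ v ∈ s, v ∈ t → v ∈ a)
    (hlab' : ∀ s ∈ X₀', ∀ t ∈ M, ∀ v ∈ s, v ∈ t → v ∈ a)
    (hb : ∀ s ∈ bd a.toFinset, ∃ t ∈ M, s ⊆ t)
    (hmax : ∀ s ∈ X₀, ¬ a.toFinset ⊆ s) (hmax' : ∀ s ∈ X₀', ¬ a'.toFinset ⊆ s)
    (hR : ∃ f g : E → E, Iso C (Rz (X₀ ∪ {a.toFinset})) (Rz (X₀' ∪ {a'.toFinset})) f g ∧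
      ∀ x ∈ sx a.toFinset, f x = facetMap a a' x) :
    ∃ f g : E → E, Iso C (Rz (X₀ ∪ M))
      (Rz (X₀' ∪ {t | ∃ s ∈ M, t = s.image (swp a a')})) f g := by
  have hll : a.length = a'.length := by rw [hl, hl']
  obtain ⟨f, g, hfg, hf⟩ := hR
  -- vertices of `a` are vertices of `M`
  have hverts : ∀ v ∈ a, v ∈ verts M := by
    intro v hv
    have hcard : a.toFinset.card = 5 := by rw [List.toFinset_card_of_nodup ha, hl]
    obtain ⟨v', hv', hne⟩ : ∃ v' ∈ a.toFinset, v' ≠ v := by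
      by_contra hcon
      push Not at hcon
      have : a.toFinset ⊆ {v} := fun y hy => Finset.mem_singleton.2 (hcon y hy)
      have := Finset.card_le_card this
      rw [hcard, Finset.card_singleton] at this
      omega
    obtain ⟨t, ht, hst⟩ := hb (a.toFinset.erase v') ⟨v', hv', rfl⟩
    exact ⟨t, ht, hst (Finset.mem_erase.2 ⟨hne.symm, List.mem_toFinset.2 hv⟩)⟩
  have hrel := relabel M (swp a a') (swp a' a) (by
    intro s hs v hv
    by_cases hva : v ∈ a
    · exact swp_swp ha' hll hva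
    · have hva' : v ∉ a' := (hM s hs v hv).resolve_left hva
      have h1 : swp a a' v = v := by rw [swp, if_neg hva]
      rw [h1, swp, if_neg hva'])
  have hMf' : {t : Finset ℕ | ∃ s ∈ M, t = s.image (swp a a')}.Finite := by
    refine (hMf.image (fun s => s.image (swp a a'))).subset ?_
    rintro t ⟨s, hs, rfl⟩
    exact ⟨s, hs, rfl⟩
  have hF : ∀ x ∈ sx a.toFinset, f x ∈ sx a'.toFinset := by
    intro x hx
    rw [hf x hx]
    exact (facetMap_mem ha ha' hll hx).1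
  have hg : ∀ y ∈ sx a'.toFinset, g y = facetMap a' a y := by
    intro y hy
    obtain ⟨h1, h2⟩ := facetMap_mem ha' ha hll.symm hy
    have h3 : f (facetMap a' a y) = y := by rw [hf _ h1, h2]
    have h4 : facetMap a' a y ∈ Rz (X₀ ∪ {a.toFinset}) :=
      ⟨a.toFinset, Or.inr rfl, h1⟩
    have h5 := (hfg.1 _ h4).2
    rw [h3] at h5
    exact h5
  have hF' : ∀ y ∈ sx a'.toFinset, g y ∈ sx a.toFinset := by
    intro y hy
    rw [hg y hy]
    exact (facetMap_mem ha' ha hll.symm hy).1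
  refine ⟨_, _, glue hC hXf hXf' hMf hMf' hfg (Iso.of_pl hC hrel) hF hF' ?_ ?_ ?_ ?_ hb ?_ hmax
    hmax'⟩
  · -- agreement of `push` with `f`
    intro x hx _
    rw [hf x hx]
    funext w
    simp only [push, facetMap]
    by_cases hw : w ∈ a'
    · have h1 : swp a' a w ∈ a := swp_mem ha hll.symm hw
      have h2 : swp a a' (swp a' a w) = w := swp_swp ha hll.symm hw
      rw [if_pos ⟨hverts _ h1, h2⟩, if_pos hw, swp, if_pos hw]
    · have h1 : swp a' a w = w := by rw [swp, if_neg hw]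
      rw [if_neg hw, h1]
      split_ifs with h
      · have hwa : w ∉ a := by
          intro hwa
          have := swp_mem ha' hll hwa
          rw [h.2] at this
          exact hw this
        exact hx.2.1 w (by rwa [List.mem_toFinset])
      · rfl
  · -- agreement of `pull` with `g`
    intro y hy _
    rw [hg y hy]
    funext v
    simp only [pull, facetMap]
    by_cases hv : v ∈ a
    · rw [if_pos (hverts v hv), if_pos hv, swp, if_pos hv]
    · rw [if_neg hv]
      split_ifs with h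
      · obtain ⟨s, hs, hvs⟩ := h
        have hva' : v ∉ a' := (hM s hs v hvs).resolve_left hv
        rw [swp, if_neg hv]
        exact hy.2.1 v (by rwa [List.mem_toFinset])
      · rfl
  · intro s hs t ht v hv
    rw [Finset.mem_inter] at hv
    rw [List.mem_toFinset]
    exact hlab s hs t ht v hv.1 hv.2
  · rintro s hs t ⟨t₀, ht₀, rfl⟩ v hv
    rw [Finset.mem_inter, Finset.mem_image] at hv
    obtain ⟨hvs, z, hz, rfl⟩ := hv
    rw [List.mem_toFinset]
    by_cases hza : z ∈ a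
    · exact swp_mem ha' hll hza
    · exfalso
      have h1 : swp a a' z = z := by rw [swp, if_neg hza]
      rw [h1] at hvs
      exact hza (hlab' s hs t₀ ht₀ z hvs hz)
  · rintro s ⟨x, hx, rfl⟩
    rw [List.mem_toFinset] at hx
    have hva : swp a' a x ∈ a := swp_mem ha hll.symm hx
    obtain ⟨t, ht, hst⟩ := hb (a.toFinset.erase (swp a' a x))
      ⟨swp a' a x, List.mem_toFinset.2 hva, rfl⟩
    refine ⟨t.image (swp a a'), ⟨t, ht, rfl⟩, ?_⟩
    intro y hy
    rw [Finset.mem_erase, List.mem_toFinset] at hy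
    obtain ⟨hyx, hy⟩ := hy
    rw [Finset.mem_image]
    refine ⟨swp a' a y, hst (Finset.mem_erase.2 ⟨?_, List.mem_toFinset.2
      (swp_mem ha hll.symm hy)⟩), swp_swp ha hll.symm hy⟩
    intro h
    apply hyx
    rw [← swp_swp ha hll.symm hy, h, swp_swp ha hll.symm hx]

end Pool.Agent.DT70
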