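import Pool.Agent.DT70.Conn
import Pool.Agent.DT70.Glue

namespace Pool.Agent.DT70

variable {bb : Bool}

theorem Marked.eq_cons {K : Code} (h : Marked bb K) : K = hd K :: K.tail := by
  rcases h with ⟨⟨h0, _⟩, _⟩
  cases K with
  | nil => exact absurd rfl h0
  | cons F K => rfl

theorem Marked.fs_eq {K : Code} (h : Marked bb K) : fs K = fs K.tail ∪ {(hd K).toFinset} := by
  conv_lhs => rw [h.eq_cons]
  rw [fs_cons, Set.union_comm]

theorem Marked.good {K : Code} (h : Marked bb K) : Good bb (fs K.tail) (hd K) := by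
  have hK := h.eq_cons
  have hfs := h.fs_eq
  obtain ⟨⟨h0, h1, h2⟩, h3, h4⟩ := h
  have hmem : hd K ∈ K := by rw [hK]; simp [hd]
  have htail : ∀ G ∈ K.tail, G ∈ K := fun G hG => List.mem_of_mem_tail hG
  refine ⟨(h1 _ hmem).1, (h1 _ hmem).2, ?_, ?_, ?_⟩
  · rintro s ⟨G, hG, rfl⟩
    rw [List.toFinset_card_of_nodup (h1 _ (htail G hG)).1]
    exact (h1 _ (htail G hG)).2
  · rintro ⟨G, hG, hGe⟩
    apply h4 G hG
    exact List.perm_of_nodup_nodup_toFinset_eq (h1 _ (htail G hG)).1 (h1 _ hmem).1 hGe
  · rw [← hfs]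
    rintro v ⟨s, ⟨F, hF, rfl⟩, hv⟩
    exact (lk_iff bb v K).1 (h2 v ⟨F, hF, by simpa using hv⟩)


/-- renaming of the first summand -/
def r0 (v : ℕ) : ℕ := 3 * v
/-- renaming of the second summand -/
def r1 (v : ℕ) : ℕ := 3 * v + 1

theorem cs_eq (K L : Code) : cs K L = K.tail.map (List.map r0) ++
    (tube ((hd K).map r0 ++ (mid ++ (hd L).map r1)) ++ L.tail.map (List.map r1)) := rfl

theorem r0_mod (v : ℕ) : r0 v % 3 = 0 := by unfold r0; omega
theorem r1_mod (v : ℕ) : r1 v % 3 = 1 := by unfold r1; omega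
theorem r0_div (v : ℕ) : r0 v / 3 = v := by unfold r0; omega
theorem r1_div (v : ℕ) : r1 v / 3 = v := by unfold r1; omega
theorem r0_inj : Function.Injective r0 := fun v w h => by
  have := congrArg (· / 3) h; simpa [r0_div] using this
theorem r1_inj : Function.Injective r1 := fun v w h => by
  have := congrArg (· / 3) h; simpa [r1_div] using this
theorem mid_mod {v : ℕ} (h : v ∈ mid) : v % 3 = 2 := by
  simp only [mid, List.mem_cons, List.not_mem_nil, or_false] at h
  omega
theorem mid_nodup : mid.Nodup := by decide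
theorem mem_map_r0 {F : List ℕ} {v : ℕ} (h : v ∈ F.map r0) : v % 3 = 0 := by
  obtain ⟨w, _, rfl⟩ := List.mem_map.1 h; exact r0_mod w
theorem mem_map_r1 {F : List ℕ} {v : ℕ} (h : v ∈ F.map r1) : v % 3 = 1 := by
  obtain ⟨w, _, rfl⟩ := List.mem_map.1 h; exact r1_mod w
theorem lab0 {K : Code} {s : Finset ℕ} (hs : s ∈ fs (K.map (List.map r0))) {v : ℕ} (hv : v ∈ s) :
    v % 3 = 0 := by
  obtain ⟨F, hF, rfl⟩ := hs
  obtain ⟨G, hG, rfl⟩ := List.mem_map.1 hF
  exact mem_map_r0 (by simpa using hv)
theorem lab1 {K : Code} {s : Finset ℕ} (hs : s ∈ fs (K.map (List.map r1))) {v : ℕ} (hv : v ∈ s) :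
    v % 3 = 1 := by
  obtain ⟨F, hF, rfl⟩ := hs
  obtain ⟨G, hG, rfl⟩ := List.mem_map.1 hF
  exact mem_map_r1 (by simpa using hv)

theorem good0 {K : Code} (h : Marked bb K) :
    Good bb (fs (K.tail.map (List.map r0))) ((hd K).map r0) := by
  rw [fs_map]; exact h.good.map r0 (· / 3) r0_div

theorem good1 {K : Code} (h : Marked bb K) :
    Good bb (fs (K.tail.map (List.map r1))) ((hd K).map r1) := by
  rw [fs_map]; exact h.good.map r1 (· / 3) r1_div

theorem all_nodup {K L : Code} (hK : Marked bb K) (hL : Marked bb L) :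
    ((hd K).map r0 ++ (mid ++ (hd L).map r1)).Nodup := by
  rw [List.nodup_append', List.nodup_append']
  refine ⟨(good0 hK).nodup, ⟨mid_nodup, (good1 hL).nodup, ?_⟩, ?_⟩
  · intro v hv hv'
    have := mid_mod hv; have := mem_map_r1 hv'; omega
  · intro v hv hv'
    have h0 := mem_map_r0 hv
    rcases List.mem_append.1 hv' with h | h
    · have := mid_mod h; omega
    · have := mem_map_r1 h; omega

theorem fs_cs (K L : Code) : fs (cs K L) = fs (K.tail.map (List.map r0)) ∪
    (fs (tube ((hd K).map r0 ++ (mid ++ (hd L).map r1))) ∪ fs (L.tail.map (List.map r1))) := by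
  rw [cs_eq, fs_append, fs_append]

theorem cs_lks {K L : Code} (hK : Marked bb K) (hL : Marked bb L) : Lks bb (fs (cs K L)) := by
  rw [fs_cs]
  refine lks_sum (good0 hK) (good1 hL) rfl (all_nodup hK hL) ?_ ?_ ?_
  · intro s hs v hv
    have h0 := lab0 hs hv
    refine ⟨fun h => ?_, fun h => ?_⟩
    · have := mid_mod h; omega
    · have := mem_map_r1 h; omega
  · intro s hs v hv
    have h0 := lab1 hs hv
    refine ⟨fun h => ?_, fun h => ?_⟩
    · have := mid_mod h; omega
    · have := mem_map_r0 h; omega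
  · intro s hs t ht v hv hv'
    have h0 := lab0 hs hv
    have h1 := lab1 ht hv'
    omega

theorem cs_mfd {K L : Code} (hK : Marked bb K) (hL : Marked bb L) : Mfd bb (cs K L) := by
  refine ⟨?_, ?_, ?_⟩
  · intro h
    have h1 : fs (cs K L) = ∅ := by rw [h, fs_nil]
    obtain ⟨t, ht, -⟩ := bd_left (good0 hK).len (rfl : mid.length = 5) (good1 hL).len
      (all_nodup hK hL) (((hd K).map r0).toFinset.erase (r0 (hd K).head!)) (by
        refine ⟨r0 (hd K).head!, ?_, rfl⟩
        have := hK.good.len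
        cases hh : hd K with
        | nil => rw [hh] at this; simp at this
        | cons x l => simp)
    have h2 : t ∈ fs (cs K L) := by rw [fs_cs]; exact Or.inr (Or.inl ht)
    rw [h1] at h2; exact h2
  · intro F hF
    rw [cs_eq, List.mem_append, List.mem_append] at hF
    rcases hF with hF | hF | hF
    · obtain ⟨G, hG, rfl⟩ := List.mem_map.1 hF
      have := hK.1.2.1 G (List.mem_of_mem_tail hG)
      exact ⟨this.1.map r0_inj, by simpa using this.2⟩
    · have := tube_mem (all_nodup hK hL) hF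
      exact ⟨this.1, this.2.1⟩
    · obtain ⟨G, hG, rfl⟩ := List.mem_map.1 hF
      have := hL.1.2.1 G (List.mem_of_mem_tail hG)
      exact ⟨this.1.map r1_inj, by simpa using this.2⟩
  · rintro v ⟨F, hF, hv⟩
    have := cs_lks hK hL v ⟨F.toFinset, ⟨F, hF, rfl⟩, by simpa using hv⟩
    exact (lk_iff bb v _).2 this

/-- The renamed manifold is connected. -/
theorem conn_map {K : Code} (hK : Marked bb K) (σ τ : ℕ → ℕ) (h : ∀ v, τ (σ v) = v) :
    IsConnected (Rz (fs (K.tail.map (List.map σ)) ∪ {((hd K).map σ).toFinset})) := by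
  have h1 : fs (K.tail.map (List.map σ)) ∪ {((hd K).map σ).toFinset} =
      {t | ∃ s ∈ fs K, t = s.image σ} := by
    have e1 : fs (K.map (List.map σ)) = {t | ∃ s ∈ fs K, t = s.image σ} := fs_map σ K
    have e2 : K.map (List.map σ) = (hd K).map σ :: K.tail.map (List.map σ) := by
      conv_lhs => rw [hK.eq_cons]
      rfl
    rw [← e1, e2, fs_cons, Set.union_comm]
  rw [h1]
  have h2 := relabel (fs K) σ τ (fun s _ v _ => h v)
  have h3 : IsConnected (Rz (fs K)) := by rw [← real_eq]; exact hK.2.1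
  have h4 := h3.image (push (verts (fs K)) σ τ) (plOn_cont h2.2.2.1)
  have h5 : push (verts (fs K)) σ τ '' Rz (fs K) = Rz {t | ∃ s ∈ fs K, t = s.image σ} := by
    apply Set.Subset.antisymm
    · rintro _ ⟨x, hx, rfl⟩
      exact (h2.1 x hx).1
    · intro y hy
      exact ⟨_, (h2.2.1 y hy).1, (h2.2.1 y hy).2⟩
  rw [h5] at h4
  exact h4

theorem cs_conn {K L : Code} (hK : Marked bb K) (hL : Marked bb L) : IsConnected (real (cs K L)) := by
  rw [real_eq, fs_cs]
  refine conn_sum (fs_finite _) (fs_finite _) (good0 hK) (good1 hL) rfl (all_nodup hK hL) ?_ ?_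
    (conn_map hK r0 (· / 3) r0_div) (conn_map hL r1 (· / 3) r1_div)
  · intro s hs v hv h
    have := lab0 hs hv; have := mid_mod h; omega
  · intro s hs v hv h
    have := lab1 hs hv; have := mid_mod h; omega


theorem facetMap_get {a b : List ℕ} (hb : b.Nodup) (x : E) {i : ℕ} (hi : i < b.length) :
    facetMap a b x b[i] = x (a.getD i 0) := by
  unfold facetMap
  rw [if_pos (List.getElem_mem hi), List.Nodup.idxOf_getElem hb]

theorem facetMap_not {a b : List ℕ} (x : E) {w : ℕ} (hw : w ∉ b) : facetMap a b x w = 0 := by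
  unfold facetMap
  rw [if_neg hw]

theorem Marked.verts_hd {K : Code} (hK : Marked bb K) {v : ℕ} (hv : v ∈ hd K) : v ∈ verts (fs K) := by
  refine ⟨(hd K).toFinset, ?_, by simpa using hv⟩
  rw [hK.fs_eq]; exact Or.inr rfl

theorem fs_map_eq {K : Code} (hK : Marked bb K) (σ : ℕ → ℕ) :
    fs (K.tail.map (List.map σ)) ∪ {((hd K).map σ).toFinset} =
      {t | ∃ s ∈ fs K, t = s.image σ} := by
  have e1 : fs (K.map (List.map σ)) = {t | ∃ s ∈ fs K, t = s.image σ} := fs_map σ K
  have e2 : K.map (List.map σ) = (hd K).map σ :: K.tail.map (List.map σ) := by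
    conv_lhs => rw [hK.eq_cons]
    rfl
  rw [← e1, e2, fs_cons, Set.union_comm]

theorem rel_map {C : Set E → (E → E) → Prop} (hC : Cls C) {K K' : Code} (hK : Marked bb K)
    (hK' : Marked bb K') (σ τ : ℕ → ℕ) (hσ : ∀ v, τ (σ v) = v) (h : Rel C K K') :
    ∃ f g : E → E, Iso C (Rz (fs (K.tail.map (List.map σ)) ∪ {((hd K).map σ).toFinset}))
      (Rz (fs (K'.tail.map (List.map σ)) ∪ {((hd K').map σ).toFinset})) f g ∧
      ∀ x ∈ sx ((hd K).map σ).toFinset, f x = facetMap ((hd K).map σ) ((hd K').map σ) x := by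
  obtain ⟨f, g, hfg, hF⟩ := h
  have hinj : Function.Injective σ := fun v w h => by rw [← hσ v, ← hσ w, h]
  have i1 := (relabel (fs K) σ τ (fun s _ v _ => hσ v)).symm
  have i2 := relabel (fs K') σ τ (fun s _ v _ => hσ v)
  rw [real_eq, real_eq] at hfg
  have i3 := (((Iso.of_pl hC i1).trans hC hfg).trans hC (Iso.of_pl hC i2))
  rw [← fs_map_eq hK, ← fs_map_eq hK'] at i3
  refine ⟨_, _, i3, ?_⟩
  intro x hx
  set a := hd K with ha
  set a' := hd K' with ha'
  have hla : a.length = 5 := hK.good.len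
  have hla' : a'.length = 5 := hK'.good.len
  have hna' : a'.Nodup := hK'.good.nodup
  have hna : a.Nodup := hK.good.nodup
  have hy : pull (verts (fs K)) σ x ∈ simplex a := by
    refine ⟨?_, ?_, ?_⟩
    · intro v; unfold pull; split_ifs
      · exact hx.1 _
      · exact le_refl _
    · intro v hv; unfold pull; split_ifs
      · refine hx.2.1 _ ?_
        rw [List.mem_toFinset, List.mem_map]
        rintro ⟨w, hw, hw'⟩
        exact hv (hinj hw' ▸ hw)
      · rfl
    · have h1 := hx.2.2
      have h2 : (a.map σ).toFinset = a.toFinset.image σ := by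
        ext v; simp
      rw [h2, Finset.sum_image (fun v _ w _ h => hinj h)] at h1
      rw [← h1]
      refine Finset.sum_congr rfl fun v hv => ?_
      unfold pull
      rw [if_pos (hK.verts_hd (by simpa using hv))]
  show push (verts (fs K')) σ τ (f (pull (verts (fs K)) σ x)) = _
  rw [hF _ hy]
  funext w
  by_cases hw : w ∈ a'.map σ
  · obtain ⟨i, hi, hiw⟩ := List.getElem_of_mem hw
    have hi' : i < a'.length := by simpa using hi
    have hia : i < a.length := by omega
    have hw' : w = σ a'[i] := by rw [← hiw]; simp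
    have e1 : facetMap (a.map σ) (a'.map σ) x w = x (σ a[i]) := by
      have := facetMap_get (a := a.map σ) (hna'.map hinj) x hi
      rw [hiw] at this
      rw [this]
      congr 1
      rw [List.getD_eq_getElem _ _ (by simpa using hia)]
      simp
    rw [e1]
    unfold push
    rw [hw', hσ, if_pos ⟨hK'.verts_hd (List.getElem_mem hi'), rfl⟩, facetMap_get hna' _ hi',
      List.getD_eq_getElem _ _ hia]
    unfold pull
    rw [if_pos (hK.verts_hd (List.getElem_mem hia))]
  · rw [facetMap_not _ hw]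
    unfold push
    split_ifs with h1
    · apply facetMap_not
      intro h2
      apply hw
      rw [← h1.2]
      exact List.mem_map_of_mem h2
    · rfl

theorem map_swp {a a' : List ℕ} (ha : a.Nodup) (hl : a.length = a'.length) :
    a.map (swp a a') = a' := by
  apply List.ext_getElem
  · simpa using hl
  · intro i h1 h2
    have h1' : i < a.length := by simpa using h1
    rw [List.getElem_map]
    unfold swp
    rw [if_pos (List.getElem_mem h1'), List.Nodup.idxOf_getElem ha, List.getD_eq_getElem _ _ h2]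

theorem map_swp_id {a a' l : List ℕ} (h : ∀ v ∈ l, v ∉ a) : l.map (swp a a') = l := by
  conv_rhs => rw [← List.map_id l]
  apply List.map_congr_left
  intro v hv
  unfold swp
  rw [if_neg (h v hv)]; rfl

theorem map_map_swp_id {a a' : List ℕ} {A : Code} (h : ∀ l ∈ A, ∀ v ∈ l, v ∉ a) :
    A.map (List.map (swp a a')) = A := by
  conv_rhs => rw [← List.map_id A]
  apply List.map_congr_left
  intro l hl
  rw [map_swp_id (h l hl)]; rfl

theorem image_union (A B : Code) (σ : ℕ → ℕ) :
    {t | ∃ s ∈ fs A ∪ fs B, t = s.image σ} = fs (A.map (List.map σ)) ∪ fs (B.map (List.map σ)) := by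
  rw [fs_map, fs_map]
  ext t
  constructor
  · rintro ⟨s, hs | hs, rfl⟩
    · exact Or.inl ⟨s, hs, rfl⟩
    · exact Or.inr ⟨s, hs, rfl⟩
  · rintro (⟨s, hs, rfl⟩ | ⟨s, hs, rfl⟩)
    · exact ⟨s, Or.inl hs, rfl⟩
    · exact ⟨s, Or.inr hs, rfl⟩

theorem good_max {M : Set (Finset ℕ)} {F : List ℕ} (h : Good bb M F) :
    ∀ s ∈ M, ¬ F.toFinset ⊆ s := by
  intro s hs hsub
  have h1 : F.toFinset = s := Finset.eq_of_subset_of_card_le hsub (by
    rw [h.card s hs, List.toFinset_card_of_nodup h.nodup, h.len])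
  exact h.notMem (h1 ▸ hs)

theorem cs_left {C : Set E → (E → E) → Prop} (hC : Cls C) {K K' L : Code} (hK : Marked bb K)
    (hK' : Marked bb K') (hL : Marked bb L) (h : Rel C K K') :
    ∃ f g : E → E, Iso C (real (cs K L)) (real (cs K' L)) f g := by
  have hl : ((hd K).map r0).length = ((hd K').map r0).length := by
    rw [(good0 hK).len, (good0 hK').len]
  have htm : ∀ (K : Code), Marked bb K → ∀ F ∈ tube ((hd K).map r0 ++ (mid ++ (hd L).map r1)),
      ∀ v ∈ F, v % 3 = 0 → v ∈ (hd K).map r0 := by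
    intro K hK F hF v hv h0
    have := (tube_mem (all_nodup hK hL) hF).2.2 v hv
    rcases List.mem_append.1 this with h1 | h1
    · exact h1
    · rcases List.mem_append.1 h1 with h1 | h1
      · have := mid_mod h1; omega
      · have := mem_map_r1 h1; omega
  have hM : ∀ s ∈ fs (tube ((hd K).map r0 ++ (mid ++ (hd L).map r1))) ∪
      fs (L.tail.map (List.map r1)), ∀ v ∈ s, v % 3 = 0 → v ∈ (hd K).map r0 := by
    rintro s (hs | hs) v hv h0
    · obtain ⟨F, hF, rfl⟩ := hs
      exact htm K hK F hF v (by simpa using hv) h0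
    · have := lab1 hs hv; omega
  have key := swap_facet hC (X₀ := fs (K.tail.map (List.map r0)))
    (X₀' := fs (K'.tail.map (List.map r0)))
    (M := fs (tube ((hd K).map r0 ++ (mid ++ (hd L).map r1))) ∪ fs (L.tail.map (List.map r1)))
    (a := (hd K).map r0) (a' := (hd K').map r0) (fs_finite _) (fs_finite _)
    ((fs_finite _).union (fs_finite _)) (good0 hK).nodup (good0 hK').nodup (good0 hK).len
    (good0 hK').len ?_ ?_ ?_ ?_ (good_max (good0 hK)) (good_max (good0 hK'))
    (rel_map hC hK hK' r0 (· / 3) r0_div h)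
  · rw [real_eq, real_eq, fs_cs, fs_cs]
    rw [image_union, ← tube_map, List.map_append, List.map_append,
      map_swp (good0 hK).nodup hl, map_swp_id (l := mid), map_swp_id (l := (hd L).map r1),
      map_map_swp_id] at key
    · exact key
    · intro l hl v hv hv'
      obtain ⟨G, hG, rfl⟩ := List.mem_map.1 hl
      have := mem_map_r0 hv'; have := mem_map_r1 hv; omega
    · intro v hv hv'
      have := mem_map_r0 hv'; have := mem_map_r1 hv; omega
    · intro v hv hv'
      have := mem_map_r0 hv'; have := mid_mod hv; omega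
  · intro s hs v hv
    by_cases h0 : v % 3 = 0
    · exact Or.inl (hM s hs v hv h0)
    · exact Or.inr (fun h => h0 (mem_map_r0 h))
  · intro s hs t ht v hv hvt
    exact hM t ht v hvt (lab0 hs hv)
  · intro s hs t ht v hv hvt
    exact hM t ht v hvt (lab0 hs hv)
  · intro s hs
    obtain ⟨t, ht, hst⟩ := bd_left (good0 hK).len (rfl : mid.length = 5) (good1 hL).len
      (all_nodup hK hL) s hs
    exact ⟨t, Or.inl ht, hst⟩

theorem cs_right {C : Set E → (E → E) → Prop} (hC : Cls C) {K L L' : Code} (hK : Marked bb K)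
    (hL : Marked bb L) (hL' : Marked bb L') (h : Rel C L L') :
    ∃ f g : E → E, Iso C (real (cs K L)) (real (cs K L')) f g := by
  have hl : ((hd L).map r1).length = ((hd L').map r1).length := by
    rw [(good1 hL).len, (good1 hL').len]
  have htm : ∀ F ∈ tube ((hd K).map r0 ++ (mid ++ (hd L).map r1)),
      ∀ v ∈ F, v % 3 = 1 → v ∈ (hd L).map r1 := by
    intro F hF v hv h0
    have := (tube_mem (all_nodup hK hL) hF).2.2 v hv
    rcases List.mem_append.1 this with h1 | h1
    · have := mem_map_r0 h1; omega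
    · rcases List.mem_append.1 h1 with h1 | h1
      · have := mid_mod h1; omega
      · exact h1
  have hM : ∀ s ∈ fs (K.tail.map (List.map r0)) ∪
      fs (tube ((hd K).map r0 ++ (mid ++ (hd L).map r1))), ∀ v ∈ s, v % 3 = 1 →
      v ∈ (hd L).map r1 := by
    rintro s (hs | hs) v hv h0
    · have := lab0 hs hv; omega
    · obtain ⟨F, hF, rfl⟩ := hs
      exact htm F hF v (by simpa using hv) h0
  have key := swap_facet hC (X₀ := fs (L.tail.map (List.map r1)))
    (X₀' := fs (L'.tail.map (List.map r1)))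
    (M := fs (K.tail.map (List.map r0)) ∪ fs (tube ((hd K).map r0 ++ (mid ++ (hd L).map r1))))
    (a := (hd L).map r1) (a' := (hd L').map r1) (fs_finite _) (fs_finite _)
    ((fs_finite _).union (fs_finite _)) (good1 hL).nodup (good1 hL').nodup (good1 hL).len
    (good1 hL').len ?_ ?_ ?_ ?_ (good_max (good1 hL)) (good_max (good1 hL'))
    (rel_map hC hL hL' r1 (· / 3) r1_div h)
  · rw [real_eq, real_eq, fs_cs, fs_cs]
    rw [image_union, ← tube_map, List.map_append, List.map_append,
      map_swp (good1 hL).nodup hl, map_swp_id (l := mid), map_swp_id (l := (hd K).map r0),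
      map_map_swp_id] at key
    · have e : ∀ A B D : Set (Finset ℕ), A ∪ (B ∪ D) = D ∪ (A ∪ B) := fun A B D => by
        rw [← Set.union_assoc, Set.union_comm]
      rw [e _ _ (fs (L.tail.map (List.map r1))), e _ _ (fs (L'.tail.map (List.map r1)))]
      exact key
    · intro l hl v hv hv'
      obtain ⟨G, hG, rfl⟩ := List.mem_map.1 hl
      have := mem_map_r1 hv'; have := mem_map_r0 hv; omega
    · intro v hv hv'
      have := mem_map_r1 hv'; have := mem_map_r0 hv; omega
    · intro v hv hv'
      have := mem_map_r1 hv'; have := mid_mod hv; omega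
  · intro s hs v hv
    by_cases h0 : v % 3 = 1
    · exact Or.inl (hM s hs v hv h0)
    · exact Or.inr (fun h => h0 (mem_map_r1 h))
  · intro s hs t ht v hv hvt
    exact hM t ht v hvt (lab1 hs hv)
  · intro s hs t ht v hv hvt
    exact hM t ht v hvt (lab1 hs hv)
  · intro s hs
    obtain ⟨t, ht, hst⟩ := bd_right (good0 hK).len (rfl : mid.length = 5) (good1 hL).len
      (all_nodup hK hL) s hs
    exact ⟨t, Or.inr ht, hst⟩

end Pool.Agent.DT70
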