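import Pool.Agent.DT70.Hol

/-! Module DT70/Univ. The fundamental group of a complex is its edge path group.

Let X be finite with connected realization, o a vertex, G = π₁(Rz X, o) (Mathlib convention:
p * q = q.trans p). For every vertex u choose a class κ_u from pt o to pt u, with κ_o = refl
(`path_conn`); for u, w in a common face s let ε_uw be the class of a segment from pt u to pt w
inside sx s (`exists_seg`); by `star_homotopic` (star of u) it does not depend on s. Put
  L u w = class of the loop κ_w, ε_wu, κ_u⁻¹  (i.e. (κ_w.trans ε_wu).trans κ_u.symm)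
if u, w are in a common face, and 1 otherwise.
coc: L u v * L v w = (L v w).trans (L u v) = κ_w ε_wv κ_v⁻¹ κ_v ε_vu κ_u⁻¹, and ε_wv ε_vu = ε_wu
  by `star_homotopic` (everything happens in sx s).
gen: `path_induction` with Q x y p := for all u, w with 0 < x u, 0 < y w:
  EP X L w u (ξ_{x,u} p ξ_{y,w}⁻¹) where ξ_{x,u} = κ_u followed by the class of a segment from
  pt u to x (`exists_seg_pos`, reversed; independent of the choice by `star_homotopic`). Composition:
  choose v with 0 < y v; EP X L v u g and EP X L w v g' give EP X L w u (g' * g) and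
  (g' * g) = g.trans g'. A path γ inside {0 < v}: mk γ = seg(x, v) seg(v, y) by `star_homotopic`, and
  ξ_{x,u} seg(x,v) κ_v⁻¹ = L v u, κ_v seg(v,y) ξ_{y,w}⁻¹ = L w v (again `star_homotopic` in the
  star of u, or of w: all points are in a face containing both). Then take x = y = pt o, u = w = o.
univ: take hol from `exists_hol`; θ p = (hol o o o o p)⁻¹, which is a homomorphism, and
  a u = (hol (pt o) (pt u) o u κ_u)⁻¹. hol of ε_wu is c w u: split the segment at its midpoint m:
  the first half is inside {0 < w}, the second inside {0 < u}, and hol m m w u refl = c w u. So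
  θ (L u w) = (hol(κ_w) c w u hol(κ_u)⁻¹)⁻¹ = hol(κ_u) (c w u)⁻¹ hol(κ_w)⁻¹ = (a u)⁻¹ c u w a w.
  (hol of the inverse class is the inverse by the first and third properties; c o o = 1.)
-/

namespace Pool.Agent.DT70

/-- Products of `L` along edge paths of `X`. -/
inductive EP (X : Set (Finset ℕ)) {G : Type} [Group G] (L : ℕ → ℕ → G) : ℕ → ℕ → G → Prop
  | nil (u : ℕ) : EP X L u u 1
  | cons {u v w : ℕ} {g : G} (s : Finset ℕ) (hs : s ∈ X) (hu : u ∈ s) (hv : v ∈ s)
      (h : EP X L v w g) : EP X L u w (L u v * g)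

/-- `G` with the cocycle `L` is the edge path group of `X` at the vertex `o`. -/
structure Univ (X : Set (Finset ℕ)) (o : ℕ) (G : Type) [Group G] (L : ℕ → ℕ → G) : Prop where
  coc : Coc X L
  gen : ∀ g : G, EP X L o o g
  univ : ∀ (Γ : Type) [Group Γ] (c : ℕ → ℕ → Γ), Coc X c →
    ∃ (θ : G →* Γ) (a : ℕ → Γ), a o = 1 ∧
      ∀ s ∈ X, ∀ u ∈ s, ∀ w ∈ s, θ (L u w) = (a u)⁻¹ * c u w * a w

theorem EP.trans {X : Set (Finset ℕ)} {G : Type} [Group G] {L : ℕ → ℕ → G} {u v w : ℕ} {g h : G}
    (h1 : EP X L u v g) (h2 : EP X L v w h) : EP X L u w (g * h) := by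
  induction h1 with
  | nil u => rw [one_mul]; exact h2
  | cons s hs hu hv _ ih => rw [mul_assoc]; exact EP.cons s hs hu hv (ih h2)

theorem EP.single {X : Set (Finset ℕ)} {G : Type} [Group G] {L : ℕ → ℕ → G} {u v : ℕ}
    {s : Finset ℕ} (hs : s ∈ X) (hu : u ∈ s) (hv : v ∈ s) : EP X L u v (L u v) := by
  have h := EP.cons (L := L) s hs hu hv (EP.nil (X := X) (L := L) v)
  rwa [mul_one] at h

/-- The class is represented by a path in the closed star of `v`. -/
private def UStar (X : Set (Finset ℕ)) (v : ℕ) {x y : Rz X}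
    (p : Path.Homotopic.Quotient x y) : Prop :=
  ∃ γ : Path x y, Path.Homotopic.Quotient.mk γ = p ∧
    ∀ t, ∃ s ∈ X, v ∈ s ∧ ((γ t : Rz X) : E) ∈ sx s

/-- The class is represented by a path in the closed face `s`. -/
private def UFace {X : Set (Finset ℕ)} (s : Finset ℕ) {x y : Rz X}
    (p : Path.Homotopic.Quotient x y) : Prop :=
  ∃ γ : Path x y, Path.Homotopic.Quotient.mk γ = p ∧ ∀ t, ((γ t : Rz X) : E) ∈ sx s

/-- The class is represented by a path in the open star of `v`. -/
private def UOpen {X : Set (Finset ℕ)} (v : ℕ) {x y : Rz X}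
    (p : Path.Homotopic.Quotient x y) : Prop :=
  ∃ γ : Path x y, Path.Homotopic.Quotient.mk γ = p ∧ ∀ t, 0 < ((γ t : Rz X) : E) v

private theorem UStar.unique {X : Set (Finset ℕ)} {v : ℕ} {x y : Rz X}
    {p q : Path.Homotopic.Quotient x y} (hp : UStar X v p) (hq : UStar X v q) : p = q := by
  obtain ⟨γ, rfl, h⟩ := hp
  obtain ⟨γ', rfl, h'⟩ := hq
  exact star_homotopic γ γ' h h'

private theorem UFace.star {X : Set (Finset ℕ)} {s : Finset ℕ} {v : ℕ} {x y : Rz X}
    {p : Path.Homotopic.Quotient x y} (hp : UFace s p) (hs : s ∈ X) (hv : v ∈ s) :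
    UStar X v p := by
  obtain ⟨γ, rfl, h⟩ := hp
  exact ⟨γ, rfl, fun t => ⟨s, hs, hv, h t⟩⟩

private theorem UOpen.star {X : Set (Finset ℕ)} {v : ℕ} {x y : Rz X}
    {p : Path.Homotopic.Quotient x y} (hp : UOpen v p) : UStar X v p := by
  obtain ⟨γ, rfl, h⟩ := hp
  refine ⟨γ, rfl, fun t => ?_⟩
  obtain ⟨s, hs, hx⟩ := (γ t).2
  exact ⟨s, hs, pos_mem (X := X) hx (h t), hx⟩

private theorem UStar.trans {X : Set (Finset ℕ)} {v : ℕ} {x y z : Rz X}
    {p : Path.Homotopic.Quotient x y} {q : Path.Homotopic.Quotient y z}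
    (hp : UStar X v p) (hq : UStar X v q) : UStar X v (p.trans q) := by
  obtain ⟨γ, rfl, h⟩ := hp
  obtain ⟨γ', rfl, h'⟩ := hq
  refine ⟨γ.trans γ', rfl, fun t => ?_⟩
  have ht : (γ.trans γ') t ∈ Set.range γ ∪ Set.range γ' := by
    rw [← Path.trans_range]
    exact Set.mem_range_self t
  rcases ht with ⟨t', ht'⟩ | ⟨t', ht'⟩
  · rw [← ht']; exact h t'
  · rw [← ht']; exact h' t'

private theorem UStar.symm {X : Set (Finset ℕ)} {v : ℕ} {x y : Rz X}
    {p : Path.Homotopic.Quotient x y} (hp : UStar X v p) : UStar X v p.symm := by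
  obtain ⟨γ, rfl, h⟩ := hp
  exact ⟨γ.symm, rfl, fun t => h _⟩

private theorem UOpen.symm {X : Set (Finset ℕ)} {v : ℕ} {x y : Rz X}
    {p : Path.Homotopic.Quotient x y} (hp : UOpen v p) : UOpen v p.symm := by
  obtain ⟨γ, rfl, h⟩ := hp
  exact ⟨γ.symm, rfl, fun t => h _⟩

private theorem upos_verts {X : Set (Finset ℕ)} {x : Rz X} {v : ℕ} (h : 0 < (x : E) v) :
    v ∈ verts X := by
  obtain ⟨s, hs, hx⟩ := x.2
  exact ⟨s, hs, pos_mem (X := X) hx h⟩

private theorem upt_pos (X : Set (Finset ℕ)) {v : ℕ} (hv : v ∈ verts X) :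
    0 < ((pt X hv : Rz X) : E) v := by
  change 0 < (Pi.single v 1 : E) v
  rw [Pi.single_eq_same]
  exact one_pos

private theorem upt_mem {X : Set (Finset ℕ)} {s : Finset ℕ} {v : ℕ} (hv : v ∈ verts X)
    (h : v ∈ s) : ((pt X hv : Rz X) : E) ∈ sx s := single_mem h

/-- choice of segments between vertices -/
private theorem uexists_eps {X : Set (Finset ℕ)} (hP : PathConnectedSpace (Rz X)) (u w : ℕ)
    (hu : u ∈ verts X) (hw : w ∈ verts X) :
    ∃ p : Path.Homotopic.Quotient (pt X hu) (pt X hw),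
      ∀ s ∈ X, u ∈ s → w ∈ s → UFace s p := by
  by_cases h : ∃ s ∈ X, u ∈ s ∧ w ∈ s
  · obtain ⟨s, hs, hus, hws⟩ := h
    obtain ⟨γ, hγ⟩ := exists_seg hs (upt_mem hu hus) (upt_mem hw hws)
    refine ⟨Path.Homotopic.Quotient.mk γ, fun s' hs' hus' hws' => ?_⟩
    obtain ⟨γ', hγ'⟩ := exists_seg hs' (upt_mem hu hus') (upt_mem hw hws')
    refine ⟨γ', ?_, hγ'⟩
    exact UStar.unique (v := u) ⟨γ', rfl, fun t => ⟨s', hs', hus', hγ' t⟩⟩
      ⟨γ, rfl, fun t => ⟨s, hs, hus, hγ t⟩⟩
  · exact ⟨Path.Homotopic.Quotient.mk (PathConnectedSpace.somePath _ _),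
      fun s hs hus hws => absurd ⟨s, hs, hus, hws⟩ h⟩

/-- choice of segments from a point to the vertices of its carrier -/
private theorem uexists_sig {X : Set (Finset ℕ)} (x : Rz X) (v : ℕ) (hx : 0 < (x : E) v) :
    ∃ p : Path.Homotopic.Quotient x (pt X (upos_verts hx)),
      UOpen v p ∧ ∀ s ∈ X, (x : E) ∈ sx s → UFace s p := by
  obtain ⟨γ, hγ⟩ := exists_seg_pos (upos_verts hx) hx
  refine ⟨Path.Homotopic.Quotient.mk γ, ⟨γ, rfl, hγ⟩, fun s hs hxs => ?_⟩
  have hvs : v ∈ s := pos_mem (X := X) hxs hx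
  obtain ⟨γ', hγ'⟩ := exists_seg hs hxs (upt_mem (upos_verts hx) hvs)
  refine ⟨γ', ?_, hγ'⟩
  exact UStar.unique (v := v) ⟨γ', rfl, fun t => ⟨s, hs, hvs, hγ' t⟩⟩
    (UOpen.star ⟨γ, rfl, hγ⟩)

private theorem umid {X : Set (Finset ℕ)} {s : Finset ℕ} (hs : s ∈ X) {u w : ℕ} (hu : u ∈ s)
    (hw : w ∈ s) : ∃ m : Rz X, (m : E) ∈ sx s ∧ 0 < (m : E) u ∧ 0 < (m : E) w := by
  have hm : (1 / 2 : ℝ) • (Pi.single u 1 : E) + (1 / 2 : ℝ) • (Pi.single w 1 : E) ∈ sx s :=
    convex_sx s (single_mem hu) (single_mem hw) (by norm_num) (by norm_num) (by norm_num)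
  have hnn : ∀ a b : ℕ, 0 ≤ (Pi.single a 1 : E) b := by
    intro a b
    rcases eq_or_ne b a with rfl | hne
    · rw [Pi.single_eq_same]; exact zero_le_one
    · rw [Pi.single_eq_of_ne hne]
  refine ⟨⟨_, s, hs, hm⟩, hm, ?_, ?_⟩
  · change 0 < (1 / 2 : ℝ) * (Pi.single u 1 : E) u + (1 / 2 : ℝ) * (Pi.single w 1 : E) u
    have h1 := hnn w u
    rw [Pi.single_eq_same]
    linarith
  · change 0 < (1 / 2 : ℝ) * (Pi.single u 1 : E) w + (1 / 2 : ℝ) * (Pi.single w 1 : E) w
    have h1 := hnn u w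
    rw [Pi.single_eq_same (M := fun _ => ℝ) w (1 : ℝ)]
    linarith

private theorem ucancel {X : Type} [TopologicalSpace X] {x y z : X}
    (p : Path.Homotopic.Quotient x y) (q : Path.Homotopic.Quotient x z) :
    p.trans (p.symm.trans q) = q := by
  rw [← Path.Homotopic.Quotient.trans_assoc, Path.Homotopic.Quotient.trans_symm,
    Path.Homotopic.Quotient.refl_trans]

private theorem ucancel' {X : Type} [TopologicalSpace X] {x y z : X}
    (p : Path.Homotopic.Quotient y x) (q : Path.Homotopic.Quotient x z) :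
    p.symm.trans (p.trans q) = q := by
  rw [← Path.Homotopic.Quotient.trans_assoc, Path.Homotopic.Quotient.symm_trans,
    Path.Homotopic.Quotient.refl_trans]

theorem exists_univ {X : Set (Finset ℕ)} (hX : X.Finite) (hc : IsConnected (Rz X)) {o : ℕ}
    (ho : o ∈ verts X) : ∃ L, Univ X o (FundamentalGroup (Rz X) (pt X ho)) L := by
  classical
  have hP := path_conn hX hc
  -- the choices
  obtain ⟨κ, κo⟩ : ∃ κ : ∀ u (hu : u ∈ verts X),
      Path.Homotopic.Quotient (pt X ho) (pt X hu), κ o ho = Path.Homotopic.Quotient.refl _ := by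
    refine ⟨fun u hu => (Path.Homotopic.Quotient.mk
      (PathConnectedSpace.somePath (pt X ho) (pt X ho))).symm.trans
        (Path.Homotopic.Quotient.mk (PathConnectedSpace.somePath (pt X ho) (pt X hu))), ?_⟩
    exact Path.Homotopic.Quotient.symm_trans _
  choose ε hε using uexists_eps hP
  choose σ hσO hσF using uexists_sig (X := X)
  have hεtr : ∀ s ∈ X, ∀ u v w (hu : u ∈ verts X) (hv : v ∈ verts X) (hw : w ∈ verts X),
      u ∈ s → v ∈ s → w ∈ s → (ε u v hu hv).trans (ε v w hv hw) = ε u w hu hw := by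
    intro s hs u v w hu hv hw hus hvs hws
    exact UStar.unique (v := u)
      (((hε u v hu hv s hs hus hvs).star hs hus).trans ((hε v w hv hw s hs hvs hws).star hs hus))
      ((hε u w hu hw s hs hus hws).star hs hus)
  have hσε : ∀ s ∈ X, ∀ (x : Rz X) u v (hu : 0 < (x : E) u) (hv : 0 < (x : E) v),
      (x : E) ∈ sx s →
      (σ x u hu).symm.trans (σ x v hv) = ε u v (upos_verts hu) (upos_verts hv) := by
    intro s hs x u v hu hv hxs
    have hus : u ∈ s := pos_mem (X := X) hxs hu
    have hvs : v ∈ s := pos_mem (X := X) hxs hv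
    exact UStar.unique (v := u)
      (((hσF x u hu s hs hxs).star hs hus).symm.trans ((hσF x v hv s hs hxs).star hs hus))
      ((hε u v _ _ s hs hus hvs).star hs hus)
  -- the cocycle
  let ell : ∀ u w, u ∈ verts X → w ∈ verts X → Path.Homotopic.Quotient (pt X ho) (pt X ho) :=
    fun u w hu hw => ((κ w hw).trans (ε w u hw hu)).trans (κ u hu).symm
  let L : ℕ → ℕ → FundamentalGroup (Rz X) (pt X ho) := fun u w =>
    if h : u ∈ verts X ∧ w ∈ verts X then FundamentalGroup.fromPath (ell u w h.1 h.2) else 1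
  have hL : ∀ u w (hu : u ∈ verts X) (hw : w ∈ verts X),
      L u w = FundamentalGroup.fromPath (ell u w hu hw) := fun u w hu hw => dif_pos ⟨hu, hw⟩
  have hcoc : Coc X L := by
    intro s hs u hus v hvs w hws
    have hu : u ∈ verts X := ⟨s, hs, hus⟩
    have hv : v ∈ verts X := ⟨s, hs, hvs⟩
    have hw : w ∈ verts X := ⟨s, hs, hws⟩
    rw [hL u v hu hv, hL v w hv hw, hL u w hu hw, FundamentalGroup.mul_def]
    change (ell v w hv hw).trans (ell u v hu hv) = ell u w hu hw
    simp only [ell, Path.Homotopic.Quotient.trans_assoc, ucancel']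
    rw [← Path.Homotopic.Quotient.trans_assoc (ε w v hw hv) (ε v u hv hu),
      hεtr s hs w v u hw hv hu hws hvs hus]
  -- loops from paths
  let lp : ∀ (x y : Rz X) u w (_ : 0 < (x : E) u) (_ : 0 < (y : E) w)
      (_ : Path.Homotopic.Quotient x y), Path.Homotopic.Quotient (pt X ho) (pt X ho) :=
    fun x y u w hu hw p => (κ u (upos_verts hu)).trans ((σ x u hu).symm.trans (p.trans
      ((σ y w hw).trans (κ w (upos_verts hw)).symm)))
  have hind : ∀ (x y : Rz X) (p : Path.Homotopic.Quotient x y),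
      ∀ u w (hu : 0 < (x : E) u) (hw : 0 < (y : E) w),
        EP X L w u (FundamentalGroup.fromPath (lp x y u w hu hw p)) := by
    refine path_induction X (fun x y p => ∀ u w (hu : 0 < (x : E) u) (hw : 0 < (y : E) w),
        EP X L w u (FundamentalGroup.fromPath (lp x y u w hu hw p))) ?_ ?_
    · intro x y z p q h1 h2 u w hu hw
      obtain ⟨v, hv⟩ := exists_pos y
      have h3 := (h2 v w hv hw).trans (h1 u v hu hv)
      rw [FundamentalGroup.mul_def] at h3
      have h4 : lp x z u w hu hw (p.trans q) = (lp x y u v hu hv p).trans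
          (lp y z v w hv hw q) := by
        simp only [lp, Path.Homotopic.Quotient.trans_assoc, ucancel', ucancel]
      rw [h4]
      exact h3
    · intro v x y γ hγ u w hu hw
      have hxv : 0 < (x : E) v := by
        have h := hγ 0
        rwa [γ.source] at h
      have hyv : 0 < (y : E) v := by
        have h := hγ 1
        rwa [γ.target] at h
      have hp : Path.Homotopic.Quotient.mk γ = (σ x v hxv).trans (σ y v hyv).symm :=
        UStar.unique (v := v) (UOpen.star ⟨γ, rfl, hγ⟩)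
          ((hσO x v hxv).star.trans (hσO y v hyv).star.symm)
      obtain ⟨s, hs, hxs⟩ := x.2
      obtain ⟨s', hs', hys⟩ := y.2
      have h1 := hσε s hs x u v hu hxv hxs
      have h2 := hσε s' hs' y v w hyv hw hys
      have h3 : lp x y u w hu hw (Path.Homotopic.Quotient.mk γ) =
          (ell v u (upos_verts hxv) (upos_verts hu)).trans
            (ell w v (upos_verts hw) (upos_verts hyv)) := by
        simp only [lp, ell, hp, Path.Homotopic.Quotient.trans_assoc, ucancel']
        rw [← h1, ← h2]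
        simp only [Path.Homotopic.Quotient.trans_assoc]
      rw [h3]
      have h4 := (EP.single (L := L) hs' (pos_mem (X := X) hys hw)
        (pos_mem (X := X) hys hyv)).trans
        (EP.single (L := L) hs (pos_mem (X := X) hxs hxv) (pos_mem (X := X) hxs hu))
      rw [hL w v (upos_verts hw) (upos_verts hyv), hL v u (upos_verts hxv) (upos_verts hu),
        FundamentalGroup.mul_def] at h4
      exact h4
  have hgen : ∀ g : FundamentalGroup (Rz X) (pt X ho), EP X L o o g := by
    intro g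
    have h := hind (pt X ho) (pt X ho) g o o (upt_pos X ho) (upt_pos X ho)
    have hσ1 : σ (pt X ho) o (upt_pos X ho) = Path.Homotopic.Quotient.refl _ :=
      UStar.unique (v := o) (hσO _ _ _).star
        (UOpen.star ⟨Path.refl _, rfl, fun t => upt_pos X ho⟩)
    have h1 : lp (pt X ho) (pt X ho) o o (upt_pos X ho) (upt_pos X ho) g = g := by
      have hs1 : (Path.Homotopic.Quotient.refl (pt X ho)).symm =
          Path.Homotopic.Quotient.refl (pt X ho) := by
        rw [← Path.Homotopic.Quotient.mk_refl, ← Path.Homotopic.Quotient.mk_symm,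
          Path.refl_symm]
      simp only [lp]
      rw [hσ1, κo, hs1]
      simp only [Path.Homotopic.Quotient.refl_trans, Path.Homotopic.Quotient.trans_refl]
    rw [h1] at h
    exact h
  refine ⟨L, hcoc, hgen, ?_⟩
  intro Γ _ c hc'
  obtain ⟨hol, H1, H2, H3⟩ := exists_hol X c hc'
  have hone : ∀ v ∈ verts X, c v v = 1 := by
    rintro v ⟨s, hs, hv⟩
    exact hc'.self hs hv
  have hrefl : ∀ (x : Rz X) v, 0 < (x : E) v →
      hol x x v v (Path.Homotopic.Quotient.refl x) = 1 := by
    intro x v hv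
    rw [H3 x v v hv hv]
    exact hone v (upos_verts hv)
  have hinv : ∀ (x y : Rz X) u w (p : Path.Homotopic.Quotient x y), 0 < (x : E) u →
      0 < (y : E) w → hol y x w u p.symm = (hol x y u w p)⁻¹ := by
    intro x y u w p hu hw
    have h := H1 x y x u w u p p.symm hu hw hu
    rw [Path.Homotopic.Quotient.trans_symm, hrefl x u hu] at h
    exact eq_inv_of_mul_eq_one_right h.symm
  have hopen : ∀ (x y : Rz X) v (p : Path.Homotopic.Quotient x y), UOpen v p →
      hol x y v v p = 1 := by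
    rintro x y v _ ⟨γ, rfl, h⟩
    exact H2 x y v γ h
  have heps : ∀ s ∈ X, ∀ u w (hu : u ∈ verts X) (hw : w ∈ verts X), u ∈ s → w ∈ s →
      hol (pt X hw) (pt X hu) w u (ε w u hw hu) = c w u := by
    intro s hs u w hu hw hus hws
    obtain ⟨m, hms, hmu, hmw⟩ := umid hs hus hws
    have h1 := hσε s hs m w u hmw hmu hms
    have h2 := H1 (pt X hw) m (pt X hu) w w u (σ m w hmw).symm (σ m u hmu) (upt_pos X hw) hmw
      (upt_pos X hu)
    have h3 := H1 m m (pt X hu) w u u (Path.Homotopic.Quotient.refl m) (σ m u hmu) hmw hmu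
      (upt_pos X hu)
    rw [Path.Homotopic.Quotient.refl_trans, H3 m w u hmw hmu,
      hopen m (pt X hu) u (σ m u hmu) (hσO m u hmu), mul_one] at h3
    rw [hopen (pt X hw) m w (σ m w hmw).symm (hσO m w hmw).symm, one_mul, h3] at h2
    rw [← h2, ← h1]
  have hpo := upt_pos X ho
  let θ : FundamentalGroup (Rz X) (pt X ho) →* Γ :=
    MonoidHom.mk' (fun p => (hol (pt X ho) (pt X ho) o o (FundamentalGroup.toPath p))⁻¹) (by
      intro p q
      rw [FundamentalGroup.mul_def, ← mul_inv_rev]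
      congr 1
      exact H1 (pt X ho) (pt X ho) (pt X ho) o o o _ _ hpo hpo hpo)
  refine ⟨θ, fun u => if h : u ∈ verts X then
    (hol (pt X ho) (pt X h) o u (κ u h))⁻¹ else 1, ?_, ?_⟩
  · beta_reduce
    rw [dif_pos ho, κo, hrefl _ _ hpo, inv_one]
  · intro s hs u hus w hws
    have hu : u ∈ verts X := ⟨s, hs, hus⟩
    have hw : w ∈ verts X := ⟨s, hs, hws⟩
    beta_reduce
    rw [dif_pos hu, dif_pos hw, hL u w hu hw]
    change (hol (pt X ho) (pt X ho) o o
      (((κ w hw).trans (ε w u hw hu)).trans (κ u hu).symm))⁻¹ = _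
    rw [H1 (pt X ho) (pt X hu) (pt X ho) o u o _ _ hpo (upt_pos X hu) hpo,
      H1 (pt X ho) (pt X hw) (pt X hu) o w u _ _ hpo (upt_pos X hw) (upt_pos X hu),
      heps s hs u w hu hw hus hws, hinv _ _ _ _ _ hpo (upt_pos X hu),
      hc'.symm hs hus hws]
    group

end Pool.Agent.DT70
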