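import Pool.Agent.DT70.Relabel

/-! Module DT70/Du. Disjoint unions.

fs (du X Y) = X' ∪ Y' where X', Y' are the images of fs X, fs Y under v ↦ 2 v and v ↦ 2 v + 1
(`fs_append`, `fs_map`). Members of X' have even, those of Y' odd vertices, so
lk v (X' ∪ Y') is lk v X' or lk v Y', and Rz X' and Rz Y' are disjoint (`sx_inter`: a point
in both would be in sx of the empty set, sum 0).
`du_closed`: `lks_image`, `fs_link`, `real_eq`; facets: nodup under injective maps.
`disj_glue`: h x = f x if x ∈ Rz X, else f' x; same for the inverse; `hC.union`, `hC.congr`.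
`du_iso`: conjugate with the relabellings (`relabel`, `Iso.trans`, `Iso.of_pl`) and glue.
`du_swap`: Rz X' ≅ real X ≅ Rz X'' (odd copy) and Rz Y' likewise; glue (Rz (A ∪ B) = Rz (B ∪ A)).
`du_components`: f : Rz (X' ∪ Y') → Rz (X₁' ∪ Y₁'), all four pieces connected, closed, disjoint.
f (Rz X') is connected (`plOn_cont`), so it is contained in Rz X₁' or in Rz Y₁'
(`IsPreconnected.subset_or_subset` needs open sets; use `isPreconnected_closed_iff`); same for
f (Rz Y'). If f (Rz X') ⊆ Rz X₁': Rz Y₁' is not empty and f is onto, so f (Rz Y') ⊆ Rz Y₁', hence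
every point of Rz X₁' comes from Rz X': Iso PLOn (Rz X') (Rz X₁') f g, and by relabelling
PLHomeo X X₁. The other case gives PLHomeo X Y₁.
-/

namespace Pool.Agent.DT70

/-- Image of a complex under a renaming of the vertices. -/
def imc (σ : ℕ → ℕ) (X : Set (Finset ℕ)) : Set (Finset ℕ) := {t | ∃ s ∈ X, t = s.image σ}

theorem imc_finite (σ : ℕ → ℕ) {X : Set (Finset ℕ)} (h : X.Finite) : (imc σ X).Finite := by
  have : imc σ X = (fun s => s.image σ) '' X := by
    ext t
    constructor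
    · rintro ⟨s, hs, rfl⟩
      exact ⟨s, hs, rfl⟩
    · rintro ⟨s, hs, rfl⟩
      exact ⟨s, hs, rfl⟩
  rw [this]
  exact h.image _

theorem tau_even (v : ℕ) : (2 * v) / 2 = v := by omega

theorem tau_odd (v : ℕ) : (2 * v + 1) / 2 = v := by omega

theorem iso_even (X : Set (Finset ℕ)) :
    ∃ f g : E → E, Iso PLOn (Rz X) (Rz (imc (fun v => 2 * v) X)) f g :=
  ⟨_, _, relabel X (fun v => 2 * v) (fun w => w / 2) (fun _ _ v _ => tau_even v)⟩

theorem iso_odd (X : Set (Finset ℕ)) :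
    ∃ f g : E → E, Iso PLOn (Rz X) (Rz (imc (fun v => 2 * v + 1) X)) f g :=
  ⟨_, _, relabel X (fun v => 2 * v + 1) (fun w => w / 2) (fun _ _ v _ => tau_odd v)⟩

theorem fs_du (X Y : Code) :
    fs (du X Y) = imc (fun v => 2 * v) (fs X) ∪ imc (fun v => 2 * v + 1) (fs Y) := by
  unfold du
  rw [fs_append, fs_map, fs_map]
  rfl

theorem disj_eo (X Y : Set (Finset ℕ)) (x : E) (h1 : x ∈ Rz (imc (fun v => 2 * v) X))
    (h2 : x ∈ Rz (imc (fun v => 2 * v + 1) Y)) : False := by
  obtain ⟨s, ⟨s0, _, rfl⟩, hs⟩ := h1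
  obtain ⟨t, ⟨t0, _, rfl⟩, ht⟩ := h2
  have h := sx_inter hs ht
  have he : s0.image (fun v => 2 * v) ∩ t0.image (fun v => 2 * v + 1) = ∅ := by
    ext a
    simp only [Finset.mem_inter, Finset.mem_image, Finset.notMem_empty, iff_false, not_and]
    rintro ⟨b, _, rfl⟩ ⟨c, _, hc⟩
    omega
  rw [he] at h
  have := h.2.2
  simp at this

theorem disj_oe (X Y : Set (Finset ℕ)) (x : E) (h1 : x ∈ Rz (imc (fun v => 2 * v + 1) X))
    (h2 : x ∈ Rz (imc (fun v => 2 * v) Y)) : False := disj_eo Y X x h2 h1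

open Classical in
theorem disj_glue {C : Set E → (E → E) → Prop} (hC : Cls C) {A B A' B' : Set (Finset ℕ)}
    (hA : A.Finite) (hB : B.Finite) (hA' : A'.Finite) (hB' : B'.Finite)
    (h : ∀ x, x ∈ Rz A → x ∈ Rz B → False) (h' : ∀ x, x ∈ Rz A' → x ∈ Rz B' → False)
    {f g f' g' : E → E} (h1 : Iso C (Rz A) (Rz A') f g) (h2 : Iso C (Rz B) (Rz B') f' g') :
    ∃ p q : E → E, Iso C (Rz (A ∪ B)) (Rz (A' ∪ B')) p q := by
  refine ⟨fun x => if x ∈ Rz A then f x else f' x, fun y => if y ∈ Rz A' then g y else g' y,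
    ?_, ?_, ?_, ?_⟩
  · intro x hx
    rw [Rz_union] at hx
    rw [Rz_union]
    rcases hx with hx | hx
    · have e := h1.1 x hx
      simp only [if_pos hx]
      exact ⟨Or.inl e.1, by rw [if_pos e.1]; exact e.2⟩
    · have e := h2.1 x hx
      have n : x ∉ Rz A := fun k => h x k hx
      have n' : f' x ∉ Rz A' := fun k => h' _ k e.1
      simp only [if_neg n]
      exact ⟨Or.inr e.1, by rw [if_neg n']; exact e.2⟩
  · intro x hx
    rw [Rz_union] at hx
    rw [Rz_union]
    rcases hx with hx | hx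
    · have e := h1.2.1 x hx
      simp only [if_pos hx]
      exact ⟨Or.inl e.1, by rw [if_pos e.1]; exact e.2⟩
    · have e := h2.2.1 x hx
      have n : x ∉ Rz A' := fun k => h' x k hx
      have n' : g' x ∉ Rz A := fun k => h _ k e.1
      simp only [if_neg n]
      exact ⟨Or.inr e.1, by rw [if_neg n']; exact e.2⟩
  · refine hC.union hA hB ?_ ?_
    · exact hC.congr h1.2.2.1 (fun x hx => if_pos hx)
    · exact hC.congr h2.2.2.1 (fun x hx => if_neg (fun k => h x k hx))
  · refine hC.union hA' hB' ?_ ?_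
    · exact hC.congr h1.2.2.2 (fun x hx => if_pos hx)
    · exact hC.congr h2.2.2.2 (fun x hx => if_neg (fun k => h' x k hx))

theorem lks_of_mfd {bb : Bool} {X : Code} (hX : Mfd bb X) : Lks bb (fs X) := by
  rintro v ⟨s, ⟨F, hF, rfl⟩, hv⟩
  exact (lk_iff bb v X).1 (hX.2.2 v ⟨F, hF, by simpa using hv⟩)

theorem du_mfd {bb : Bool} {X Y : Code} (hX : Mfd bb X) (hY : Mfd bb Y) : Mfd bb (du X Y) := by
  refine ⟨?_, ?_, ?_⟩
  · unfold du
    simp [hX.1]
  · intro F hF
    unfold du at hF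
    rw [List.mem_append, List.mem_map, List.mem_map] at hF
    rcases hF with ⟨G, hG, rfl⟩ | ⟨G, hG, rfl⟩
    · obtain ⟨h1, h2⟩ := hX.2.1 G hG
      refine ⟨h1.map (fun a b hab => ?_), by simpa using h2⟩
      omega
    · obtain ⟨h1, h2⟩ := hY.2.1 G hG
      refine ⟨h1.map (fun a b hab => ?_), by simpa using h2⟩
      omega
  · rintro v ⟨F, hF, hv⟩
    rw [lk_iff, fs_du, lk_union]
    unfold du at hF
    rw [List.mem_append, List.mem_map, List.mem_map] at hF
    rcases hF with ⟨G, hG, rfl⟩ | ⟨G, hG, rfl⟩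
    · rw [List.mem_map] at hv
      obtain ⟨u, hu, rfl⟩ := hv
      have e : lk (2 * u) (imc (fun v => 2 * v + 1) (fs Y)) = ∅ := by
        apply lk_eq_empty
        rintro s ⟨t, _, rfl⟩ hm
        rw [Finset.mem_image] at hm
        obtain ⟨w, _, hw⟩ := hm
        omega
      rw [e, Set.union_empty]
      exact lks_image (fs X) (fun v => 2 * v) (fun w => w / 2) (fun _ _ v _ => tau_even v)
        (lks_of_mfd hX) (2 * u)
        ⟨G.toFinset.image (fun v => 2 * v), ⟨G.toFinset, ⟨G, hG, rfl⟩, rfl⟩,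
          Finset.mem_image_of_mem _ (by simpa using hu)⟩
    · rw [List.mem_map] at hv
      obtain ⟨u, hu, rfl⟩ := hv
      have e : lk (2 * u + 1) (imc (fun v => 2 * v) (fs X)) = ∅ := by
        apply lk_eq_empty
        rintro s ⟨t, _, rfl⟩ hm
        rw [Finset.mem_image] at hm
        obtain ⟨w, _, hw⟩ := hm
        omega
      rw [e, Set.empty_union]
      exact lks_image (fs Y) (fun v => 2 * v + 1) (fun w => w / 2) (fun _ _ v _ => tau_odd v)
        (lks_of_mfd hY) (2 * u + 1)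
        ⟨G.toFinset.image (fun v => 2 * v + 1), ⟨G.toFinset, ⟨G, hG, rfl⟩, rfl⟩,
          Finset.mem_image_of_mem (fun v => 2 * v + 1) (by simpa using hu)⟩

/-- Conjugating by relabellings. -/
theorem conj_iso {C : Set E → (E → E) → Prop} (hC : Cls C) {X Y A B : Set (Finset ℕ)}
    (hA : ∃ f g : E → E, Iso PLOn (Rz X) (Rz A) f g)
    (hB : ∃ f g : E → E, Iso PLOn (Rz Y) (Rz B) f g)
    (h : ∃ f g : E → E, Iso C (Rz X) (Rz Y) f g) :
    ∃ f g : E → E, Iso C (Rz A) (Rz B) f g := by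
  obtain ⟨a, a', ha⟩ := hA
  obtain ⟨b, b', hb⟩ := hB
  obtain ⟨f, g, hf⟩ := h
  exact ⟨_, _, Iso.trans hC (Iso.trans hC (Iso.symm (Iso.of_pl hC ha)) hf) (Iso.of_pl hC hb)⟩

theorem du_iso {C : Set E → (E → E) → Prop} (hC : Cls C) {X Y X' Y' : Code}
    (h1 : ∃ f g : E → E, Iso C (real X) (real X') f g)
    (h2 : ∃ f g : E → E, Iso C (real Y) (real Y') f g) :
    ∃ f g : E → E, Iso C (real (du X Y)) (real (du X' Y')) f g := by
  rw [real_eq, real_eq] at h1 h2
  rw [real_eq, real_eq, fs_du, fs_du]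
  obtain ⟨f, g, hf⟩ := conj_iso hC (iso_even (fs X)) (iso_even (fs X')) h1
  obtain ⟨f', g', hf'⟩ := conj_iso hC (iso_odd (fs Y)) (iso_odd (fs Y')) h2
  exact disj_glue hC (imc_finite _ (fs_finite X)) (imc_finite _ (fs_finite Y))
    (imc_finite _ (fs_finite X')) (imc_finite _ (fs_finite Y'))
    (disj_eo _ _) (disj_eo _ _) hf hf'

theorem du_swap (X Y : Code) : PLHomeo (du X Y) (du Y X) := by
  unfold PLHomeo
  rw [real_eq, real_eq, fs_du, fs_du, Set.union_comm (imc _ (fs Y))]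
  obtain ⟨f, g, hf⟩ := conj_iso cls_pl (iso_even (fs X)) (iso_odd (fs X))
    ⟨_, _, Iso.refl cls_pl (Rz (fs X))⟩
  obtain ⟨f', g', hf'⟩ := conj_iso cls_pl (iso_odd (fs Y)) (iso_even (fs Y))
    ⟨_, _, Iso.refl cls_pl (Rz (fs Y))⟩
  exact disj_glue cls_pl (imc_finite _ (fs_finite X)) (imc_finite _ (fs_finite Y))
    (imc_finite _ (fs_finite X)) (imc_finite _ (fs_finite Y))
    (disj_eo _ _) (disj_oe _ _) hf hf'

theorem conn_transfer {X A : Set (Finset ℕ)} (hA : ∃ f g : E → E, Iso PLOn (Rz X) (Rz A) f g)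
    (h : IsConnected (Rz X)) : IsConnected (Rz A) := by
  obtain ⟨f, g, hf⟩ := hA
  have e : Rz A = f '' Rz X := by
    ext y
    constructor
    · intro hy
      exact ⟨g y, (hf.2.1 y hy).1, (hf.2.1 y hy).2⟩
    · rintro ⟨x, hx, rfl⟩
      exact (hf.1 x hx).1
  rw [e]
  exact h.image f (plOn_cont hf.2.2.1)

/-- A connected piece is mapped into one of two disjoint closed pieces. -/
theorem piece {A A' B' : Set (Finset ℕ)} {S : Set E} {f : E → E} (hA' : A'.Finite)
    (hB' : B'.Finite) (h' : ∀ x, x ∈ Rz A' → x ∈ Rz B' → False) (hc : IsConnected (Rz A))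
    (hf : ContinuousOn f S) (hS : Rz A ⊆ S) (hm : ∀ x ∈ Rz A, f x ∈ Rz (A' ∪ B')) :
    (∀ x ∈ Rz A, f x ∈ Rz A') ∨ (∀ x ∈ Rz A, f x ∈ Rz B') := by
  have hp : IsPreconnected (f '' Rz A) := (hc.image f (hf.mono hS)).isPreconnected
  rw [isPreconnected_iff_subset_of_disjoint_closed] at hp
  have := hp (Rz A') (Rz B') (isClosed_Rz hA') (isClosed_Rz hB') ?_ ?_
  · rcases this with h | h
    · exact Or.inl (fun x hx => h ⟨x, hx, rfl⟩)
    · exact Or.inr (fun x hx => h ⟨x, hx, rfl⟩)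
  · rintro _ ⟨x, hx, rfl⟩
    rw [← Rz_union]
    exact hm x hx
  · ext x
    simp only [Set.mem_inter_iff, Set.mem_empty_iff_false, iff_false, not_and]
    exact fun _ h1 h2 => h' x h1 h2

/-- Restriction of an isomorphism to a component. -/
theorem restrict_iso {A B A' B' : Set (Finset ℕ)} (hA : A.Finite) (hB : B.Finite)
    (h : ∀ x, x ∈ Rz A → x ∈ Rz B → False) (hcA : IsConnected (Rz A))
    (hcA' : IsConnected (Rz A')) {f g : E → E}
    (hf : Iso PLOn (Rz (A ∪ B)) (Rz (A' ∪ B')) f g) (hm : ∀ x ∈ Rz A, f x ∈ Rz A') :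
    ∃ f g : E → E, Iso PLOn (Rz A) (Rz A') f g := by
  have sA : Rz A ⊆ Rz (A ∪ B) := Rz_mono Set.subset_union_left
  have sA' : Rz A' ⊆ Rz (A' ∪ B') := Rz_mono Set.subset_union_left
  have hg : ∀ y ∈ Rz A', g y ∈ Rz A := by
    rcases piece hA hB h hcA' (plOn_cont hf.2.2.2) sA' (fun y hy => (hf.2.1 y (sA' hy)).1)
      with k | k
    · exact k
    · exfalso
      obtain ⟨x, hx⟩ := hcA.nonempty
      have e := hf.1 x (sA hx)
      have := k (f x) (hm x hx)
      rw [e.2] at this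
      exact h x hx this
  exact ⟨f, g, fun x hx => ⟨hm x hx, (hf.1 x (sA hx)).2⟩,
    fun y hy => ⟨hg y hy, (hf.2.1 y (sA' hy)).2⟩, plOn_mono hf.2.2.1 sA, plOn_mono hf.2.2.2 sA'⟩

theorem du_components {X Y X' Y' : Code} (h1 : IsConnected (real X)) (h2 : IsConnected (real Y))
    (h3 : IsConnected (real X')) (h4 : IsConnected (real Y'))
    (h : PLHomeo (du X Y) (du X' Y')) : PLHomeo X X' ∨ PLHomeo X Y' := by
  unfold PLHomeo at h
  rw [real_eq, real_eq, fs_du, fs_du] at h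
  obtain ⟨f, g, hf⟩ := h
  rw [real_eq] at h1 h2 h3 h4
  have c1 := conn_transfer (iso_even (fs X)) h1
  have c3 := conn_transfer (iso_even (fs X')) h3
  have c4 := conn_transfer (iso_odd (fs Y')) h4
  have sA : Rz (imc (fun v => 2 * v) (fs X)) ⊆
      Rz (imc (fun v => 2 * v) (fs X) ∪ imc (fun v => 2 * v + 1) (fs Y)) :=
    Rz_mono Set.subset_union_left
  rcases piece (imc_finite _ (fs_finite X')) (imc_finite _ (fs_finite Y')) (disj_eo _ _) c1
    (plOn_cont hf.2.2.1) sA (fun x hx => (hf.1 x (sA hx)).1) with k | k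
  · left
    have := restrict_iso (imc_finite _ (fs_finite X)) (imc_finite _ (fs_finite Y)) (disj_eo _ _)
      c1 c3 hf k
    unfold PLHomeo
    rw [real_eq, real_eq]
    obtain ⟨a, a', ha⟩ := iso_even (fs X)
    obtain ⟨b, b', hb⟩ := iso_even (fs X')
    obtain ⟨p, q, hp⟩ := this
    exact ⟨_, _, Iso.trans cls_pl (Iso.trans cls_pl ha hp) (Iso.symm hb)⟩
  · right
    rw [Set.union_comm (imc _ (fs X'))] at hf
    have := restrict_iso (imc_finite _ (fs_finite X)) (imc_finite _ (fs_finite Y)) (disj_eo _ _)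
      c1 c4 hf k
    unfold PLHomeo
    rw [real_eq, real_eq]
    obtain ⟨a, a', ha⟩ := iso_even (fs X)
    obtain ⟨b, b', hb⟩ := iso_odd (fs Y')
    obtain ⟨p, q, hp⟩ := this
    exact ⟨_, _, Iso.trans cls_pl (Iso.trans cls_pl ha hp) (Iso.symm hb)⟩

/-- If `f` maps the piece `A` into `A'` then it maps the piece `B` into `B'`. -/
theorem other_piece {A B A' B' : Set (Finset ℕ)} (hA' : A'.Finite) (hB' : B'.Finite)
    (h' : ∀ x, x ∈ Rz A' → x ∈ Rz B' → False) (hcB : IsConnected (Rz B))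
    (hcB' : IsConnected (Rz B')) {f g : E → E}
    (hf : Iso PLOn (Rz (A ∪ B)) (Rz (A' ∪ B')) f g) (hm : ∀ x ∈ Rz A, f x ∈ Rz A') :
    ∀ x ∈ Rz B, f x ∈ Rz B' := by
  have sB : Rz B ⊆ Rz (A ∪ B) := Rz_mono Set.subset_union_right
  have sB' : Rz B' ⊆ Rz (A' ∪ B') := Rz_mono Set.subset_union_right
  rcases piece hA' hB' h' hcB (plOn_cont hf.2.2.1) sB (fun x hx => (hf.1 x (sB hx)).1) with k | k
  · exfalso
    obtain ⟨y, hy⟩ := hcB'.nonempty
    have e := hf.2.1 y (sB' hy)
    have h1 := e.1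
    rw [Rz_union] at h1
    rcases h1 with h1 | h1
    · have := hm _ h1
      rw [e.2] at this
      exact h' y this hy
    · have := k _ h1
      rw [e.2] at this
      exact h' y this hy
  · exact k

/-- Two disjoint unions of connected complexes are PL homeomorphic only if their components
are, in one of the two possible orders. -/
theorem du_components2 {X Y X' Y' : Code} (h1 : IsConnected (real X)) (h2 : IsConnected (real Y))
    (h3 : IsConnected (real X')) (h4 : IsConnected (real Y'))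
    (h : PLHomeo (du X Y) (du X' Y')) :
    (PLHomeo X X' ∧ PLHomeo Y Y') ∨ (PLHomeo X Y' ∧ PLHomeo Y X') := by
  unfold PLHomeo at h
  rw [real_eq, real_eq, fs_du, fs_du] at h
  obtain ⟨f, g, hf⟩ := h
  rw [real_eq] at h1 h2 h3 h4
  have c1 := conn_transfer (iso_even (fs X)) h1
  have c2 := conn_transfer (iso_odd (fs Y)) h2
  have c3 := conn_transfer (iso_even (fs X')) h3
  have c4 := conn_transfer (iso_odd (fs Y')) h4
  have sA : Rz (imc (fun v => 2 * v) (fs X)) ⊆
      Rz (imc (fun v => 2 * v) (fs X) ∪ imc (fun v => 2 * v + 1) (fs Y)) :=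
    Rz_mono Set.subset_union_left
  rcases piece (imc_finite _ (fs_finite X')) (imc_finite _ (fs_finite Y')) (disj_eo _ _) c1
    (plOn_cont hf.2.2.1) sA (fun x hx => (hf.1 x (sA hx)).1) with k | k
  · left
    have k2 := other_piece (imc_finite _ (fs_finite X')) (imc_finite _ (fs_finite Y'))
      (disj_eo _ _) c2 c4 hf k
    have t1 := restrict_iso (imc_finite _ (fs_finite X)) (imc_finite _ (fs_finite Y))
      (disj_eo _ _) c1 c3 hf k
    rw [Set.union_comm (imc _ (fs X)), Set.union_comm (imc _ (fs X'))] at hf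
    have t2 := restrict_iso (imc_finite _ (fs_finite Y)) (imc_finite _ (fs_finite X))
      (disj_oe _ _) c2 c4 hf k2
    unfold PLHomeo
    rw [real_eq, real_eq, real_eq, real_eq]
    obtain ⟨a, a', ha⟩ := iso_even (fs X)
    obtain ⟨b, b', hb⟩ := iso_even (fs X')
    obtain ⟨c, c', hc⟩ := iso_odd (fs Y)
    obtain ⟨d, d', hd⟩ := iso_odd (fs Y')
    obtain ⟨p, q, hp⟩ := t1
    obtain ⟨r, s, hr⟩ := t2
    exact ⟨⟨_, _, Iso.trans cls_pl (Iso.trans cls_pl ha hp) (Iso.symm hb)⟩,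
      ⟨_, _, Iso.trans cls_pl (Iso.trans cls_pl hc hr) (Iso.symm hd)⟩⟩
  · right
    rw [Set.union_comm (imc _ (fs X'))] at hf
    have k2 := other_piece (imc_finite _ (fs_finite Y')) (imc_finite _ (fs_finite X'))
      (disj_oe _ _) c2 c3 hf k
    have t1 := restrict_iso (imc_finite _ (fs_finite X)) (imc_finite _ (fs_finite Y))
      (disj_eo _ _) c1 c4 hf k
    rw [Set.union_comm (imc _ (fs X)), Set.union_comm (imc _ (fs Y'))] at hf
    have t2 := restrict_iso (imc_finite _ (fs_finite Y)) (imc_finite _ (fs_finite X))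
      (disj_oe _ _) c2 c3 hf k2
    unfold PLHomeo
    rw [real_eq, real_eq, real_eq, real_eq]
    obtain ⟨a, a', ha⟩ := iso_even (fs X)
    obtain ⟨b, b', hb⟩ := iso_odd (fs Y')
    obtain ⟨c, c', hc⟩ := iso_odd (fs Y)
    obtain ⟨d, d', hd⟩ := iso_even (fs X')
    obtain ⟨p, q, hp⟩ := t1
    obtain ⟨r, s, hr⟩ := t2
    exact ⟨⟨_, _, Iso.trans cls_pl (Iso.trans cls_pl ha hp) (Iso.symm hb)⟩,
      ⟨_, _, Iso.trans cls_pl (Iso.trans cls_pl hc hr) (Iso.symm hd)⟩⟩

end Pool.Agent.DT70
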