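import Pool.Agent.DT70.Defs

/-! Module DT70/Basic. Elementary facts about the definitions in `DT70/Defs.lean`.

All proofs are short. Hints:
* `simplex_eq`: ext x, `v ∉ F ↔ v ∉ F.toFinset`.
* `sx_inter`: if x v ≠ 0 then v is in s and in t; the sum over `s ∩ t` equals the sum over `s`
  (`Finset.sum_subset`).
* `isClosed_sx`: an intersection of closed sets (coordinates are continuous, `isClosed_le`,
  `isClosed_eq`, `isClosed_iInter`).
* `isClosed_Rz`: finite union (`Set.Finite.isClosed_biUnion`).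
* `mem_bd`: if x is in `sx F`, v in F, x v = 0 then x is in `sx (F.erase v)`.
* `fs_link`: `(F.filter (fun w => decide (w ≠ v))).toFinset = F.toFinset.erase v`.
-/

namespace Pool.Agent.DT70

theorem simplex_eq (F : List ℕ) : simplex F = sx F.toFinset := by
  ext x
  simp only [simplex, sx, Set.mem_setOf_eq, List.mem_toFinset]

theorem real_eq (K : Code) : real K = Rz (fs K) := by
  ext x
  simp only [real, Rz, fs, Set.mem_setOf_eq, simplex_eq]
  constructor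
  · rintro ⟨F, hF, hx⟩
    exact ⟨F.toFinset, ⟨F, hF, rfl⟩, hx⟩
  · rintro ⟨s, ⟨F, hF, rfl⟩, hx⟩
    exact ⟨F, hF, hx⟩

theorem fs_append (K L : Code) : fs (K ++ L) = fs K ∪ fs L := by
  ext s
  simp only [fs, Set.mem_setOf_eq, Set.mem_union, List.mem_append]
  constructor
  · rintro ⟨F, hF | hF, h⟩
    · exact Or.inl ⟨F, hF, h⟩
    · exact Or.inr ⟨F, hF, h⟩
  · rintro (⟨F, hF, h⟩ | ⟨F, hF, h⟩)
    · exact ⟨F, Or.inl hF, h⟩
    · exact ⟨F, Or.inr hF, h⟩

theorem fs_cons (F : List ℕ) (K : Code) : fs (F :: K) = {F.toFinset} ∪ fs K := by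
  ext s
  simp only [fs, Set.mem_setOf_eq, Set.mem_union, List.mem_cons, Set.mem_singleton_iff]
  constructor
  · rintro ⟨G, rfl | hG, h⟩
    · exact Or.inl h.symm
    · exact Or.inr ⟨G, hG, h⟩
  · rintro (h | ⟨G, hG, h⟩)
    · exact ⟨F, Or.inl rfl, h.symm⟩
    · exact ⟨G, Or.inr hG, h⟩

theorem fs_nil : fs [] = ∅ := by
  ext s
  simp [fs]

theorem fs_map (σ : ℕ → ℕ) (K : Code) :
    fs (K.map (List.map σ)) = {t | ∃ s ∈ fs K, t = s.image σ} := by
  have h : ∀ F : List ℕ, (F.map σ).toFinset = F.toFinset.image σ := by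
    intro F
    ext x
    simp only [List.mem_toFinset, List.mem_map, Finset.mem_image]
  ext t
  simp only [fs, Set.mem_setOf_eq, List.mem_map]
  constructor
  · rintro ⟨G, ⟨F, hF, rfl⟩, rfl⟩
    exact ⟨F.toFinset, ⟨F, hF, rfl⟩, h F⟩
  · rintro ⟨s, ⟨F, hF, rfl⟩, rfl⟩
    exact ⟨F.map σ, ⟨F, hF, rfl⟩, h F⟩

theorem fs_finite (K : Code) : (fs K).Finite := by
  have h : fs K = ↑((K.map List.toFinset).toFinset) := by
    ext s
    simp [fs]
  rw [h]
  exact Finset.finite_toSet _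

theorem fs_link (v : ℕ) (K : Code) : fs (link v K) = lk v (fs K) := by
  have h : ∀ F : List ℕ, (F.filter (fun w => decide (w ≠ v))).toFinset = F.toFinset.erase v := by
    intro F
    ext x
    simp only [List.mem_toFinset, List.mem_filter, Finset.mem_erase, decide_eq_true_eq]
    tauto
  ext t
  simp only [fs, link, lk, Set.mem_setOf_eq, List.mem_map, List.mem_filter, decide_eq_true_eq]
  constructor
  · rintro ⟨G, ⟨F, ⟨hF, hv⟩, rfl⟩, rfl⟩
    exact ⟨F.toFinset, ⟨F, hF, rfl⟩, List.mem_toFinset.2 hv, h F⟩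
  · rintro ⟨s, ⟨F, hF, rfl⟩, hv, rfl⟩
    exact ⟨_, ⟨F, ⟨hF, List.mem_toFinset.1 hv⟩, rfl⟩, h F⟩

theorem Rz_union (X Y : Set (Finset ℕ)) : Rz (X ∪ Y) = Rz X ∪ Rz Y := by
  ext x
  simp only [Rz, Set.mem_setOf_eq, Set.mem_union]
  constructor
  · rintro ⟨s, hs | hs, h⟩
    · exact Or.inl ⟨s, hs, h⟩
    · exact Or.inr ⟨s, hs, h⟩
  · rintro (⟨s, hs, h⟩ | ⟨s, hs, h⟩)
    · exact ⟨s, Or.inl hs, h⟩
    · exact ⟨s, Or.inr hs, h⟩

theorem Rz_mono {X Y : Set (Finset ℕ)} (h : X ⊆ Y) : Rz X ⊆ Rz Y := by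
  rintro x ⟨s, hs, hx⟩
  exact ⟨s, h hs, hx⟩

theorem Rz_singleton (s : Finset ℕ) : Rz {s} = sx s := by
  ext x
  constructor
  · rintro ⟨t, ht, hx⟩
    rw [Set.mem_singleton_iff] at ht
    rwa [ht] at hx
  · intro hx
    exact ⟨s, rfl, hx⟩

theorem sx_mono {s t : Finset ℕ} (h : s ⊆ t) : sx s ⊆ sx t := by
  rintro x ⟨h1, h2, h3⟩
  refine ⟨h1, fun v hv => h2 v (fun hs => hv (h hs)), ?_⟩
  rw [← h3]
  exact (Finset.sum_subset h (fun v _ hv => h2 v hv)).symm

/-- If `x ∈ sx s` vanishes outside `t` then `x ∈ sx t`. -/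
theorem sx_of_zero {s t : Finset ℕ} {x : E} (hs : x ∈ sx s) (ht : ∀ v, v ∉ t → x v = 0) :
    x ∈ sx t := by
  obtain ⟨h1, h2, h3⟩ := hs
  refine ⟨h1, ht, ?_⟩
  rw [← h3]
  rw [Finset.sum_subset (Finset.subset_union_left : s ⊆ s ∪ t) (fun v _ hv => h2 v hv),
    Finset.sum_subset (Finset.subset_union_right : t ⊆ s ∪ t) (fun v _ hv => ht v hv)]

theorem sx_inter {s t : Finset ℕ} {x : E} (hs : x ∈ sx s) (ht : x ∈ sx t) : x ∈ sx (s ∩ t) := by
  refine sx_of_zero hs ?_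
  intro v hv
  rw [Finset.mem_inter, not_and_or] at hv
  rcases hv with hv | hv
  · exact hs.2.1 v hv
  · exact ht.2.1 v hv

theorem mem_bd {F : Finset ℕ} {x : E} {v : ℕ} (hx : x ∈ sx F) (hv : v ∈ F) (h0 : x v = 0) :
    x ∈ Rz (bd F) := by
  refine ⟨F.erase v, ⟨v, hv, rfl⟩, sx_of_zero hx ?_⟩
  intro w hw
  rw [Finset.mem_erase, not_and_or, not_not] at hw
  rcases hw with hw | hw
  · rw [hw, h0]
  · exact hx.2.1 w hw

theorem lk_union (v : ℕ) (X Y : Set (Finset ℕ)) : lk v (X ∪ Y) = lk v X ∪ lk v Y := by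
  ext t
  simp only [lk, Set.mem_setOf_eq, Set.mem_union]
  constructor
  · rintro ⟨s, hs | hs, h⟩
    · exact Or.inl ⟨s, hs, h⟩
    · exact Or.inr ⟨s, hs, h⟩
  · rintro (⟨s, hs, h⟩ | ⟨s, hs, h⟩)
    · exact ⟨s, Or.inl hs, h⟩
    · exact ⟨s, Or.inr hs, h⟩

theorem lk_eq_empty {v : ℕ} {X : Set (Finset ℕ)} (h : ∀ s ∈ X, v ∉ s) : lk v X = ∅ := by
  ext t
  simp only [lk, Set.mem_setOf_eq, Set.mem_empty_iff_false, iff_false]
  rintro ⟨s, hs, hv, -⟩
  exact h s hs hv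

theorem lk_finite {v : ℕ} {X : Set (Finset ℕ)} (h : X.Finite) : (lk v X).Finite := by
  refine (h.image (fun s => s.erase v)).subset ?_
  rintro t ⟨s, hs, -, rfl⟩
  exact ⟨s, hs, rfl⟩

theorem convex_sx (s : Finset ℕ) : Convex ℝ (sx s) := by
  rintro x ⟨hx1, hx2, hx3⟩ y ⟨hy1, hy2, hy3⟩ a b ha hb hab
  refine ⟨?_, ?_, ?_⟩
  · intro v
    have := mul_nonneg ha (hx1 v)
    have := mul_nonneg hb (hy1 v)
    simp only [Pi.add_apply, Pi.smul_apply, smul_eq_mul]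
    linarith
  · intro v hv
    simp only [Pi.add_apply, Pi.smul_apply, smul_eq_mul, hx2 v hv, hy2 v hv, mul_zero, add_zero]
  · simp only [Pi.add_apply, Pi.smul_apply, smul_eq_mul]
    rw [Finset.sum_add_distrib, ← Finset.mul_sum, ← Finset.mul_sum, hx3, hy3, mul_one, mul_one,
      hab]

theorem isClosed_sx (s : Finset ℕ) : IsClosed (sx s) := by
  have h : sx s = (⋂ v : ℕ, {x : E | 0 ≤ x v}) ∩ ((⋂ v : ℕ, ⋂ _ : v ∉ s, {x : E | x v = 0}) ∩
      {x : E | ∑ v ∈ s, x v = 1}) := by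
    ext x
    simp only [sx, Set.mem_setOf_eq, Set.mem_inter_iff, Set.mem_iInter]
  rw [h]
  refine IsClosed.inter (isClosed_iInter fun v => isClosed_le continuous_const
    (continuous_apply v)) (IsClosed.inter (isClosed_iInter fun v => isClosed_iInter fun _ =>
      isClosed_eq (continuous_apply v) continuous_const) (isClosed_eq ?_ continuous_const))
  exact continuous_finset_sum _ (fun v _ => continuous_apply v)

theorem isClosed_Rz {X : Set (Finset ℕ)} (h : X.Finite) : IsClosed (Rz X) := by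
  have h1 : Rz X = ⋃ s ∈ X, sx s := by
    ext x
    simp only [Rz, Set.mem_setOf_eq, Set.mem_iUnion, exists_prop]
  rw [h1]
  exact h.isClosed_biUnion (fun s _ => isClosed_sx s)

theorem sx_nonempty {s : Finset ℕ} (h : s.Nonempty) : (sx s).Nonempty := by
  obtain ⟨v, hv⟩ := h
  refine ⟨fun w => if w = v then 1 else 0, ?_, ?_, ?_⟩
  · intro w
    show (0 : ℝ) ≤ if w = v then 1 else 0
    split_ifs <;> norm_num
  · intro w hw
    show (if w = v then (1 : ℝ) else 0) = 0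
    rw [if_neg]
    rintro rfl
    exact hw hv
  · show ∑ w ∈ s, (if w = v then (1 : ℝ) else 0) = 1
    rw [Finset.sum_ite_eq' s v (fun _ => (1 : ℝ)), if_pos hv]

end Pool.Agent.DT70
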