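import Pool.Agent.DT70.Defs

/-! Module DT70/Comp. Computability of the constructions.

`Primrec.list_map`, `Primrec.list_append`, `Primrec.list_tail`, `Primrec.list_headD`/`list_head?`,
`Primrec.nat_mul`, `Primrec.nat_add`, `Primrec.list_getD`.
For the tube: the list l = a ++ (mid ++ b). Here the length of a and b may be anything on
invalid inputs; if there is no primitive recursive `drop`/`take`/`eraseIdx` in Mathlib, prove them
first: (l.drop j) by iterating tail (`Primrec.nat_iterate`/`nat_rec`), take by
(List.range 6).filterMap (fun i => (l.drop j)[i]?) or via reverse/recursion, eraseIdx similarly,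
or prove that `tube` is computable in any other way (for example tube l = (List.range (l.length - 5))
.flatMap (fun j => [1,2,3,4].map (fun i => [explicit five entries l.getD (j + k) 0]))).
-/

namespace Pool.Agent.DT70


private theorem comp_hd : Primrec hd := by
  refine (Primrec.option_getD.comp (Primrec.list_head?.comp Primrec.id)
    (Primrec.const ([] : List ℕ))).of_eq fun K => ?_
  cases K <;> rfl

private theorem comp_mapTail {f : ℕ → ℕ} (hf : Primrec f) :
    Primrec (fun K : Code => K.map (List.map f)) :=
  Primrec.list_map Primrec.id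
    ((Primrec.list_map (Primrec.snd) (hf.comp Primrec.snd).to₂).to₂)

private theorem comp_eraseIdx : Primrec₂ (fun (l : List ℕ) (i : ℕ) => l.eraseIdx i) := by
  have h : Primrec (fun q : List ℕ × ℕ => q.1.take q.2 ++ q.1.drop (q.2 + 1)) :=
    Primrec.list_append.comp (Primrec.list_take.comp Primrec.snd Primrec.fst)
      (Primrec.list_drop.comp (Primrec.succ.comp Primrec.snd) Primrec.fst)
  exact h.of_eq fun q => (List.eraseIdx_eq_take_drop_succ q.1 q.2).symm

private theorem comp_tube : Primrec tube := by
  have h1 : Primrec₂ (fun (l : List ℕ) (j : ℕ) =>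
      ([1, 2, 3, 4] : List ℕ).map (fun i => ((l.drop j).take 6).eraseIdx i)) := by
    have h2 : Primrec₂ (fun (q : List ℕ × ℕ) (i : ℕ) => ((q.1.drop q.2).take 6).eraseIdx i) := by
      have h3 : Primrec (fun q : (List ℕ × ℕ) × ℕ => (q.1.1.drop q.1.2).take 6) :=
        Primrec.list_take.comp (Primrec.const 6)
          (Primrec.list_drop.comp (Primrec.snd.comp Primrec.fst) (Primrec.fst.comp Primrec.fst))
      exact comp_eraseIdx.comp h3 Primrec.snd
    exact Primrec.list_map (Primrec.const [1, 2, 3, 4]) h2
  have h4 : Primrec (fun l : List ℕ => List.range (l.length - 5)) :=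
    Primrec.list_range.comp (Primrec.nat_sub.comp Primrec.list_length (Primrec.const 5))
  exact Primrec.list_flatMap h4 h1

private theorem comp_mul (k c : ℕ) : Primrec (fun v : ℕ => k * v + c) :=
  Primrec.nat_add.comp (Primrec.nat_mul.comp (Primrec.const k) Primrec.id) (Primrec.const c)

private theorem comp_mul0 (k : ℕ) : Primrec (fun v : ℕ => k * v) :=
  Primrec.nat_mul.comp (Primrec.const k) Primrec.id

private theorem comp_map {f : ℕ → ℕ} (hf : Primrec f) : Primrec (fun l : List ℕ => l.map f) :=
  Primrec.list_map Primrec.id (hf.comp Primrec.snd).to₂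

theorem cs_computable : Computable (fun q : Code × Code => cs q.1 q.2) := by
  refine Primrec.to_comp ?_
  unfold cs
  refine Primrec.list_append.comp
    ((comp_mapTail (comp_mul0 3)).comp (Primrec.list_tail.comp Primrec.fst))
    (Primrec.list_append.comp (comp_tube.comp (Primrec.list_append.comp
      ((comp_map (comp_mul0 3)).comp (comp_hd.comp Primrec.fst))
      (Primrec.list_append.comp (Primrec.const mid)
        ((comp_map (comp_mul 3 1)).comp (comp_hd.comp Primrec.snd)))))
      ((comp_mapTail (comp_mul 3 1)).comp (Primrec.list_tail.comp Primrec.snd)))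

theorem du_computable : Computable (fun q : Code × Code => du q.1 q.2) := by
  refine Primrec.to_comp ?_
  unfold du
  exact Primrec.list_append.comp ((comp_mapTail (comp_mul0 2)).comp Primrec.fst)
    ((comp_mapTail (comp_mul 2 1)).comp Primrec.snd)

end Pool.Agent.DT70
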