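import Pool.Agent.DT70.Tower

/-! Module DT70/Conn. The connected sum is connected.

`closed_conn`: suppose S ⊆ U ∪ V, U, V closed, S ∩ U, S ∩ V nonempty and S ∩ (U ∩ V) empty
(`isPreconnected_closed_iff`). As S ∩ D is preconnected, it misses U or V, say V. Then the closed
sets (S ∩ U) ∪ D and S ∩ V cover S ∪ D and meet it, so they meet: a point of S ∩ V in S ∩ U or in
D, both impossible.

`conn_bd`: for F with at least 3 vertices Rz (bd F) is connected: a union of convex sets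
sx (F.erase x), any two of which intersect.

`conn_mid`: by `tower` with c = p (the last facet is p) Rz ((K₀ ∪ T) ∪ {p}) is the continuous image
(`plOn_cont`) of a connected set. Put S = Rz (K₀ ∪ T), D = sx p, closed. S ∩ D = Rz (bd p): a
point of sx s ∩ sx p, s ∈ K₀ ∪ T, s of 5 elements and s ≠ p (Good.notMem), has a zero coordinate
in p (`mem_bd`); conversely `bd_mid`. So S is preconnected; it contains a vertex of p.

`conn_sum`: Rz (K₀ ∪ (T ∪ L₀)) = Rz (K₀ ∪ T(a ++ p)) ∪ Rz (L₀ ∪ T(p ++ b)) by `tube_split`; both are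
connected (the second one by `conn_mid` for L₀, b.reverse, p.reverse and `tube_reverse'`), and
they share Rz (bd p), which is nonempty.
-/

namespace Pool.Agent.DT70

variable {bb : Bool}

theorem closed_conn {S D : Set E} (hS : IsClosed S) (hD : IsClosed D)
    (h : IsPreconnected (S ∪ D)) (h' : IsPreconnected (S ∩ D)) : IsPreconnected S := by
  rw [isPreconnected_closed_iff] at h h' ⊢
  have key : ∀ U V : Set E, IsClosed U → IsClosed V → S ⊆ U ∪ V → (S ∩ U).Nonempty →
      (S ∩ V).Nonempty → ¬ (S ∩ (U ∩ V)).Nonempty → ¬ (S ∩ D ∩ V).Nonempty → False := by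
    intro U V hU hV hSUV hSU hSV hne hDV
    have h1 := h ((S ∩ U) ∪ D) (S ∩ V) ((hS.inter hU).union hD) (hS.inter hV) ?_ ?_ ?_
    · obtain ⟨x, hx, hx1, hx2⟩ := h1
      rcases hx1 with hx1 | hx1
      · exact hne ⟨x, hx2.1, hx1.2, hx2.2⟩
      · exact hDV ⟨x, ⟨hx2.1, hx1⟩, hx2.2⟩
    · rintro x (hx | hx)
      · rcases hSUV hx with hu | hv
        · exact Or.inl (Or.inl ⟨hx, hu⟩)
        · exact Or.inr ⟨hx, hv⟩
      · exact Or.inl (Or.inr hx)
    · obtain ⟨x, hx, hxU⟩ := hSU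
      exact ⟨x, Or.inl hx, Or.inl ⟨hx, hxU⟩⟩
    · obtain ⟨x, hx, hxV⟩ := hSV
      exact ⟨x, Or.inl hx, ⟨hx, hxV⟩⟩
  intro U V hU hV hSUV hSU hSV
  by_contra hne
  by_cases hDU : (S ∩ D ∩ U).Nonempty
  · by_cases hDV : (S ∩ D ∩ V).Nonempty
    · obtain ⟨x, hx, hx'⟩ := h' U V hU hV (fun x hx => hSUV hx.1) hDU hDV
      exact hne ⟨x, hx.1, hx'⟩
    · exact key U V hU hV hSUV hSU hSV hne hDV
  · refine key V U hV hU (fun x hx => (hSUV hx).symm) hSV hSU ?_ hDU
    rintro ⟨x, hx, hx1, hx2⟩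
    exact hne ⟨x, hx, hx2, hx1⟩

theorem conn_bd {F : Finset ℕ} (hF : 3 ≤ F.card) : IsConnected (Rz (bd F)) := by
  have h1 : Rz (bd F) = ⋃ v ∈ (F : Set ℕ), sx (F.erase v) := by
    ext x
    simp only [Rz, bd, Set.mem_ofPred_eq, Set.mem_iUnion, exists_prop, Finset.mem_coe]
    constructor
    · rintro ⟨s, ⟨v, hv, rfl⟩, hx⟩
      exact ⟨v, hv, hx⟩
    · rintro ⟨v, hv, hx⟩
      exact ⟨_, ⟨v, hv, rfl⟩, hx⟩
  have h2 : ∀ i ∈ F, ∀ j ∈ F, (sx (F.erase i) ∩ sx (F.erase j)).Nonempty := by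
    intro i hi j hj
    have h3 : ((F.erase i).erase j).Nonempty := by
      rw [← Finset.card_pos]
      have h4 := Finset.pred_card_le_card_erase (s := F.erase i) (a := j)
      rw [Finset.card_erase_of_mem hi] at h4
      omega
    obtain ⟨x, hx⟩ := sx_nonempty h3
    refine ⟨x, sx_mono (Finset.erase_subset _ _) hx, sx_mono ?_ hx⟩
    rw [Finset.erase_right_comm]
    exact Finset.erase_subset _ _
  constructor
  · have h3 : F.Nonempty := by
      rw [← Finset.card_pos]
      omega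
    obtain ⟨v, hv⟩ := h3
    obtain ⟨x, hx, -⟩ := h2 v hv v hv
    rw [h1]
    exact ⟨x, Set.mem_biUnion (Finset.mem_coe.2 hv) hx⟩
  · rw [h1]
    refine IsPreconnected.biUnion_of_reflTransGen (fun i _ => (convex_sx _).isPreconnected) ?_
    intro i hi j hj
    exact Relation.ReflTransGen.single ⟨h2 i hi j hj, hi⟩

theorem conn_mid {K₀ : Set (Finset ℕ)} {a p : List ℕ} (hf : K₀.Finite) (h : Good bb K₀ a)
    (hp : p.length = 5) (hn : (a ++ p).Nodup) (hfresh : ∀ v ∈ p, ∀ s ∈ K₀, v ∉ s)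
    (hc : IsConnected (Rz (K₀ ∪ {a.toFinset}))) :
    IsConnected (Rz (K₀ ∪ fs (tube (a ++ p)))) := by
  obtain ⟨hG, f, g, hfg⟩ := tower h p hn hfresh
  have hdrop : (a ++ p).drop p.length = p := by
    rw [hp, ← h.len, List.drop_left]
  rw [hdrop] at hG hfg
  have hpc : p.toFinset.card = 5 := by
    rw [List.toFinset_card_of_nodup hG.nodup, hp]
  have hfin : (K₀ ∪ fs (tube (a ++ p))).Finite := hf.union (fs_finite _)
  -- the union with the last facet is connected
  have h1 : IsConnected (Rz ((K₀ ∪ fs (tube (a ++ p))) ∪ {p.toFinset})) := by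
    have h2 : Rz ((K₀ ∪ fs (tube (a ++ p))) ∪ {p.toFinset}) = g '' Rz (K₀ ∪ {a.toFinset}) := by
      ext x
      constructor
      · intro hx
        exact ⟨f x, (hfg.1 x hx).1, (hfg.1 x hx).2⟩
      · rintro ⟨y, hy, rfl⟩
        exact (hfg.2.1 y hy).1
    rw [h2]
    exact hc.image g (plOn_cont hfg.2.2.2)
  have h3 : Rz (K₀ ∪ fs (tube (a ++ p))) ∩ sx p.toFinset = Rz (bd p.toFinset) := by
    ext x
    constructor
    · rintro ⟨⟨s, hs, hxs⟩, hxp⟩
      have hcard := hG.card s hs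
      have hne : s ≠ p.toFinset := by
        rintro rfl
        exact hG.notMem hs
      have hnot : ¬ p.toFinset ⊆ s := by
        intro hsub
        exact hne (Finset.eq_of_subset_of_card_le hsub (by rw [hcard, hpc])).symm
      rw [Finset.not_subset] at hnot
      obtain ⟨v, hvp, hvs⟩ := hnot
      exact mem_bd hxp hvp (hxs.2.1 v hvs)
    · rintro ⟨s, hs, hxs⟩
      obtain ⟨t, ht, hst⟩ := bd_mid h.len hp hn s hs
      refine ⟨⟨t, Or.inr ht, sx_mono hst hxs⟩, ?_⟩
      obtain ⟨v, hv, rfl⟩ := hs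
      exact sx_mono (Finset.erase_subset _ _) hxs
  have h4 : IsConnected (Rz (bd p.toFinset)) := conn_bd (by rw [hpc]; norm_num)
  constructor
  · obtain ⟨x, hx⟩ := h4.nonempty
    rw [← h3] at hx
    exact ⟨x, hx.1⟩
  · refine closed_conn (isClosed_Rz hfin) (isClosed_sx p.toFinset) ?_ ?_
    · have h5 := h1.isPreconnected
      rwa [Rz_union, Rz_singleton] at h5
    · rw [h3]
      exact h4.isPreconnected

theorem conn_sum {K₀ L₀ : Set (Finset ℕ)} {a p b : List ℕ} (hKf : K₀.Finite) (hLf : L₀.Finite)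
    (hK : Good bb K₀ a) (hL : Good bb L₀ b) (hp : p.length = 5) (hn : (a ++ (p ++ b)).Nodup)
    (h1 : ∀ s ∈ K₀, ∀ v ∈ s, v ∉ p) (h2 : ∀ s ∈ L₀, ∀ v ∈ s, v ∉ p)
    (hcK : IsConnected (Rz (K₀ ∪ {a.toFinset}))) (hcL : IsConnected (Rz (L₀ ∪ {b.toFinset}))) :
    IsConnected (Rz (K₀ ∪ (fs (tube (a ++ (p ++ b))) ∪ L₀))) := by
  have hnap : (a ++ p).Nodup := by
    rw [← List.append_assoc] at hn
    exact hn.of_append_left
  have hnpb : (p ++ b).Nodup := hn.of_append_right
  have hrev : (p ++ b).reverse = b.reverse ++ p.reverse := List.reverse_append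
  have hnbp : (b.reverse ++ p.reverse).Nodup := by
    rw [← hrev]
    exact List.nodup_reverse.2 hnpb
  have hlen : (p ++ b).length = 10 := by
    rw [List.length_append, hp, hL.len]
  have htube : fs (tube (b.reverse ++ p.reverse)) = fs (tube (p ++ b)) := by
    rw [← hrev]
    exact tube_reverse' hlen
  have hA : IsConnected (Rz (K₀ ∪ fs (tube (a ++ p)))) :=
    conn_mid hKf hK hp hnap (fun v hv s hs hvs => h1 s hs v hvs hv) hcK
  have hB : IsConnected (Rz (L₀ ∪ fs (tube (p ++ b)))) := by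
    rw [← htube]
    refine conn_mid hLf hL.reverse (by rw [List.length_reverse, hp]) hnbp ?_ ?_
    · intro v hv s hs hvs
      exact h2 s hs v hvs (List.mem_reverse.1 hv)
    · rw [List.toFinset_reverse]
      exact hcL
  have hbd : (Rz (bd p.toFinset)).Nonempty := by
    have hpn : p.Nodup := hnpb.of_append_left
    exact (conn_bd (by rw [List.toFinset_card_of_nodup hpn, hp]; norm_num)).nonempty
  have hne : (Rz (K₀ ∪ fs (tube (a ++ p))) ∩ Rz (L₀ ∪ fs (tube (p ++ b)))).Nonempty := by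
    obtain ⟨x, s, hs, hx⟩ := hbd
    obtain ⟨t, ht, hst⟩ := bd_mid hK.len hp hnap s hs
    have hs' : s ∈ bd p.reverse.toFinset := by
      rw [List.toFinset_reverse]
      exact hs
    obtain ⟨t', ht', hst'⟩ := bd_mid (a := b.reverse) (p := p.reverse)
      (by rw [List.length_reverse, hL.len]) (by rw [List.length_reverse, hp]) hnbp s hs'
    rw [htube] at ht'
    exact ⟨x, ⟨t, Or.inr ht, sx_mono hst hx⟩, ⟨t', Or.inr ht', sx_mono hst' hx⟩⟩
  have heq : Rz (K₀ ∪ (fs (tube (a ++ (p ++ b))) ∪ L₀)) =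
      Rz (K₀ ∪ fs (tube (a ++ p))) ∪ Rz (L₀ ∪ fs (tube (p ++ b))) := by
    rw [← Rz_union, tube_split hK.len hp hL.len]
    congr 1
    ext s
    simp only [Set.mem_union]
    tauto
  rw [heq]
  exact IsConnected.union hne hA hB

end Pool.Agent.DT70
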