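import Pool.Agent.DT70.Prob

/-!
# Auxiliary definitions (not used in the final statement)
-/

namespace Pool.Agent.DT70

/-- Closed simplex on a finite set. -/
def sx (s : Finset ℕ) : Set E :=
  {x | (∀ v, 0 ≤ x v) ∧ (∀ v, v ∉ s → x v = 0) ∧ ∑ v ∈ s, x v = 1}

/-- Realization of a set of finite sets. -/
def Rz (X : Set (Finset ℕ)) : Set E := {x | ∃ s ∈ X, x ∈ sx s}

/-- Link. -/
def lk (v : ℕ) (X : Set (Finset ℕ)) : Set (Finset ℕ) := {t | ∃ s ∈ X, v ∈ s ∧ t = s.erase v}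

/-- Starring the facet `F` with the new vertex `c`. -/
def st (X : Set (Finset ℕ)) (F : Finset ℕ) (c : ℕ) : Set (Finset ℕ) :=
  {s | (s ∈ X ∧ s ≠ F) ∨ ∃ x ∈ F, s = insert c (F.erase x)}

/-- All facets of the boundary of the simplex `F`. -/
def bd (F : Finset ℕ) : Set (Finset ℕ) := {t | ∃ x ∈ F, t = F.erase x}

/-- PL homeomorphic realizations. -/
def PLh (X Y : Set (Finset ℕ)) : Prop := ∃ f g : E → E, Iso PLOn (Rz X) (Rz Y) f g

/-- PL 3-sphere. -/
def Sph (X : Set (Finset ℕ)) : Prop := PLh X (fs sphere3)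

/-- PL 3-sphere or (if `b = true`) PL 3-ball. -/
def LkOK (b : Bool) (X : Set (Finset ℕ)) : Prop := Sph X ∨ (b = true ∧ PLh X (fs ball3))

/-- All vertex links are PL 3-spheres (or PL 3-balls if `b = true`). -/
def Lks (b : Bool) (X : Set (Finset ℕ)) : Prop := ∀ v, (∃ s ∈ X, v ∈ s) → LkOK b (lk v X)

/-- Properties of a class of maps. -/
structure Cls (C : Set E → (E → E) → Prop) : Prop where
  mono : ∀ {S T : Set E} {f : E → E}, C S f → T ⊆ S → C T f
  congr : ∀ {S : Set E} {f g : E → E}, C S f → (∀ x ∈ S, g x = f x) → C S g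
  comp : ∀ {S T : Set E} {f g : E → E}, C S f → C T g → (∀ x ∈ S, f x ∈ T) →
    C S (fun x => g (f x))
  pl : ∀ {S : Set E} {f : E → E}, PLOn S f → C S f
  union : ∀ {X Y : Set (Finset ℕ)} {f : E → E}, X.Finite → Y.Finite → C (Rz X) f → C (Rz Y) f →
    C (Rz (X ∪ Y)) f

end Pool.Agent.DT70
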