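import Pool.Agent.DT70.PathInd

/-! Module DT70/Hol. Holonomy of a cocycle on a complex.

`Coc X c`: c u v * c v w = c u w for u, v, w in a common face. Consequences: c u u = 1,
c v u = (c u v)⁻¹ for u, v in a common face.

`exists_hol`. Give Γ the discrete topology. Let `Z` be the `FiberBundleCore` over B = Rz X with
index set ℕ, fibre Γ, baseSet v = {x | 0 < x v} (open), indexAt x = some v with 0 < x v
(`exists_pos`), coordChange u v x g = g * c u v. If x is in baseSet u ∩ baseSet v ∩ baseSet w and
x ∈ sx s, s ∈ X, then u, v, w ∈ s (`pos_mem`), which gives coordChange_self and coordChange_comp.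
The total space is a covering space of Rz X: `FiberBundle.isCoveringMap` (discrete fibre).
For x ∈ baseSet v let P v x g be the point of the fibre over x with coordinate g in the chart v,
i.e. ⟨x, g * c v (indexAt x)⟩. Facts:
(a) P u x g = P v x (g * c u v) if x ∈ baseSet u ∩ baseSet v; every point over x ∈ baseSet v is
    P v x g for exactly one g.
(b) if γ is a path from x to y inside baseSet v then t ↦ P v (γ t) g is a continuous lift (the
    local trivialization `Z.localTriv v` is a homeomorphism), so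
    monodromy (mk γ) (P v x g) = P v y g (`IsCoveringMap.monodromy_eq_of_map_eq`).
(c) by `path_induction`: for every p from x to y, every u with 0 < x u and w with 0 < y w
    there is h ∈ Γ with monodromy p (P u x g) = P w y (g * h) for all g: for a path inside
    baseSet v, h = c u v * c v w by (a), (b); for a composition multiply
    (`IsCoveringMap.monodromy_trans_apply`), choosing v with 0 < y v at the middle point.
Let hol x y u w p be this h (unique; 1 if there is none). The three properties follow from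
`monodromy_trans_apply`, (b) and `IsCoveringMap.monodromy_refl` with (a).
-/

namespace Pool.Agent.DT70

/-- A cocycle with values in a group. -/
def Coc (X : Set (Finset ℕ)) {Γ : Type} [Group Γ] (c : ℕ → ℕ → Γ) : Prop :=
  ∀ s ∈ X, ∀ u ∈ s, ∀ v ∈ s, ∀ w ∈ s, c u v * c v w = c u w

theorem Coc.self {X : Set (Finset ℕ)} {Γ : Type} [Group Γ] {c : ℕ → ℕ → Γ} (h : Coc X c)
    {s : Finset ℕ} (hs : s ∈ X) {u : ℕ} (hu : u ∈ s) : c u u = 1 :=
  mul_eq_left.1 (h s hs u hu u hu u hu)

theorem Coc.symm {X : Set (Finset ℕ)} {Γ : Type} [Group Γ] {c : ℕ → ℕ → Γ} (h : Coc X c)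
    {s : Finset ℕ} (hs : s ∈ X) {u v : ℕ} (hu : u ∈ s) (hv : v ∈ s) : c v u = (c u v)⁻¹ := by
  rw [eq_inv_iff_mul_eq_one, h s hs v hv u hu v hv, h.self hs hv]

/-- The bundle. -/
private noncomputable def holCore {B : Type} [TopologicalSpace B] (U : ℕ → Set B)
    (hU : ∀ v, IsOpen (U v)) (hcov : ∀ x, ∃ v, x ∈ U v) {Γ : Type} [Group Γ]
    [TopologicalSpace Γ] [DiscreteTopology Γ] (c : ℕ → ℕ → Γ)
    (hc : ∀ (x : B) (u v w : ℕ), x ∈ U u → x ∈ U v → x ∈ U w → c u v * c v w = c u w) :
    FiberBundleCore ℕ B Γ where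
  baseSet := U
  isOpen_baseSet := hU
  indexAt x := (hcov x).choose
  mem_baseSet_at x := (hcov x).choose_spec
  coordChange u v _ g := g * c u v
  coordChange_self u x hx g := by
    rw [mul_eq_left.1 (hc x u u u hx hx hx), mul_one]
  continuousOn_coordChange i j := by
    apply Continuous.continuousOn
    exact (continuous_of_discreteTopology (f := fun g : Γ => g * c i j)).comp continuous_snd
  coordChange_comp i j k x hx g := by
    rw [mul_assoc, hc x i j k hx.1.1 hx.1.2 hx.2]

private theorem exists_hol_gen {B : Type} [TopologicalSpace B] (U : ℕ → Set B)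
    (hU : ∀ v, IsOpen (U v)) (hcov : ∀ x, ∃ v, x ∈ U v) {Γ : Type} [Group Γ] (c : ℕ → ℕ → Γ)
    (hc : ∀ (x : B) (u v w : ℕ), x ∈ U u → x ∈ U v → x ∈ U w → c u v * c v w = c u w)
    (hind : ∀ (Q : ∀ x y : B, Path.Homotopic.Quotient x y → Prop)
      (_ : ∀ (x y z : B) (p : Path.Homotopic.Quotient x y)
        (q : Path.Homotopic.Quotient y z), Q x y p → Q y z q → Q x z (p.trans q))
      (_ : ∀ (v : ℕ) (x y : B) (γ : Path x y), (∀ t, γ t ∈ U v) →
        Q x y (Path.Homotopic.Quotient.mk γ)),
      ∀ (x y : B) (p : Path.Homotopic.Quotient x y), Q x y p) :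
    ∃ hol : (x y : B) → ℕ → ℕ → Path.Homotopic.Quotient x y → Γ,
      (∀ (x y z : B) (u v w : ℕ) (p : Path.Homotopic.Quotient x y)
        (q : Path.Homotopic.Quotient y z), x ∈ U u → y ∈ U v → z ∈ U w →
        hol x z u w (p.trans q) = hol x y u v p * hol y z v w q) ∧
      (∀ (x y : B) (v : ℕ) (γ : Path x y), (∀ t, γ t ∈ U v) →
        hol x y v v (Path.Homotopic.Quotient.mk γ) = 1) ∧
      (∀ (x : B) (u w : ℕ), x ∈ U u → x ∈ U w →
        hol x x u w (Path.Homotopic.Quotient.refl x) = c u w) := by
  classical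
  letI : TopologicalSpace Γ := ⊥
  haveI : DiscreteTopology Γ := ⟨rfl⟩
  set Z : FiberBundleCore ℕ B Γ := holCore U hU hcov c hc with hZ
  have cov : IsCoveringMap (Bundle.TotalSpace.proj : Z.TotalSpace → B) :=
    FiberBundle.isCoveringMap
  let P : (v : ℕ) → (x : B) → Γ → (Bundle.TotalSpace.proj : Z.TotalSpace → B) ⁻¹' {x} :=
    fun v x g => ⟨⟨x, g * c v (Z.indexAt x)⟩, rfl⟩
  have hidx : ∀ x, x ∈ U (Z.indexAt x) := fun x => (hcov x).choose_spec
  have hPinj : ∀ v x g g', P v x g = P v x g' → g = g' := by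
    intro v x g g' h
    have h1 : (P v x g).1 = (P v x g').1 := congrArg Subtype.val h
    have h2 : g * c v (Z.indexAt x) = g' * c v (Z.indexAt x) := by
      have h3 : (⟨x, g * c v (Z.indexAt x)⟩ : Z.TotalSpace) =
        ⟨x, g' * c v (Z.indexAt x)⟩ := h1
      have h4 := congrArg (fun q : Z.TotalSpace => (q.2 : Γ)) h3
      exact h4
    exact mul_right_cancel h2
  have hPch : ∀ u v x g, x ∈ U u → x ∈ U v → P u x g = P v x (g * c u v) := by
    intro u v x g hu hv
    have h1 : g * c u (Z.indexAt x) = g * c u v * c v (Z.indexAt x) := by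
      rw [mul_assoc, hc x u v _ hu hv (hidx x)]
    apply Subtype.ext
    change (⟨x, g * c u (Z.indexAt x)⟩ : Z.TotalSpace) = ⟨x, g * c u v * c v (Z.indexAt x)⟩
    rw [h1]
  have hlift : ∀ (v : ℕ) (x y : B) (γ : Path x y), (∀ t, γ t ∈ U v) → ∀ g,
      cov.monodromy (Path.Homotopic.Quotient.mk γ) (P v x g) = P v y g := by
    intro v x y γ hγ g
    have hcont : Continuous fun t => (⟨γ t, g * c v (Z.indexAt (γ t))⟩ : Z.TotalSpace) := by
      have h1 : Continuous fun t => (Z.localTriv v).toOpenPartialHomeomorph.symm (γ t, g) := by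
        refine (Z.localTriv v).toOpenPartialHomeomorph.symm.continuousOn.comp_continuous
          (γ.continuous.prodMk continuous_const) ?_
        intro t
        exact (Z.mem_localTriv_target v (γ t, g)).2 (hγ t)
      exact h1
    let G : Path (P v x g).1 (P v y g).1 :=
      { toFun := fun t => ⟨γ t, g * c v (Z.indexAt (γ t))⟩
        continuous_toFun := hcont
        source' := by rw [γ.source]
        target' := by rw [γ.target] }
    refine cov.monodromy_eq_of_map_eq (Γ := Path.Homotopic.Quotient.mk G) ?_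
    rw [← Path.Homotopic.Quotient.mk_map, ← Path.Homotopic.Quotient.mk_cast]
    congr 1
  have hex : ∀ (x y : B) (p : Path.Homotopic.Quotient x y) (u w : ℕ), x ∈ U u → y ∈ U w →
      ∃ h : Γ, ∀ g, cov.monodromy p (P u x g) = P w y (g * h) := by
    refine hind (fun x y p => ∀ (u w : ℕ), x ∈ U u → y ∈ U w →
      ∃ h : Γ, ∀ g, cov.monodromy p (P u x g) = P w y (g * h)) ?_ ?_
    · intro x y z p q hp hq u w hu hw
      obtain ⟨v, hv⟩ := hcov y
      obtain ⟨h1, hh1⟩ := hp u v hu hv
      obtain ⟨h2, hh2⟩ := hq v w hv hw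
      refine ⟨h1 * h2, fun g => ?_⟩
      rw [cov.monodromy_trans_apply, hh1, hh2, mul_assoc]
    · intro v x y γ hγ u w hu hw
      refine ⟨c u v * c v w, fun g => ?_⟩
      have hx : x ∈ U v := by
        have := hγ 0
        rwa [γ.source] at this
      have hy : y ∈ U v := by
        have := hγ 1
        rwa [γ.target] at this
      rw [hPch u v x g hu hx, hlift v x y γ hγ, hPch v w y _ hy hw, mul_assoc]
  let hol : (x y : B) → ℕ → ℕ → Path.Homotopic.Quotient x y → Γ := fun x y u w p =>
    if h : ∃ h : Γ, ∀ g, cov.monodromy p (P u x g) = P w y (g * h) then h.choose else 1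
  have hhol : ∀ (x y : B) (p : Path.Homotopic.Quotient x y) (u w : ℕ), x ∈ U u → y ∈ U w →
      ∀ g, cov.monodromy p (P u x g) = P w y (g * hol x y u w p) := by
    intro x y p u w hu hw
    have h := hex x y p u w hu hw
    simp only [hol]
    rw [dif_pos h]
    exact h.choose_spec
  refine ⟨hol, ?_, ?_, ?_⟩
  · intro x y z u v w p q hu hv hw
    have h1 := hhol x z (p.trans q) u w hu hw 1
    rw [cov.monodromy_trans_apply, hhol x y p u v hu hv 1, hhol y z q v w hv hw] at h1
    have h2 := hPinj _ _ _ _ h1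
    rw [one_mul, one_mul] at h2
    exact h2.symm
  · intro x y v γ hγ
    have hx : x ∈ U v := by
      have := hγ 0
      rwa [γ.source] at this
    have hy : y ∈ U v := by
      have := hγ 1
      rwa [γ.target] at this
    have h1 := hhol x y (Path.Homotopic.Quotient.mk γ) v v hx hy 1
    rw [hlift v x y γ hγ] at h1
    have h2 := hPinj _ _ _ _ h1
    rw [one_mul] at h2
    exact h2.symm
  · intro x u w hu hw
    have h1 := hhol x x (Path.Homotopic.Quotient.refl x) u w hu hw 1
    rw [cov.monodromy_refl, id, hPch u w x 1 hu hw] at h1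
    have h2 := hPinj _ _ _ _ h1
    rw [one_mul, one_mul] at h2
    exact h2.symm

theorem exists_hol (X : Set (Finset ℕ)) {Γ : Type} [Group Γ] (c : ℕ → ℕ → Γ) (hc : Coc X c) :
    ∃ hol : (x y : Rz X) → ℕ → ℕ → Path.Homotopic.Quotient x y → Γ,
      (∀ (x y z : Rz X) (u v w : ℕ) (p : Path.Homotopic.Quotient x y)
        (q : Path.Homotopic.Quotient y z), 0 < (x : E) u → 0 < (y : E) v → 0 < (z : E) w →
        hol x z u w (p.trans q) = hol x y u v p * hol y z v w q) ∧
      (∀ (x y : Rz X) (v : ℕ) (γ : Path x y), (∀ t, 0 < ((γ t : Rz X) : E) v) →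
        hol x y v v (Path.Homotopic.Quotient.mk γ) = 1) ∧
      (∀ (x : Rz X) (u w : ℕ), 0 < (x : E) u → 0 < (x : E) w →
        hol x x u w (Path.Homotopic.Quotient.refl x) = c u w) := by
  refine exists_hol_gen (B := Rz X) (fun v => {x | 0 < (x : E) v}) ?_ ?_ c ?_ ?_
  · intro v
    exact isOpen_lt continuous_const ((continuous_apply v).comp continuous_subtype_val)
  · intro x
    exact exists_pos x
  · intro x u v w hu hv hw
    obtain ⟨s, hs, hx⟩ := x.2
    exact hc s hs u (pos_mem (X := X) hx hu) v (pos_mem (X := X) hx hv) w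
      (pos_mem (X := X) hx hw)
  · intro Q h1 h2
    exact path_induction X Q h1 h2

end Pool.Agent.DT70
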