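import Pool.Agent.DT70.Basic

/-! Module DT70/Maps. The two classes of maps (piecewise linear, continuous).

Proofs.
* `plOn_of_coord` (every coordinate of f is a continuous linear functional): one piece, no
  inequality, affine map `(ContinuousLinearMap.pi c).toContinuousAffineMap` (choose the c w).
* `plOn_comp`: if l1 works for f on S and l2 for g on T, take all
  `(q1.1 ++ q2.1.map (fun φ => φ.comp q1.2), q2.2.comp q1.2)` with q1 in l1, q2 in l2.
* `plOn_cont`: let x be in S. For q in l, f is continuous at x within S ∩ P_q, where P_q is the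
  closed set of all y with 0 ≤ φ y for φ in q.1: if x is in P_q then f agrees with the continuous
  q.2 on S ∩ P_q; if not, x has a neighbourhood disjoint from P_q. Finite unions
  (`ContinuousWithinAt.union`, induction over sublists of l), and S is covered.
* `plOn_union`: let V be the finite union of all members of X and Y. For s in X ∪ Y let
  ineq_s be the list of all functionals x ↦ - x v, v in V \ s. A point x of Rz (X ∪ Y) satisfies
  ineq_s iff it vanishes outside s, iff x in sx s (`sx_of_zero`). Pieces: for s in X and q in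
  the list lX of f on Rz X: (q.1 ++ ineq_s, q.2); similarly for Y.
* `cls_cont`, union: `isClosed_Rz` and continuity on a union of two closed sets.
-/

namespace Pool.Agent.DT70

theorem plOn_mono {S T : Set E} {f : E → E} (h : PLOn S f) (hT : T ⊆ S) : PLOn T f := by
  obtain ⟨l, hl⟩ := h
  exact ⟨l, fun x hx => hl x (hT hx)⟩

theorem plOn_congr {S : Set E} {f g : E → E} (h : PLOn S f) (hg : ∀ x ∈ S, g x = f x) :
    PLOn S g := by
  obtain ⟨l, hl⟩ := h
  exact ⟨l, fun x hx => ⟨(hl x hx).1, fun q hq h' => (hg x hx).trans ((hl x hx).2 q hq h')⟩⟩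

theorem plOn_of_coord (S : Set E) {f : E → E} (h : ∀ w : ℕ, ∃ c : E →L[ℝ] ℝ, ∀ x, f x w = c x) :
    PLOn S f := by
  choose c hc using h
  refine ⟨[([], (ContinuousLinearMap.pi c).toContinuousAffineMap)], fun x _ => ⟨?_, ?_⟩⟩
  · exact ⟨_, List.mem_singleton.mpr rfl, by simp⟩
  · intro q hq _
    rw [List.mem_singleton.mp hq]
    funext w
    simpa using hc w x

theorem plOn_comp {S T : Set E} {f g : E → E} (hf : PLOn S f) (hg : PLOn T g)
    (h : ∀ x ∈ S, f x ∈ T) : PLOn S (fun x => g (f x)) := by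
  obtain ⟨l1, h1⟩ := hf
  obtain ⟨l2, h2⟩ := hg
  refine ⟨l1.flatMap (fun q1 => l2.map (fun q2 =>
    (q1.1 ++ q2.1.map (fun φ => φ.comp q1.2), q2.2.comp q1.2))), fun x hx => ⟨?_, ?_⟩⟩
  · obtain ⟨q1, hq1, hc1⟩ := (h1 x hx).1
    have hfx := (h1 x hx).2 q1 hq1 hc1
    obtain ⟨q2, hq2, hc2⟩ := (h2 (f x) (h x hx)).1
    refine ⟨_, List.mem_flatMap.mpr ⟨q1, hq1, List.mem_map.mpr ⟨q2, hq2, rfl⟩⟩, ?_⟩
    intro φ hφ
    rcases List.mem_append.mp hφ with hφ | hφ
    · exact hc1 φ hφ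
    · obtain ⟨ψ, hψ, rfl⟩ := List.mem_map.mp hφ
      rw [ContinuousAffineMap.comp_apply, ← hfx]
      exact hc2 ψ hψ
  · intro q hq hc
    obtain ⟨q1, hq1, hq'⟩ := List.mem_flatMap.mp hq
    obtain ⟨q2, hq2, rfl⟩ := List.mem_map.mp hq'
    have hfx := (h1 x hx).2 q1 hq1 (fun φ hφ => hc φ (List.mem_append.mpr (Or.inl hφ)))
    have hgx := (h2 (f x) (h x hx)).2 q2 hq2 (fun ψ hψ => by
      have := hc (ψ.comp q1.2) (List.mem_append.mpr (Or.inr (List.mem_map.mpr ⟨ψ, hψ, rfl⟩)))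
      rwa [ContinuousAffineMap.comp_apply, ← hfx] at this)
    change g (f x) = (q2.2.comp q1.2) x
    rw [hgx, ContinuousAffineMap.comp_apply, ← hfx]

theorem isClosed_piece (l : List (E →ᴬ[ℝ] ℝ)) : IsClosed {y : E | ∀ φ ∈ l, 0 ≤ φ y} := by
  have : {y : E | ∀ φ ∈ l, 0 ≤ φ y} = ⋂ φ ∈ l, {y : E | 0 ≤ φ y} := by
    ext y; simp
  rw [this]
  exact isClosed_biInter (fun φ _ => isClosed_le continuous_const φ.continuous)

theorem plOn_cont {S : Set E} {f : E → E} (h : PLOn S f) : ContinuousOn f S := by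
  obtain ⟨l, hl⟩ := h
  intro x hx
  have key : ∀ l' : List (List (E →ᴬ[ℝ] ℝ) × (E →ᴬ[ℝ] E)), (∀ q ∈ l', q ∈ l) →
      ContinuousWithinAt f (S ∩ {y | ∃ q ∈ l', ∀ φ ∈ q.1, 0 ≤ φ y}) x := by
    intro l'
    induction l' with
    | nil =>
      intro _
      have : (S ∩ {y : E | ∃ q ∈ ([] : List (List (E →ᴬ[ℝ] ℝ) × (E →ᴬ[ℝ] E))),
          ∀ φ ∈ q.1, 0 ≤ φ y}) = ∅ := by
        ext y; simp
      rw [this]
      unfold ContinuousWithinAt
      rw [nhdsWithin_empty]
      exact Filter.tendsto_bot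
    | cons q l' ih =>
      intro hsub
      have : (S ∩ {y : E | ∃ q' ∈ q :: l', ∀ φ ∈ q'.1, 0 ≤ φ y}) =
          (S ∩ {y : E | ∀ φ ∈ q.1, 0 ≤ φ y}) ∪
            (S ∩ {y : E | ∃ q' ∈ l', ∀ φ ∈ q'.1, 0 ≤ φ y}) := by
        ext y
        simp only [List.mem_cons, exists_eq_or_imp, Set.mem_inter_iff, Set.mem_ofPred_eq,
          Set.mem_union]
        tauto
      rw [this]
      refine ContinuousWithinAt.union ?_ (ih (fun q' hq' => hsub q' (List.mem_cons_of_mem _ hq')))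
      have hq : q ∈ l := hsub q List.mem_cons_self
      by_cases hxq : ∀ φ ∈ q.1, 0 ≤ φ x
      · refine ContinuousWithinAt.congr (q.2.continuous.continuousWithinAt) ?_ ?_
        · intro y hy
          exact (hl y hy.1).2 q hq hy.2
        · exact (hl x hx).2 q hq hxq
      · refine continuousWithinAt_of_notMem_closure ?_
        intro hcl
        exact hxq ((closure_minimal (Set.inter_subset_right (s := S)) (isClosed_piece q.1)) hcl)
  have h1 := key l (fun q hq => hq)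
  refine h1.mono ?_
  intro y hy
  exact ⟨hy, (hl y hy).1⟩

theorem plOn_union {X Y : Set (Finset ℕ)} {f : E → E} (hX : X.Finite) (hY : Y.Finite)
    (h1 : PLOn (Rz X) f) (h2 : PLOn (Rz Y) f) : PLOn (Rz (X ∪ Y)) f := by
  obtain ⟨lX, hlX⟩ := h1
  obtain ⟨lY, hlY⟩ := h2
  classical
  let V : Finset ℕ := (hX.union hY).toFinset.biUnion id
  have hV : ∀ s ∈ X ∪ Y, s ⊆ V := by
    intro s hs v hv
    exact Finset.mem_biUnion.mpr ⟨s, (hX.union hY).mem_toFinset.mpr hs, hv⟩
  let φ : ℕ → (E →ᴬ[ℝ] ℝ) := fun v =>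
    (-(ContinuousLinearMap.proj (R := ℝ) (φ := fun _ : ℕ => ℝ) v)).toContinuousAffineMap
  have hφ : ∀ v x, φ v x = - x v := by
    intro v x; rfl
  let ineq : Finset ℕ → List (E →ᴬ[ℝ] ℝ) := fun s => (V \ s).toList.map φ
  have hineq : ∀ s x, (∀ ψ ∈ ineq s, 0 ≤ ψ x) ↔ ∀ v ∈ V, v ∉ s → 0 ≤ - x v := by
    intro s x
    constructor
    · intro h v hv hvs
      rw [← hφ]
      exact h _ (List.mem_map.mpr ⟨v, by
        rw [Finset.mem_toList, Finset.mem_sdiff]; exact ⟨hv, hvs⟩, rfl⟩)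
    · intro h ψ hψ
      obtain ⟨v, hv, rfl⟩ := List.mem_map.mp hψ
      rw [Finset.mem_toList, Finset.mem_sdiff] at hv
      rw [hφ]
      exact h v hv.1 hv.2
  have hin : ∀ s t x, t ∈ X ∪ Y → x ∈ sx t → (∀ ψ ∈ ineq s, 0 ≤ ψ x) → x ∈ sx s := by
    intro s t x ht hx hs
    refine sx_of_zero hx ?_
    intro v hv
    by_cases hvV : v ∈ V
    · have h1 := (hineq s x).mp hs v hvV hv
      have h2 := hx.1 v
      linarith
    · exact hx.2.1 v (fun h => hvV (hV t ht h))
  have hout : ∀ s x, x ∈ sx s → (∀ ψ ∈ ineq s, 0 ≤ ψ x) := by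
    intro s x hx
    rw [hineq]
    intro v _ hv
    rw [hx.2.1 v hv]
    simp
  refine ⟨hX.toFinset.toList.flatMap (fun s => lX.map (fun q => (q.1 ++ ineq s, q.2))) ++
    hY.toFinset.toList.flatMap (fun s => lY.map (fun q => (q.1 ++ ineq s, q.2))),
    fun x hx => ⟨?_, ?_⟩⟩
  · obtain ⟨s, hs, hxs⟩ := hx
    rcases hs with hs | hs
    · obtain ⟨q, hq, hc⟩ := (hlX x ⟨s, hs, hxs⟩).1
      refine ⟨(q.1 ++ ineq s, q.2), List.mem_append.mpr (Or.inl (List.mem_flatMap.mpr
        ⟨s, by rw [Finset.mem_toList, hX.mem_toFinset]; exact hs,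
          List.mem_map.mpr ⟨q, hq, rfl⟩⟩)), ?_⟩
      intro ψ hψ
      rcases List.mem_append.mp hψ with hψ | hψ
      · exact hc ψ hψ
      · exact hout s x hxs ψ hψ
    · obtain ⟨q, hq, hc⟩ := (hlY x ⟨s, hs, hxs⟩).1
      refine ⟨(q.1 ++ ineq s, q.2), List.mem_append.mpr (Or.inr (List.mem_flatMap.mpr
        ⟨s, by rw [Finset.mem_toList, hY.mem_toFinset]; exact hs,
          List.mem_map.mpr ⟨q, hq, rfl⟩⟩)), ?_⟩
      intro ψ hψ
      rcases List.mem_append.mp hψ with hψ | hψ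
      · exact hc ψ hψ
      · exact hout s x hxs ψ hψ
  · obtain ⟨t, ht, hxt⟩ := hx
    intro q hq hc
    rcases List.mem_append.mp hq with hq | hq
    · obtain ⟨s, hs, hq'⟩ := List.mem_flatMap.mp hq
      obtain ⟨q0, hq0, rfl⟩ := List.mem_map.mp hq'
      rw [Finset.mem_toList, hX.mem_toFinset] at hs
      have hxs : x ∈ sx s := hin s t x ht hxt
        (fun ψ hψ => hc ψ (List.mem_append.mpr (Or.inr hψ)))
      exact (hlX x ⟨s, hs, hxs⟩).2 q0 hq0 (fun ψ hψ => hc ψ (List.mem_append.mpr (Or.inl hψ)))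
    · obtain ⟨s, hs, hq'⟩ := List.mem_flatMap.mp hq
      obtain ⟨q0, hq0, rfl⟩ := List.mem_map.mp hq'
      rw [Finset.mem_toList, hY.mem_toFinset] at hs
      have hxs : x ∈ sx s := hin s t x ht hxt
        (fun ψ hψ => hc ψ (List.mem_append.mpr (Or.inr hψ)))
      exact (hlY x ⟨s, hs, hxs⟩).2 q0 hq0 (fun ψ hψ => hc ψ (List.mem_append.mpr (Or.inl hψ)))

theorem cls_pl : Cls PLOn where
  mono := plOn_mono
  congr := plOn_congr
  comp := plOn_comp
  pl := fun h => h
  union := plOn_union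

theorem cls_cont : Cls Cont where
  mono := fun h hT => ContinuousOn.mono h hT
  congr := fun h hg => ContinuousOn.congr h hg
  comp := fun hf hg h => ContinuousOn.comp hg hf h
  pl := plOn_cont
  union := by
    intro X Y f hX hY h1 h2
    unfold Cont at *
    rw [Rz_union]
    exact ContinuousOn.union_of_isClosed h1 h2 (isClosed_Rz hX) (isClosed_Rz hY)

theorem Iso.symm {C : Set E → (E → E) → Prop} {S T : Set E} {f g : E → E} (h : Iso C S T f g) :
    Iso C T S g f :=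
  ⟨h.2.1, h.1, h.2.2.2, h.2.2.1⟩

theorem Iso.trans {C : Set E → (E → E) → Prop} (hC : Cls C) {S T U : Set E} {f g f' g' : E → E}
    (h : Iso C S T f g) (h' : Iso C T U f' g') :
    Iso C S U (fun x => f' (f x)) (fun y => g (g' y)) := by
  refine ⟨?_, ?_, ?_, ?_⟩
  · intro x hx
    have h1 := h.1 x hx
    have h2 := h'.1 (f x) h1.1
    refine ⟨h2.1, ?_⟩
    change g (g' (f' (f x))) = x
    rw [h2.2, h1.2]
  · intro y hy
    have h1 := h'.2.1 y hy
    have h2 := h.2.1 (g' y) h1.1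
    refine ⟨h2.1, ?_⟩
    change f' (f (g (g' y))) = y
    rw [h2.2, h1.2]
  · exact hC.comp h.2.2.1 h'.2.2.1 (fun x hx => (h.1 x hx).1)
  · exact hC.comp h'.2.2.2 h.2.2.2 (fun y hy => (h'.2.1 y hy).1)

theorem plOn_id (S : Set E) : PLOn S (fun x => x) :=
  plOn_of_coord S (fun w => ⟨ContinuousLinearMap.proj w, fun _ => rfl⟩)

theorem Iso.refl {C : Set E → (E → E) → Prop} (hC : Cls C) (S : Set E) :
    Iso C S S (fun x => x) (fun x => x) :=
  ⟨fun _ hx => ⟨hx, rfl⟩, fun _ hy => ⟨hy, rfl⟩, hC.pl (plOn_id S), hC.pl (plOn_id S)⟩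

theorem Iso.of_pl {C : Set E → (E → E) → Prop} (hC : Cls C) {S T : Set E} {f g : E → E}
    (h : Iso PLOn S T f g) : Iso C S T f g :=
  ⟨h.1, h.2.1, hC.pl h.2.2.1, hC.pl h.2.2.2⟩

theorem PLh.refl (X : Set (Finset ℕ)) : PLh X X :=
  ⟨_, _, Iso.refl cls_pl (Rz X)⟩

theorem PLh.symm {X Y : Set (Finset ℕ)} (h : PLh X Y) : PLh Y X := by
  obtain ⟨f, g, h⟩ := h
  exact ⟨g, f, h.symm⟩

theorem PLh.trans {X Y Z : Set (Finset ℕ)} (h : PLh X Y) (h' : PLh Y Z) : PLh X Z := by
  obtain ⟨f, g, h⟩ := h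
  obtain ⟨f', g', h'⟩ := h'
  exact ⟨_, _, h.trans cls_pl h'⟩

/-- A continuous Iso gives a homeomorphism of the subtypes. -/
theorem Iso.homeo {S T : Set E} {f g : E → E} (h : Iso Cont S T f g) : Nonempty (S ≃ₜ T) := by
  refine ⟨{ toFun := fun x => ⟨f x, (h.1 x x.2).1⟩
            invFun := fun y => ⟨g y, (h.2.1 y y.2).1⟩
            left_inv := fun x => Subtype.ext (h.1 x x.2).2
            right_inv := fun y => Subtype.ext (h.2.1 y y.2).2
            continuous_toFun := ?_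
            continuous_invFun := ?_ }⟩
  · exact Continuous.subtype_mk (continuousOn_iff_continuous_domRestrict.mp h.2.2.1) _
  · exact Continuous.subtype_mk (continuousOn_iff_continuous_domRestrict.mp h.2.2.2) _

theorem LkOK.of_plh {bb : Bool} {X Y : Set (Finset ℕ)} (h : PLh X Y) (hY : LkOK bb Y) :
    LkOK bb X := by
  rcases hY with hY | ⟨h1, hY⟩
  · exact Or.inl (h.trans hY)
  · exact Or.inr ⟨h1, h.trans hY⟩

theorem lk_iff (bb : Bool) (v : ℕ) (K : Code) :
    (PLHomeo (link v K) sphere3 ∨ (bb = true ∧ PLHomeo (link v K) ball3)) ↔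
      LkOK bb (lk v (fs K)) := by
  unfold PLHomeo LkOK Sph PLh
  rw [real_eq, real_eq, real_eq, fs_link]

end Pool.Agent.DT70
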