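import Pool.Agent.DT70.Basic

/-! Module DT70/Tube. Combinatorics of the stacked tube (finite list computations).

`tube l` = for every window of six consecutive entries of l the four lists obtained by erasing one
of its four middle entries.
* `tube_map`: `List.map_drop`, `List.map_take`, `List.map_eraseIdx` (or `List.eraseIdx_map`).
* `tube_append`: for j + 6 ≤ l.length the window of l ++ [v] at j is that of l; the last window is
  l.drop (l.length - 5) ++ [v].
* all other statements are about lists of length 10 or 15: write a = [a0,a1,a2,a3,a4] etc.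
  (destruct the lists with their length hypotheses); then `tube (..)` reduces by `rfl` or `simp`
  to an explicit list of 20 or 40 facets. For `tube_reverse` either compare the explicit lists as
  sets of finsets, or write l = (List.range 15).map (fun i => l.getD i 0), use `tube_map` and
  `decide` that every member of tube (range 15).reverse is a permutation of a member of
  tube (range 15) and conversely.
* `bd_left`: a minus a_i (i = 1..4) is contained in the list {a0..a4,p0} minus a_i, and a minus a0
  in {a1,..,a4,p0,p1} minus p0.  `bd_right` by symmetry (tube_reverse) or directly.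
-/

namespace Pool.Agent.DT70

/-- The four new facets when the vertex `v` is pushed after the facet `F`. -/
def four (F : List ℕ) (v : ℕ) : Code := [1, 2, 3, 4].map (fun i => (F ++ [v]).eraseIdx i)

theorem tube_five {l : List ℕ} (h : l.length = 5) : tube l = [] := by
  simp [tube, h]

theorem tube_append (l : List ℕ) (v : ℕ) (h : 5 ≤ l.length) :
    tube (l ++ [v]) = tube l ++ four (l.drop (l.length - 5)) v := by
  unfold tube four
  have h1 : (l ++ [v]).length - 5 = (l.length - 5) + 1 := by
    simp only [List.length_append, List.length_singleton]; omega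
  rw [h1, List.range_succ, List.flatMap_append, List.flatMap_singleton]
  congr 1
  · rw [List.flatMap_def, List.flatMap_def]
    congr 1
    apply List.map_congr_left
    intro j hj
    rw [List.mem_range] at hj
    rw [List.drop_append_of_le_length (by omega), List.take_append_of_le_length
      (by rw [List.length_drop]; omega)]
  · rw [List.drop_append_of_le_length (by omega), List.take_of_length_le
      (by simp only [List.length_append, List.length_singleton, List.length_drop]; omega)]

theorem tube_map (σ : ℕ → ℕ) (l : List ℕ) : tube (l.map σ) = (tube l).map (List.map σ) := by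
  unfold tube
  rw [List.length_map, List.map_flatMap]
  rw [List.flatMap_def, List.flatMap_def]
  congr 1
  apply List.map_congr_left
  intro j _
  rw [List.map_map]
  apply List.map_congr_left
  intro i _
  simp only [Function.comp, ← List.map_drop, ← List.map_take, List.eraseIdx_map]

theorem rev_aux (r l : List ℕ) (hr : ∀ t, t ∈ fs (tube r.reverse) ↔ t ∈ fs (tube r))
    (g : ℕ → ℕ) (hl : l = r.map g) : fs (tube l.reverse) = fs (tube l) := by
  subst hl
  rw [← List.map_reverse, tube_map, tube_map, fs_map, fs_map]
  ext t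
  simp only [Set.mem_setOf_eq]
  constructor
  · rintro ⟨s, hs, rfl⟩
    exact ⟨s, (hr s).1 hs, rfl⟩
  · rintro ⟨s, hs, rfl⟩
    exact ⟨s, (hr s).2 hs, rfl⟩

theorem eq_map_range (l : List ℕ) : l = (List.range l.length).map (fun i => l.getD i 0) := by
  apply List.ext_getElem
  · simp
  · intro i h1 h2
    simp at h2 ⊢
    rw [List.getElem?_eq_getElem h1]
    rfl

theorem rev_chk (r : List ℕ)
    (h1 : ∀ F ∈ tube r.reverse, ∃ G ∈ tube r, G.Perm F)
    (h2 : ∀ F ∈ tube r, ∃ G ∈ tube r.reverse, G.Perm F) :
    ∀ t, t ∈ fs (tube r.reverse) ↔ t ∈ fs (tube r) := by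
  intro t
  constructor
  · rintro ⟨F, hF, rfl⟩
    obtain ⟨G, hG, hp⟩ := h1 F hF
    exact ⟨G, hG, List.toFinset_eq_of_perm _ _ hp⟩
  · rintro ⟨F, hF, rfl⟩
    obtain ⟨G, hG, hp⟩ := h2 F hF
    exact ⟨G, hG, List.toFinset_eq_of_perm _ _ hp⟩

theorem tube_reverse {l : List ℕ} (h : l.length = 15) : fs (tube l.reverse) = fs (tube l) := by
  have h0 := eq_map_range l
  rw [h] at h0
  refine rev_aux (List.range 15) l (rev_chk _ ?_ ?_) _ h0
  · decide +kernel
  · decide +kernel

theorem tube_reverse' {l : List ℕ} (h : l.length = 10) : fs (tube l.reverse) = fs (tube l) := by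
  have h0 := eq_map_range l
  rw [h] at h0
  refine rev_aux (List.range 10) l (rev_chk _ ?_ ?_) _ h0
  · decide +kernel
  · decide +kernel

theorem five {a : List ℕ} (ha : a.length = 5) : ∃ a0 a1 a2 a3 a4, a = [a0, a1, a2, a3, a4] := by
  match a, ha with
  | [a0, a1, a2, a3, a4], _ => exact ⟨a0, a1, a2, a3, a4, rfl⟩

theorem tube_split {a p b : List ℕ} (ha : a.length = 5) (hp : p.length = 5) (hb : b.length = 5) :
    fs (tube (a ++ (p ++ b))) = fs (tube (a ++ p)) ∪ fs (tube (p ++ b)) := by
  obtain ⟨a0, a1, a2, a3, a4, rfl⟩ := five ha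
  obtain ⟨p0, p1, p2, p3, p4, rfl⟩ := five hp
  obtain ⟨b0, b1, b2, b3, b4, rfl⟩ := five hb
  rw [← fs_append]
  rfl

theorem mem_fs {K : Code} {F : List ℕ} (h : F ∈ K) : F.toFinset ∈ fs K := ⟨F, h, rfl⟩

/-- Every facet of the boundary of `a` is a face of the tube. -/
theorem bd_left {a p b : List ℕ} (ha : a.length = 5) (hp : p.length = 5) (hb : b.length = 5)
    (hn : (a ++ (p ++ b)).Nodup) :
    ∀ s ∈ bd a.toFinset, ∃ t ∈ fs (tube (a ++ (p ++ b))), s ⊆ t := by
  obtain ⟨a0, a1, a2, a3, a4, rfl⟩ := five ha
  obtain ⟨p0, p1, p2, p3, p4, rfl⟩ := five hp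
  obtain ⟨b0, b1, b2, b3, b4, rfl⟩ := five hb
  rintro s ⟨x, hx, rfl⟩
  simp only [List.mem_toFinset, List.mem_cons, List.not_mem_nil, or_false] at hx
  rcases hx with rfl | rfl | rfl | rfl | rfl
  · refine ⟨[a1, a2, a3, a4, p1].toFinset, mem_fs ?_, ?_⟩
    · simp [tube, List.range, List.range.loop]
    · intro v hv
      simp only [Finset.mem_erase, List.mem_toFinset, List.mem_cons, List.not_mem_nil,
        or_false] at hv ⊢
      tauto
  · refine ⟨[a0, a2, a3, a4, p0].toFinset, mem_fs ?_, ?_⟩
    · simp [tube, List.range, List.range.loop]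
    · intro v hv
      simp only [Finset.mem_erase, List.mem_toFinset, List.mem_cons, List.not_mem_nil,
        or_false] at hv ⊢
      tauto
  · refine ⟨[a0, a1, a3, a4, p0].toFinset, mem_fs ?_, ?_⟩
    · simp [tube, List.range, List.range.loop]
    · intro v hv
      simp only [Finset.mem_erase, List.mem_toFinset, List.mem_cons, List.not_mem_nil,
        or_false] at hv ⊢
      tauto
  · refine ⟨[a0, a1, a2, a4, p0].toFinset, mem_fs ?_, ?_⟩
    · simp [tube, List.range, List.range.loop]
    · intro v hv
      simp only [Finset.mem_erase, List.mem_toFinset, List.mem_cons, List.not_mem_nil,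
        or_false] at hv ⊢
      tauto
  · refine ⟨[a0, a1, a2, a3, p0].toFinset, mem_fs ?_, ?_⟩
    · simp [tube, List.range, List.range.loop]
    · intro v hv
      simp only [Finset.mem_erase, List.mem_toFinset, List.mem_cons, List.not_mem_nil,
        or_false] at hv ⊢
      tauto

theorem bd_mid {a p : List ℕ} (ha : a.length = 5) (hp : p.length = 5) (hn : (a ++ p).Nodup) :
    ∀ s ∈ bd p.toFinset, ∃ t ∈ fs (tube (a ++ p)), s ⊆ t := by
  obtain ⟨a0, a1, a2, a3, a4, rfl⟩ := five ha
  obtain ⟨p0, p1, p2, p3, p4, rfl⟩ := five hp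
  rintro s ⟨x, hx, rfl⟩
  simp only [List.mem_toFinset, List.mem_cons, List.not_mem_nil, or_false] at hx
  rcases hx with rfl | rfl | rfl | rfl | rfl
  · refine ⟨[a4, p1, p2, p3, p4].toFinset, mem_fs ?_, ?_⟩
    · simp [tube, List.range, List.range.loop]
    · intro v hv
      simp only [Finset.mem_erase, List.mem_toFinset, List.mem_cons, List.not_mem_nil,
        or_false] at hv ⊢
      tauto
  · refine ⟨[a4, p0, p2, p3, p4].toFinset, mem_fs ?_, ?_⟩
    · simp [tube, List.range, List.range.loop]
    · intro v hv
      simp only [Finset.mem_erase, List.mem_toFinset, List.mem_cons, List.not_mem_nil,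
        or_false] at hv ⊢
      tauto
  · refine ⟨[a4, p0, p1, p3, p4].toFinset, mem_fs ?_, ?_⟩
    · simp [tube, List.range, List.range.loop]
    · intro v hv
      simp only [Finset.mem_erase, List.mem_toFinset, List.mem_cons, List.not_mem_nil,
        or_false] at hv ⊢
      tauto
  · refine ⟨[a4, p0, p1, p2, p4].toFinset, mem_fs ?_, ?_⟩
    · simp [tube, List.range, List.range.loop]
    · intro v hv
      simp only [Finset.mem_erase, List.mem_toFinset, List.mem_cons, List.not_mem_nil,
        or_false] at hv ⊢
      tauto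
  · refine ⟨[a3, p0, p1, p2, p3].toFinset, mem_fs ?_, ?_⟩
    · simp [tube, List.range, List.range.loop]
    · intro v hv
      simp only [Finset.mem_erase, List.mem_toFinset, List.mem_cons, List.not_mem_nil,
        or_false] at hv ⊢
      tauto

theorem bd_right {a p b : List ℕ} (ha : a.length = 5) (hp : p.length = 5) (hb : b.length = 5)
    (hn : (a ++ (p ++ b)).Nodup) :
    ∀ s ∈ bd b.toFinset, ∃ t ∈ fs (tube (a ++ (p ++ b))), s ⊆ t := by
  intro s hs
  have hn' : (p ++ b).Nodup := (List.nodup_append.1 hn).2.1
  obtain ⟨t, ht, hst⟩ := bd_mid hp hb hn' s hs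
  refine ⟨t, ?_, hst⟩
  rw [tube_split ha hp hb]
  exact Or.inr ht

/-- Every facet of the tube has five distinct vertices, all of them in the list. -/
theorem tube_mem {l F : List ℕ} (hn : l.Nodup) (hF : F ∈ tube l) :
    F.Nodup ∧ F.length = 5 ∧ ∀ v ∈ F, v ∈ l := by
  unfold tube at hF
  rw [List.mem_flatMap] at hF
  obtain ⟨j, hj, hF⟩ := hF
  rw [List.mem_range] at hj
  rw [List.mem_map] at hF
  obtain ⟨i, hi, rfl⟩ := hF
  have hs : (((l.drop j).take 6).eraseIdx i).Sublist l :=
    ((List.eraseIdx_sublist _ _).trans (List.take_sublist _ _)).trans (List.drop_sublist _ _)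
  have hlen : ((l.drop j).take 6).length = 6 := by
    rw [List.length_take, List.length_drop]; omega
  refine ⟨hs.nodup hn, ?_, fun v hv => hs.subset hv⟩
  rw [List.length_eraseIdx_of_lt, hlen]
  simp only [List.mem_cons, List.not_mem_nil, or_false] at hi
  rw [hlen]; omega

end Pool.Agent.DT70
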