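import Pool.Agent.DT70.Univ
import Pool.Agent.DT70.Tube

/-! Module DT70/Norm. Normalization of edge path groups (pure algebra).

`univT_of_univ`: take a₀ from hnorm applied to c = L and put L' u w = (a₀ u)⁻¹ * L u w * a₀ w.
coc, triv are clear. EP X L u w g implies EP X L' u w ((a₀ u)⁻¹ * g * a₀ w) (induction); so
EP X L' o o g for all g (a₀ o = 1). For o' ∈ W: hconn gives EP X L' o o' 1 and EP X L' o' o 1
(all edges inside W have L' = 1 by triv), so EP X L' o' o' g. univ: let c be a cocycle trivial on W,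
θ, a from h.univ; then θ (L' u w) = (f u)⁻¹ * c u w * f w with f u = a u * θ (a₀ u), f o = 1;
along an edge inside W: 1 = (f u)⁻¹ * 1 * f w, so f = 1 on W by hconn.
`univT_facet`: W = vertices of F, o ∈ F; hnorm: a w = (c o w)⁻¹ for w ∈ F, 1 otherwise (decidable
membership in the finset F); hconn: one step.
`tube_triple`: indices i, j, k < l.length with pairwise differences at most 5: the window
starting at m = min i j k (or at l.length - 6 if m is larger) contains the three entries and has four middle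
entries, one of which is not among them; erase it. Suggestion: write everything with
(l.drop m).take 6 and eraseIdx, or for length 15 by cases; here l.length = 15 only.
`univT_tube`: hnorm: for l = [l_0, .., l_14] put P i = c l_0 l_1 * .. * c l_{i-1} l_i and
a l_i = (P i)⁻¹ (use idxOf, l is nodup), 1 outside l. For i ≤ k ≤ i + 5 one has
c l_i l_k = c l_i l_{i+1} * .. * c l_{k-1} l_k by `tube_triple`, hence
(a l_i)⁻¹ * c l_i l_k * a l_k = P i * c l_i l_k * (P k)⁻¹ = 1; for k ≤ i use `Coc.symm`.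
A face of X meeting W in l_i and l_k has |i - k| ≤ 5: hyp hW. hconn: steps l_i, l_{i+1}.
-/

namespace Pool.Agent.DT70

/-- The cochain `c` is trivial on the edges with both ends in `W`. -/
def Triv (X : Set (Finset ℕ)) (W : Set ℕ) {Γ : Type} [Group Γ] (c : ℕ → ℕ → Γ) : Prop :=
  ∀ s ∈ X, ∀ u ∈ s, ∀ w ∈ s, u ∈ W → w ∈ W → c u w = 1

/-- Edge path group normalized on `W`. -/
structure UnivT (X : Set (Finset ℕ)) (W : Set ℕ) (G : Type) [Group G] (L : ℕ → ℕ → G) :
    Prop where
  coc : Coc X L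
  triv : Triv X W L
  gen : ∀ o ∈ W, ∀ g : G, EP X L o o g
  univ : ∀ (Γ : Type) [Group Γ] (c : ℕ → ℕ → Γ), Coc X c → Triv X W c →
    ∃ (θ : G →* Γ) (a : ℕ → Γ), (∀ u ∈ W, a u = 1) ∧
      ∀ s ∈ X, ∀ u ∈ s, ∀ w ∈ s, θ (L u w) = (a u)⁻¹ * c u w * a w

theorem norm_conj {X : Set (Finset ℕ)} {G : Type} [Group G] {L : ℕ → ℕ → G} (a : ℕ → G)
    {u w : ℕ} {g : G} (h : EP X L u w g) :
    EP X (fun u w => (a u)⁻¹ * L u w * a w) u w ((a u)⁻¹ * g * a w) := by
  induction h with
  | nil u =>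
    have h1 : (a u)⁻¹ * 1 * a u = 1 := by group
    rw [h1]
    exact EP.nil u
  | @cons u v w g s hs hu hv _ ih =>
    have h1 : (a u)⁻¹ * (L u v * g) * a w =
        ((a u)⁻¹ * L u v * a v) * ((a v)⁻¹ * g * a w) := by group
    rw [h1]
    exact EP.cons (L := fun u w => (a u)⁻¹ * L u w * a w) s hs hu hv ih

theorem univT_of_univ {X : Set (Finset ℕ)} {W : Set ℕ} {o : ℕ} {G : Type} [Group G]
    {L : ℕ → ℕ → G} (h : Univ X o G L) (ho : o ∈ W)
    (hnorm : ∀ (Γ : Type) [Group Γ] (c : ℕ → ℕ → Γ), Coc X c → ∃ a : ℕ → Γ, a o = 1 ∧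
      ∀ s ∈ X, ∀ u ∈ s, ∀ w ∈ s, u ∈ W → w ∈ W → (a u)⁻¹ * c u w * a w = 1)
    (hconn : ∀ u ∈ W, Relation.ReflTransGen
      (fun u v => u ∈ W ∧ v ∈ W ∧ ∃ s ∈ X, u ∈ s ∧ v ∈ s) o u) :
    ∃ L', UnivT X W G L' := by
  obtain ⟨a₀, ha₀, hn⟩ := hnorm G L h.coc
  let L' : ℕ → ℕ → G := fun u w => (a₀ u)⁻¹ * L u w * a₀ w
  have htriv : ∀ s ∈ X, ∀ u ∈ s, ∀ w ∈ s, u ∈ W → w ∈ W → L' u w = 1 := hn
  have hoo : ∀ g, EP X L' o o g := by
    intro g
    have h1 := norm_conj a₀ (h.gen g)
    rw [ha₀] at h1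
    have h2 : (1 : G)⁻¹ * g * 1 = g := by group
    rw [h2] at h1
    exact h1
  have hto : ∀ u, Relation.ReflTransGen
      (fun u v => u ∈ W ∧ v ∈ W ∧ ∃ s ∈ X, u ∈ s ∧ v ∈ s) o u →
      EP X L' o u 1 ∧ EP X L' u o 1 := by
    intro u hu
    induction hu with
    | refl => exact ⟨EP.nil o, EP.nil o⟩
    | @tail u v _ huv ih =>
      obtain ⟨hu, hv, s, hs, hus, hvs⟩ := huv
      constructor
      · have h1 := ih.1.trans (EP.single (L := L') hs hus hvs)
        rw [htriv s hs u hus v hvs hu hv, mul_one] at h1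
        exact h1
      · have h1 := (EP.single (L := L') hs hvs hus).trans ih.2
        rw [htriv s hs v hvs u hus hv hu, mul_one] at h1
        exact h1
  refine ⟨L', ⟨?_, htriv, ?_, ?_⟩⟩
  · intro s hs u hu v hv w hw
    change ((a₀ u)⁻¹ * L u v * a₀ v) * ((a₀ v)⁻¹ * L v w * a₀ w) = (a₀ u)⁻¹ * L u w * a₀ w
    rw [← h.coc s hs u hu v hv w hw]
    group
  · intro o' ho' g
    obtain ⟨h1, h2⟩ := hto o' (hconn o' ho')
    have h3 := (h2.trans (hoo g)).trans h1
    rw [one_mul, mul_one] at h3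
    exact h3
  · intro Γ _ c hc ht
    obtain ⟨θ, a, hao, hθ⟩ := h.univ Γ c hc
    have hf : ∀ s ∈ X, ∀ u ∈ s, ∀ w ∈ s,
        θ (L' u w) = (a u * θ (a₀ u))⁻¹ * c u w * (a w * θ (a₀ w)) := by
      intro s hs u hu w hw
      change θ ((a₀ u)⁻¹ * L u w * a₀ w) = _
      rw [map_mul, map_mul, map_inv, hθ s hs u hu w hw]
      group
    refine ⟨θ, fun u => a u * θ (a₀ u), fun u hu => ?_, hf⟩
    have key : ∀ u, Relation.ReflTransGen
        (fun u v => u ∈ W ∧ v ∈ W ∧ ∃ s ∈ X, u ∈ s ∧ v ∈ s) o u → a u * θ (a₀ u) = 1 := by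
      intro u hu
      induction hu with
      | refl => rw [hao, ha₀, map_one, mul_one]
      | @tail u v _ huv ih =>
        obtain ⟨hu, hv, s, hs, hus, hvs⟩ := huv
        have h1 := hf s hs u hus v hvs
        rw [htriv s hs u hus v hvs hu hv, map_one, ht s hs u hus v hvs hu hv, ih] at h1
        simpa using h1.symm
    exact key u (hconn u hu)

theorem univT_facet {X : Set (Finset ℕ)} {F : Finset ℕ} (hF : F ∈ X) {o : ℕ} (ho : o ∈ F)
    {G : Type} [Group G] {L : ℕ → ℕ → G} (h : Univ X o G L) :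
    ∃ L', UnivT X {v | v ∈ F} G L' := by
  refine univT_of_univ h (W := {v | v ∈ F}) ho (fun Γ _ c hc => ?_) (fun u hu => ?_)
  · refine ⟨fun w => if w ∈ F then (c o w)⁻¹ else 1, ?_, fun s hs u hus w hws hu hw => ?_⟩
    · simp only
      rw [if_pos ho, hc.self hF ho, inv_one]
    · have hu' : u ∈ F := hu
      have hw' : w ∈ F := hw
      simp only [if_pos hu', if_pos hw', inv_inv]
      rw [hc F hF o ho u hu' w hw', mul_inv_cancel]
  · exact Relation.ReflTransGen.single ⟨ho, hu, F, hF, ho, hu⟩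

theorem norm_dec' : ((List.range 15).all fun i => (List.range 15).all fun j =>
    (List.range 15).all fun k => !(decide (i ≤ j + 5) && decide (j ≤ i + 5) && decide (i ≤ k + 5) &&
      decide (k ≤ i + 5) && decide (j ≤ k + 5) && decide (k ≤ j + 5)) ||
      (tube (List.range 15)).any fun F => decide (i ∈ F) && decide (j ∈ F) && decide (k ∈ F)) =
      true := by
  decide +kernel

theorem norm_dec (i : ℕ) (hi : i < 15) (j : ℕ) (hj : j < 15) (k : ℕ) (hk : k < 15)
    (h1 : i ≤ j + 5) (h2 : j ≤ i + 5) (h3 : i ≤ k + 5) (h4 : k ≤ i + 5)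
    (h5 : j ≤ k + 5) (h6 : k ≤ j + 5) :
    ∃ F ∈ tube (List.range 15), i ∈ F ∧ j ∈ F ∧ k ∈ F := by
  have h := norm_dec'
  rw [List.all_eq_true] at h
  have h := h i (List.mem_range.2 hi)
  rw [List.all_eq_true] at h
  have h := h j (List.mem_range.2 hj)
  rw [List.all_eq_true] at h
  have h := h k (List.mem_range.2 hk)
  rw [decide_eq_true h1, decide_eq_true h2, decide_eq_true h3, decide_eq_true h4,
    decide_eq_true h5, decide_eq_true h6] at h
  simp only [Bool.and_self, Bool.not_true, Bool.false_or, List.any_eq_true, Bool.and_eq_true,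
    decide_eq_true_eq] at h
  obtain ⟨F, hF, ⟨h7, h8⟩, h9⟩ := h
  exact ⟨F, hF, h7, h8, h9⟩

theorem tube_triple {l : List ℕ} (hl : l.length = 15) (hn : l.Nodup) {i j k : ℕ} (hi : i < 15)
    (hj : j < 15) (hk : k < 15) (h1 : i ≤ j + 5) (h2 : j ≤ i + 5) (h3 : i ≤ k + 5)
    (h4 : k ≤ i + 5) (h5 : j ≤ k + 5) (h6 : k ≤ j + 5) :
    ∃ s ∈ fs (tube l), l.getD i 0 ∈ s ∧ l.getD j 0 ∈ s ∧ l.getD k 0 ∈ s := by
  obtain ⟨F, hF, hFi, hFj, hFk⟩ := norm_dec i hi j hj k hk h1 h2 h3 h4 h5 h6
  have h0 := eq_map_range l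
  rw [hl] at h0
  have h7 : F.map (fun i => l.getD i 0) ∈ tube l := by
    have h8 := tube_map (fun i => l.getD i 0) (List.range 15)
    rw [← h0] at h8
    rw [h8]
    exact List.mem_map_of_mem hF
  refine ⟨_, mem_fs h7, ?_, ?_, ?_⟩ <;> rw [List.mem_toFinset]
  · exact List.mem_map_of_mem (f := fun i => l.getD i 0) hFi
  · exact List.mem_map_of_mem (f := fun i => l.getD i 0) hFj
  · exact List.mem_map_of_mem (f := fun i => l.getD i 0) hFk

theorem univT_tube {X : Set (Finset ℕ)} {l : List ℕ} (hl : l.length = 15) (hn : l.Nodup)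
    (hX : fs (tube l) ⊆ X)
    (hW : ∀ s ∈ X, ∀ i < 15, ∀ k < 15, l.getD i 0 ∈ s → l.getD k 0 ∈ s → i ≤ k + 5)
    {G : Type} [Group G] {L : ℕ → ℕ → G} (h : Univ X (l.getD 0 0) G L) :
    ∃ L', UnivT X {v | v ∈ l} G L' := by
  have hmem : ∀ i < 15, l.getD i 0 ∈ l := by
    intro i hi
    have hi' : i < l.length := by omega
    rw [List.getD_eq_getElem _ _ hi']
    exact List.getElem_mem hi'
  have hidx : ∀ i < 15, l.idxOf (l.getD i 0) = i := by
    intro i hi
    have hi' : i < l.length := by omega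
    rw [List.getD_eq_getElem _ _ hi']
    exact hn.idxOf_getElem i hi'
  have hex : ∀ u ∈ l, ∃ i < 15, l.getD i 0 = u := by
    intro u hu
    obtain ⟨i, hi, h1⟩ := List.mem_iff_getElem.1 hu
    refine ⟨i, by omega, ?_⟩
    rw [List.getD_eq_getElem _ _ hi]
    exact h1
  refine univT_of_univ h (W := {v | v ∈ l}) (hmem 0 (by omega)) (fun Γ _ c hc => ?_)
    (fun u hu => ?_)
  · let P : ℕ → Γ := fun i => Nat.rec 1 (fun m x => x * c (l.getD m 0) (l.getD (m + 1) 0)) i
    have hP0 : P 0 = 1 := rfl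
    have hPs : ∀ m, P (m + 1) = P m * c (l.getD m 0) (l.getD (m + 1) 0) := fun m => rfl
    have key : ∀ i d, d ≤ 5 → i + d < 15 →
        c (l.getD i 0) (l.getD (i + d) 0) = (P i)⁻¹ * P (i + d) := by
      intro i d
      induction d with
      | zero =>
        intro _ h2
        obtain ⟨s, hs, h3, _, _⟩ := tube_triple hl hn (i := i) (j := i) (k := i) (by omega)
          (by omega) (by omega) (by omega) (by omega) (by omega) (by omega) (by omega) (by omega)
        rw [Nat.add_zero, hc.self (hX hs) h3, inv_mul_cancel]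
      | succ d ih =>
        intro h1 h2
        obtain ⟨s, hs, h3, h4, h5⟩ := tube_triple hl hn (i := i) (j := i + d) (k := i + d + 1)
          (by omega) (by omega) (by omega) (by omega) (by omega) (by omega) (by omega) (by omega)
          (by omega)
        have h6 := hc s (hX hs) _ h3 _ h4 _ h5
        rw [← Nat.add_assoc, ← h6, ih (by omega) (by omega), hPs, mul_assoc]
    refine ⟨fun u => if u ∈ l then (P (l.idxOf u))⁻¹ else 1, ?_, fun s hs u hus w hws hu hw => ?_⟩
    · simp only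
      rw [if_pos (hmem 0 (by omega)), hidx 0 (by omega), hP0, inv_one]
    · obtain ⟨i, hi, rfl⟩ := hex u hu
      obtain ⟨k, hk, rfl⟩ := hex w hw
      simp only
      rw [if_pos (hmem i hi), if_pos (hmem k hk), hidx i hi, hidx k hk, inv_inv]
      have h1 := hW s hs i hi k hk hus hws
      have h2 := hW s hs k hk i hi hws hus
      have h3 : c (l.getD i 0) (l.getD k 0) = (P i)⁻¹ * P k := by
        rcases le_total i k with h4 | h4
        · obtain ⟨d, rfl⟩ := Nat.exists_eq_add_of_le h4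
          exact key i d (by omega) hk
        · obtain ⟨d, rfl⟩ := Nat.exists_eq_add_of_le h4
          have h5 := key k d (by omega) hi
          rw [hc.symm hs hws hus, h5, mul_inv_rev, inv_inv]
      rw [h3]
      group
  · obtain ⟨i, hi, rfl⟩ := hex u hu
    induction i with
    | zero => exact Relation.ReflTransGen.refl
    | succ m ih =>
      refine Relation.ReflTransGen.tail (ih (by omega) (hmem m (by omega))) ?_
      obtain ⟨s, hs, h3, h4, _⟩ := tube_triple hl hn (i := m) (j := m + 1) (k := m + 1)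
        (by omega) (by omega) (by omega) (by omega) (by omega) (by omega) (by omega) (by omega)
        (by omega)
      exact ⟨hmem m (by omega), hmem (m + 1) hi, s, hX hs, h3, h4⟩

end Pool.Agent.DT70
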