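import Pool.Agent.DT70.Seg

/-! Module DT70/PathInd. Induction principle for homotopy classes of paths.

Let p = mk γ. The open sets {t | 0 < (γ t) v}, v ∈ ℕ, cover [0,1] (`exists_pos`). By
`exists_monotone_Icc_subset_open_cover_unitInterval` there is a monotone sequence 0 = t_0 ≤ t_1 ≤ ..,
eventually 1, with γ [t_i, t_{i+1}] in one of these sets. By `Path.Homotopy`/`concat_subpath` or by
induction on n with `Path.Homotopy.subpathTransSubpath` (file Mathlib/Topology/Subpath.lean),
mk (γ.subpath 0 t_n) satisfies Q: start with `Path.subpath_self` (constant path, apply hloc at any v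
positive at γ 0), step: mk (subpath 0 t_{n+1}) = (mk (subpath 0 t_n)).trans
(mk (subpath t_n t_{n+1})) and the range of the last piece is γ [t_n, t_{n+1}]
(`Path.range_subpath_of_le`). Finally `Path.subpath_zero_one` (casts of endpoints: γ 0 = x, γ 1 = y;
it may help to state everything for Q applied with the endpoints γ 0, γ t).
-/

namespace Pool.Agent.DT70

open unitInterval in
theorem path_cast_aux {Z : Type*} [TopologicalSpace Z]
    (Q : ∀ x y : Z, Path.Homotopic.Quotient x y → Prop) {x y a b : Z} (γ : Path x y)
    (ha : a = x) (hb : b = y)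
    (h : Q a b (Path.Homotopic.Quotient.mk (γ.cast ha hb))) :
    Q x y (Path.Homotopic.Quotient.mk γ) := by
  subst ha hb
  exact h

open unitInterval in
theorem path_induction (X : Set (Finset ℕ))
    (Q : ∀ x y : Rz X, Path.Homotopic.Quotient x y → Prop)
    (hcomp : ∀ (x y z : Rz X) (p : Path.Homotopic.Quotient x y)
      (q : Path.Homotopic.Quotient y z), Q x y p → Q y z q → Q x z (p.trans q))
    (hloc : ∀ (v : ℕ) (x y : Rz X) (γ : Path x y), (∀ t, 0 < ((γ t : Rz X) : E) v) →
      Q x y (Path.Homotopic.Quotient.mk γ)) :
    ∀ (x y : Rz X) (p : Path.Homotopic.Quotient x y), Q x y p := by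
  intro x y p
  induction p using Path.Homotopic.Quotient.ind with
  | mk γ =>
    have hopen : ∀ v : ℕ, IsOpen {t : I | 0 < ((γ t : Rz X) : E) v} := by
      intro v
      have hc : Continuous fun t : I => ((γ t : Rz X) : E) v :=
        (continuous_apply v).comp (continuous_subtype_val.comp γ.continuous)
      exact isOpen_lt continuous_const hc
    have hcov : (Set.univ : Set I) ⊆ ⋃ v : ℕ, {t : I | 0 < ((γ t : Rz X) : E) v} := by
      intro t _
      obtain ⟨v, hv⟩ := exists_pos (γ t)
      exact Set.mem_iUnion.2 ⟨v, hv⟩
    obtain ⟨t, ht0, htm, ⟨n, htn⟩, htc⟩ :=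
      exists_monotone_Icc_subset_open_cover_unitInterval hopen hcov
    have hstep : ∀ k, Q (γ (t 0)) (γ (t k))
        (Path.Homotopic.Quotient.mk (γ.subpath (t 0) (t k))) := by
      intro k
      induction k with
      | zero =>
        obtain ⟨v, hv⟩ := exists_pos (γ (t 0))
        apply hloc v
        intro s
        rw [Path.subpath_self]
        exact hv
      | succ k ih =>
        obtain ⟨v, hv⟩ := htc k
        have h1 : Q (γ (t k)) (γ (t (k + 1)))
            (Path.Homotopic.Quotient.mk (γ.subpath (t k) (t (k + 1)))) := by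
          apply hloc v
          intro s
          have hs : γ.subpath (t k) (t (k + 1)) s ∈ Set.range (γ.subpath (t k) (t (k + 1))) :=
            Set.mem_range_self s
          rw [Path.range_subpath_of_le γ _ _ (htm (Nat.le_succ k))] at hs
          obtain ⟨r, hr, hr'⟩ := hs
          rw [← hr']
          exact hv hr
        have h2 := hcomp _ _ _ _ _ ih h1
        rw [← Path.Homotopic.Quotient.mk_trans] at h2
        have h3 : Path.Homotopic.Quotient.mk ((γ.subpath (t 0) (t k)).trans
            (γ.subpath (t k) (t (k + 1)))) =
            Path.Homotopic.Quotient.mk (γ.subpath (t 0) (t (k + 1))) :=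
          Quotient.sound ⟨Path.Homotopy.subpathTransSubpath γ _ _ _⟩
        rw [h3] at h2
        exact h2
    have hfin := hstep n
    have h1 : t n = 1 := htn n le_rfl
    rw [ht0, h1, Path.subpath_zero_one] at hfin
    exact path_cast_aux Q γ _ _ hfin

end Pool.Agent.DT70
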