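import Mathlib

/-!
# Definitions for `MP_d40431_gt.DisconnectedPairs`

Triangulated closed 4-manifolds as lists of facets, their realizations, piecewise linear
homeomorphisms, connected sums along marked facets, disjoint unions, and the algorithmic problem.
-/

namespace Pool.Agent.DT70

/-- A finite simplicial complex given by the list of its facets; a facet is the list of its
vertices, which are natural numbers. -/
abbrev Code := List (List ℕ)

/-- The space of all real sequences, with the product topology. -/
abbrev E := ℕ → ℝ

/-- The closed simplex spanned by the vertices in the list `F`: the points with nonnegative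
coordinates, zero outside `F`, of total sum one. -/
def simplex (F : List ℕ) : Set E :=
  {x | (∀ v, 0 ≤ x v) ∧ (∀ v, v ∉ F → x v = 0) ∧ ∑ v ∈ F.toFinset, x v = 1}

/-- The geometric realization (underlying polyhedron) of a complex. -/
def real (K : Code) : Set E := {x | ∃ F ∈ K, x ∈ simplex F}

/-- `f` is piecewise linear on `S`: there are finitely many convex polyhedra, each given by
finitely many inequalities `0 ≤ φ x` with `φ` continuous affine, which cover `S`, and on each of
which `f` agrees (on `S`) with a continuous affine map. -/
def PLOn (S : Set E) (f : E → E) : Prop :=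
  ∃ l : List (List (E →ᴬ[ℝ] ℝ) × (E →ᴬ[ℝ] E)), ∀ x ∈ S,
    (∃ q ∈ l, ∀ φ ∈ q.1, 0 ≤ φ x) ∧ ∀ q ∈ l, (∀ φ ∈ q.1, 0 ≤ φ x) → f x = q.2 x

/-- Continuity on `S`. -/
def Cont (S : Set E) (f : E → E) : Prop := ContinuousOn f S

/-- `f` and `g` restrict to mutually inverse bijections between `S` and `T`, both in the class
`C` of maps (`C = PLOn`: piecewise linear, `C = Cont`: continuous). -/
def Iso (C : Set E → (E → E) → Prop) (S T : Set E) (f g : E → E) : Prop :=
  (∀ x ∈ S, f x ∈ T ∧ g (f x) = x) ∧ (∀ y ∈ T, g y ∈ S ∧ f (g y) = y) ∧ C S f ∧ C T g

/-- The complexes `K` and `L` have piecewise linearly homeomorphic realizations. -/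
def PLHomeo (K L : Code) : Prop := ∃ f g : E → E, Iso PLOn (real K) (real L) f g

/-- The link of the vertex `v`. -/
def link (v : ℕ) (K : Code) : Code :=
  (K.filter (fun F => decide (v ∈ F))).map (fun F => F.filter (fun w => decide (w ≠ v)))

/-- The boundary of the 4-simplex with vertices 0, 1, 2, 3, 4. -/
def sphere3 : Code := [[1, 2, 3, 4], [0, 2, 3, 4], [0, 1, 3, 4], [0, 1, 2, 4], [0, 1, 2, 3]]

/-- The 3-simplex with vertices 0, 1, 2, 3. -/
def ball3 : Code := [[0, 1, 2, 3]]

/-- `K` is a combinatorial 4-manifold, closed if `b = false`, possibly with boundary if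
`b = true`: it is nonempty, every facet has five distinct vertices, and the link of every vertex
is a PL 3-sphere or (only allowed if `b = true`) a PL 3-ball. -/
def Mfd (b : Bool) (K : Code) : Prop :=
  K ≠ [] ∧ (∀ F ∈ K, F.Nodup ∧ F.length = 5) ∧
    ∀ v, (∃ F ∈ K, v ∈ F) →
      PLHomeo (link v K) sphere3 ∨ (b = true ∧ PLHomeo (link v K) ball3)

/-- The marked facet of a complex: the first one of the list, with its vertices in their order. -/
def hd (K : Code) : List ℕ := K.headD []

/-- `K` is a connected combinatorial 4-manifold (closed if `b = false`) with a marked facet (the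
first facet of the list, which must not be listed a second time). -/
def Marked (b : Bool) (K : Code) : Prop :=
  Mfd b K ∧ IsConnected (real K) ∧ ∀ G ∈ K.tail, ¬ G.Perm (hd K)

/-- The linear map which carries the simplex `a` to the simplex `b`, the `i`-th vertex of `a` to
the `i`-th vertex of `b`. -/
def facetMap (a b : List ℕ) (x : E) : E := fun w => if w ∈ b then x (a.getD (b.idxOf w) 0) else 0

/-- The realizations of `K` and `L` are isomorphic (in the class `C`) by maps which carry the
marked facet of `K` to the marked facet of `L` linearly, respecting the order of the vertices. -/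
def Rel (C : Set E → (E → E) → Prop) (K L : Code) : Prop :=
  ∃ f g : E → E, Iso C (real K) (real L) f g ∧
    ∀ x ∈ simplex (hd K), f x = facetMap (hd K) (hd L) x

/-- The stacked tube on a list of vertices: for every window of six consecutive vertices the four
5-sets obtained by leaving out one of its four middle vertices. -/
def tube (l : List ℕ) : Code :=
  (List.range (l.length - 5)).flatMap
    (fun j => [1, 2, 3, 4].map (fun i => ((l.drop j).take 6).eraseIdx i))

/-- Five new vertices. -/
def mid : List ℕ := [2, 5, 8, 11, 14]

/-- Connected sum along the marked facets: the vertices `v` of `K` are renamed `3 v`, those of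
`L` are renamed `3 v + 1`, the marked facets `a` and `b` are removed, and the stacked tube on
`a`, five new vertices, `b` joins their boundaries. -/
def cs (K L : Code) : Code :=
  K.tail.map (List.map (fun v => 3 * v)) ++
    (tube ((hd K).map (fun v => 3 * v) ++ (mid ++ (hd L).map (fun v => 3 * v + 1))) ++
      L.tail.map (List.map (fun v => 3 * v + 1)))

/-- Disjoint union. -/
def du (K L : Code) : Code :=
  K.map (List.map (fun v => 2 * v)) ++ L.map (List.map (fun v => 2 * v + 1))

/-- `f` is an algorithm which solves the problem (for closed manifolds if `b = false`, for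
manifolds possibly with boundary if `b = true`): whenever `X` and `Y` are combinatorial
4-manifolds with homeomorphic realizations, it halts on `(X, Y)` and answers correctly whether
they are PL homeomorphic (equivalently, diffeomorphic). -/
def Solves (b : Bool) (f : Code × Code →. Bool) : Prop :=
  Partrec f ∧ ∀ X Y : Code, Mfd b X → Mfd b Y → Nonempty (real X ≃ₜ real Y) →
    ∃ d ∈ f (X, Y), (d = true ↔ PLHomeo X Y)

/-- Facets of a code as finite sets. -/
def fs (K : Code) : Set (Finset ℕ) := {s | ∃ F ∈ K, F.toFinset = s}

end Pool.Agent.DT70
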