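import Pool.Agent.DT70.Maps

/-! Module DT70/Relabel. Renaming the vertices is a PL homeomorphism.

Let τ be a left inverse of σ on the vertices of X. Put V = all vertices of X (v in some s in X).
`push x w = x (τ w)` if τ w is in V and σ (τ w) = w, and 0 otherwise; `pull y v = y (σ v)` if v is
in V, and 0 otherwise. Both have coordinates which are 0 or a coordinate
(`ContinuousLinearMap.proj`), so they are PL on every set (`plOn_of_coord`).
For x in sx s, s in X: push x is in sx (s.image σ): nonnegative; if push x w ≠ 0 then v = τ w has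
x v ≠ 0, so v in s and w = σ v; the sum over s.image σ is the sum over s by `Finset.sum_image`
(σ is injective on s since τ is a left inverse). pull (push x) = x on Rz X, push (pull y) = y on
the image complex.

`sph_bd`: for F with 5 elements, bd F is a PL 3-sphere: let e : F ≃ Fin 5, σ v = e v for v in F,
τ i = e.symm i; relabelling bd F by σ gives bd {0,..,4} = fs sphere3 (`decide`/`simp`).
-/

namespace Pool.Agent.DT70

open Classical in
/-- Push forward along `σ` with left inverse `τ` on `V`. -/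
noncomputable def push (V : Set ℕ) (σ τ : ℕ → ℕ) (x : E) : E :=
  fun w => if τ w ∈ V ∧ σ (τ w) = w then x (τ w) else 0

open Classical in
/-- Pull back along `σ`. -/
noncomputable def pull (V : Set ℕ) (σ : ℕ → ℕ) (y : E) : E :=
  fun v => if v ∈ V then y (σ v) else 0

/-- Vertices of a complex. -/
def verts (X : Set (Finset ℕ)) : Set ℕ := {v | ∃ s ∈ X, v ∈ s}

theorem image_erase_of_injOn {s : Finset ℕ} {σ : ℕ → ℕ} (h : Set.InjOn σ (s : Set ℕ)) {v : ℕ}
    (hv : v ∈ s) : (s.erase v).image σ = (s.image σ).erase (σ v) := by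
  ext w
  simp only [Finset.mem_image, Finset.mem_erase]
  constructor
  · rintro ⟨u, ⟨hu1, hu2⟩, rfl⟩
    exact ⟨fun h1 => hu1 (h (Finset.mem_coe.2 hu2) (Finset.mem_coe.2 hv) h1), u, hu2, rfl⟩
  · rintro ⟨h1, u, hu, rfl⟩
    refine ⟨u, ⟨?_, hu⟩, rfl⟩
    rintro rfl
    exact h1 rfl

theorem injOn_of_left {X : Set (Finset ℕ)} {σ τ : ℕ → ℕ} (h : ∀ s ∈ X, ∀ v ∈ s, τ (σ v) = v)
    {s : Finset ℕ} (hs : s ∈ X) : Set.InjOn σ (s : Set ℕ) := by
  intro u hu v hv huv
  rw [← h s hs u (Finset.mem_coe.1 hu), ← h s hs v (Finset.mem_coe.1 hv), huv]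

theorem relabel (X : Set (Finset ℕ)) (σ τ : ℕ → ℕ) (h : ∀ s ∈ X, ∀ v ∈ s, τ (σ v) = v) :
    Iso PLOn (Rz X) (Rz {t | ∃ s ∈ X, t = s.image σ}) (push (verts X) σ τ)
      (pull (verts X) σ) := by
  classical
  have hV : ∀ v ∈ verts X, τ (σ v) = v := by
    rintro v ⟨s, hs, hv⟩
    exact h s hs v hv
  have hpush : ∀ (x : E), ∀ v ∈ verts X, push (verts X) σ τ x (σ v) = x v := by
    intro x v hv
    unfold push
    rw [hV v hv, if_pos ⟨hv, rfl⟩]
  have hpull : ∀ (y : E), ∀ v ∈ verts X, pull (verts X) σ y v = y (σ v) := by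
    intro y v hv
    unfold pull
    rw [if_pos hv]
  refine ⟨?_, ?_, ?_, ?_⟩
  · rintro x ⟨s, hs, hx1, hx2, hx3⟩
    have hsV : ∀ v ∈ s, v ∈ verts X := fun v hv => ⟨s, hs, hv⟩
    refine ⟨⟨s.image σ, ⟨s, hs, rfl⟩, ?_, ?_, ?_⟩, ?_⟩
    · intro w
      unfold push
      split_ifs
      · exact hx1 _
      · exact le_rfl
    · intro w hw
      unfold push
      split_ifs with hc
      · apply hx2
        intro h1
        apply hw
        rw [← hc.2]
        exact Finset.mem_image_of_mem σ h1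
      · rfl
    · rw [Finset.sum_image (injOn_of_left h hs), ← hx3]
      exact Finset.sum_congr rfl (fun v hv => hpush x v (hsV v hv))
    · funext v
      by_cases hv : v ∈ verts X
      · rw [hpull _ v hv, hpush x v hv]
      · unfold pull
        rw [if_neg hv]
        exact (hx2 v (fun h1 => hv (hsV v h1))).symm
  · rintro y ⟨t, ⟨s, hs, rfl⟩, hy1, hy2, hy3⟩
    have hsV : ∀ v ∈ s, v ∈ verts X := fun v hv => ⟨s, hs, hv⟩
    refine ⟨⟨s, hs, ?_, ?_, ?_⟩, ?_⟩
    · intro v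
      unfold pull
      split_ifs
      · exact hy1 _
      · exact le_rfl
    · intro v hv
      unfold pull
      split_ifs with hc
      · apply hy2
        intro h1
        obtain ⟨u, hu, hu2⟩ := Finset.mem_image.1 h1
        apply hv
        have h2 := hV v hc
        rw [← hu2, hV u (hsV u hu)] at h2
        rw [← h2]
        exact hu
      · rfl
    · rw [Finset.sum_image (injOn_of_left h hs)] at hy3
      rw [← hy3]
      exact Finset.sum_congr rfl (fun v hv => hpull y v (hsV v hv))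
    · funext w
      unfold push
      split_ifs with hc
      · rw [hpull _ _ hc.1, hc.2]
      · symm
        apply hy2
        intro h1
        obtain ⟨u, hu, hu2⟩ := Finset.mem_image.1 h1
        apply hc
        rw [← hu2, hV u (hsV u hu)]
        exact ⟨hsV u hu, rfl⟩
  · apply plOn_of_coord
    intro w
    by_cases hc : τ w ∈ verts X ∧ σ (τ w) = w
    · refine ⟨ContinuousLinearMap.proj (τ w), fun x => ?_⟩
      unfold push
      rw [if_pos hc]
      rfl
    · refine ⟨0, fun x => ?_⟩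
      unfold push
      rw [if_neg hc]
      rfl
  · apply plOn_of_coord
    intro v
    by_cases hc : v ∈ verts X
    · refine ⟨ContinuousLinearMap.proj (σ v), fun x => ?_⟩
      unfold pull
      rw [if_pos hc]
      rfl
    · refine ⟨0, fun x => ?_⟩
      unfold pull
      rw [if_neg hc]
      rfl

theorem bd_image (F : Finset ℕ) (σ : ℕ → ℕ) (h : Set.InjOn σ (F : Set ℕ)) :
    {t | ∃ s ∈ bd F, t = s.image σ} = bd (F.image σ) := by
  ext t
  constructor
  · rintro ⟨s, ⟨x, hx, rfl⟩, rfl⟩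
    exact ⟨σ x, Finset.mem_image_of_mem σ hx, image_erase_of_injOn h hx⟩
  · rintro ⟨y, hy, rfl⟩
    obtain ⟨x, hx, rfl⟩ := Finset.mem_image.1 hy
    exact ⟨F.erase x, ⟨x, hx, rfl⟩, (image_erase_of_injOn h hx).symm⟩

theorem fs_sphere3 : fs sphere3 = bd (Finset.range 5) := by
  ext t
  constructor
  · rintro ⟨F, hF, rfl⟩
    simp only [sphere3, List.mem_cons, List.not_mem_nil, or_false] at hF
    rcases hF with rfl | rfl | rfl | rfl | rfl
    · exact ⟨0, by decide, by decide⟩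
    · exact ⟨1, by decide, by decide⟩
    · exact ⟨2, by decide, by decide⟩
    · exact ⟨3, by decide, by decide⟩
    · exact ⟨4, by decide, by decide⟩
  · rintro ⟨x, hx, rfl⟩
    rw [Finset.mem_range] at hx
    interval_cases x
    · exact ⟨[1, 2, 3, 4], by decide, by decide⟩
    · exact ⟨[0, 2, 3, 4], by decide, by decide⟩
    · exact ⟨[0, 1, 3, 4], by decide, by decide⟩
    · exact ⟨[0, 1, 2, 4], by decide, by decide⟩
    · exact ⟨[0, 1, 2, 3], by decide, by decide⟩

theorem sph_bd (F : Finset ℕ) (hF : F.card = 5) : Sph (bd F) := by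
  classical
  have e := F.equivFinOfCardEq hF
  obtain ⟨σ, hσ⟩ : ∃ σ : ℕ → ℕ, ∀ v (hv : v ∈ F), σ v = (e ⟨v, hv⟩ : ℕ) :=
    ⟨fun v => if hv : v ∈ F then (e ⟨v, hv⟩ : ℕ) else 0, fun v hv => by simp only [dif_pos hv]⟩
  obtain ⟨τ, hτ⟩ : ∃ τ : ℕ → ℕ, ∀ i (hi : i < 5), τ i = (e.symm ⟨i, hi⟩ : ℕ) :=
    ⟨fun i => if hi : i < 5 then (e.symm ⟨i, hi⟩ : ℕ) else 0, fun i hi => by
      simp only [dif_pos hi]⟩
  have h1 : ∀ v ∈ F, τ (σ v) = v := by
    intro v hv
    rw [hσ v hv, hτ _ (e ⟨v, hv⟩).2]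
    simp
  have h2 : ∀ s ∈ bd F, ∀ v ∈ s, τ (σ v) = v := by
    rintro s ⟨x, hx, rfl⟩ v hv
    exact h1 v (Finset.mem_of_mem_erase hv)
  have hinj : Set.InjOn σ (F : Set ℕ) := by
    intro u hu v hv huv
    rw [← h1 u (Finset.mem_coe.1 hu), ← h1 v (Finset.mem_coe.1 hv), huv]
  have h3 : F.image σ = Finset.range 5 := by
    apply Finset.eq_of_subset_of_card_le
    · intro w hw
      obtain ⟨v, hv, rfl⟩ := Finset.mem_image.1 hw
      rw [hσ v hv]
      exact Finset.mem_range.2 (e ⟨v, hv⟩).2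
    · rw [Finset.card_image_of_injOn hinj, hF, Finset.card_range]
  have h4 := relabel (bd F) σ τ h2
  rw [bd_image F σ hinj, h3, ← fs_sphere3] at h4
  exact ⟨_, _, h4⟩

/-- Links commute with relabelling. -/
theorem lk_image (X : Set (Finset ℕ)) (σ τ : ℕ → ℕ) (h : ∀ s ∈ X, ∀ v ∈ s, τ (σ v) = v)
    {v : ℕ} (hv : v ∈ verts X) :
    lk (σ v) {t | ∃ s ∈ X, t = s.image σ} = {t | ∃ s ∈ lk v X, t = s.image σ} := by
  obtain ⟨s0, hs0, hv0⟩ := hv
  ext t
  constructor
  · rintro ⟨t', ⟨s, hs, rfl⟩, h1, rfl⟩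
    obtain ⟨u, hu, hu2⟩ := Finset.mem_image.1 h1
    have h2 : u = v := by
      rw [← h s hs u hu, hu2, h s0 hs0 v hv0]
    subst h2
    exact ⟨s.erase u, ⟨s, hs, hu, rfl⟩, (image_erase_of_injOn (injOn_of_left h hs) hu).symm⟩
  · rintro ⟨t', ⟨s, hs, h1, rfl⟩, rfl⟩
    exact ⟨s.image σ, ⟨s, hs, rfl⟩, Finset.mem_image_of_mem σ h1,
      image_erase_of_injOn (injOn_of_left h hs) h1⟩

/-- Relabelling preserves the property that all links are spheres. -/
theorem lks_image {bb : Bool} (X : Set (Finset ℕ)) (σ τ : ℕ → ℕ)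
    (h : ∀ s ∈ X, ∀ v ∈ s, τ (σ v) = v)
    (hX : Lks bb X) : Lks bb {t | ∃ s ∈ X, t = s.image σ} := by
  rintro w ⟨t, ⟨s, hs, rfl⟩, hw⟩
  obtain ⟨v, hv, rfl⟩ := Finset.mem_image.1 hw
  rw [lk_image X σ τ h ⟨s, hs, hv⟩]
  have h1 : ∀ s ∈ lk v X, ∀ u ∈ s, τ (σ u) = u := by
    rintro t ⟨s', hs', hv', rfl⟩ u hu
    exact h s' hs' u (Finset.mem_of_mem_erase hu)
  have h2 : PLh (lk v X) {t | ∃ s ∈ lk v X, t = s.image σ} := ⟨_, _, relabel (lk v X) σ τ h1⟩
  exact LkOK.of_plh h2.symm (hX v ⟨s, hs, hv⟩)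

end Pool.Agent.DT70
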