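import Pool.Agent.DT70.Relabel

/-! Module DT70/Seg. Paths in the realization of a complex.

* `single_mem`: the unit vector `Pi.single v 1` lies in `sx s` if v ∈ s.
* `exists_seg`: t ↦ (1 - t) x + t y (convexity of sx s, `convex_sx`).
* `star_homotopic`: the closed star St = {z ∈ Rz X | ∃ s ∈ X, v ∈ s ∧ z ∈ sx s} is star convex with
  respect to the point `Pi.single v 1` (convexity of sx s), hence contractible
  (`StarConvex.contractibleSpace`), hence simply connected; both paths factor through St; map the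
  homotopy by the inclusion St → Rz X (`Path.map`, `Path.Homotopic.map`).
* `path_conn`: let o be a vertex, X₁ the set of all s ∈ X which have a vertex reachable from o by a
  chain of edges, X₂ the other s ∈ X with s nonempty. Rz X₁, Rz X₂ are closed and disjoint (a
  common point would have a vertex in its support belonging to both) with union Rz X, so Rz X₂ is
  empty. Points of Rz X₁ are joined to o by segments. (X finite.)
-/

namespace Pool.Agent.DT70

theorem single_mem {s : Finset ℕ} {v : ℕ} (hv : v ∈ s) : (Pi.single v 1 : E) ∈ sx s := by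
  refine ⟨fun w => ?_, fun w hw => ?_, ?_⟩
  · by_cases h : w = v
    · rw [h, Pi.single_eq_same]
      exact zero_le_one
    · rw [Pi.single_eq_of_ne h]
  · refine Pi.single_eq_of_ne (fun h => ?_) _
    rw [h] at hw
    exact hw hv
  · rw [Finset.sum_eq_single v (fun w _ h => Pi.single_eq_of_ne h _) (fun h => absurd hv h)]
    exact Pi.single_eq_same v 1

/-- The point of the realization given by the vertex `v`. -/
noncomputable def pt (X : Set (Finset ℕ)) {v : ℕ} (hv : v ∈ verts X) : Rz X :=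
  ⟨Pi.single v 1, by obtain ⟨s, hs, h⟩ := hv; exact ⟨s, hs, single_mem h⟩⟩

theorem pos_mem {X : Set (Finset ℕ)} {s : Finset ℕ} {x : E} {v : ℕ} (hx : x ∈ sx s)
    (hv : 0 < x v) : v ∈ s := by
  by_contra h
  rw [hx.2.1 v h] at hv
  exact lt_irrefl _ hv

theorem exists_pos {X : Set (Finset ℕ)} (x : Rz X) : ∃ v, 0 < (x : E) v := by
  obtain ⟨s, hs, hx⟩ := x.2
  by_contra h
  push Not at h
  have h1 : ∑ v ∈ s, (x : E) v ≤ 0 := Finset.sum_nonpos fun v _ => h v
  rw [hx.2.2] at h1
  linarith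

/-- The segment between two points of a face. -/
private noncomputable def segP {X : Set (Finset ℕ)} {s : Finset ℕ} (hs : s ∈ X) {x y : Rz X}
    (hx : (x : E) ∈ sx s) (hy : (y : E) ∈ sx s) : Path x y where
  toFun t := ⟨(1 - (t : ℝ)) • (x : E) + (t : ℝ) • (y : E), s, hs,
    convex_sx s hx hy (sub_nonneg.2 t.2.2) t.2.1 (by ring)⟩
  continuous_toFun := by
    refine Continuous.subtype_mk ?_ _
    exact ((continuous_const.sub continuous_subtype_val).smul continuous_const).add
      (continuous_subtype_val.smul continuous_const)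
  source' := by
    apply Subtype.ext
    change (1 - ((0 : unitInterval) : ℝ)) • (x : E) + ((0 : unitInterval) : ℝ) • (y : E) = x
    simp
  target' := by
    apply Subtype.ext
    change (1 - ((1 : unitInterval) : ℝ)) • (x : E) + ((1 : unitInterval) : ℝ) • (y : E) = y
    simp

private theorem segP_apply {X : Set (Finset ℕ)} {s : Finset ℕ} (hs : s ∈ X) {x y : Rz X}
    (hx : (x : E) ∈ sx s) (hy : (y : E) ∈ sx s) (t : unitInterval) :
    ((segP hs hx hy t : Rz X) : E) = (1 - (t : ℝ)) • (x : E) + (t : ℝ) • (y : E) := rfl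

theorem exists_seg {X : Set (Finset ℕ)} {s : Finset ℕ} (hs : s ∈ X) {x y : Rz X}
    (hx : (x : E) ∈ sx s) (hy : (y : E) ∈ sx s) :
    ∃ γ : Path x y, ∀ t, ((γ t : Rz X) : E) ∈ sx s := by
  refine ⟨segP hs hx hy, fun t => ?_⟩
  rw [segP_apply]
  exact convex_sx s hx hy (sub_nonneg.2 t.2.2) t.2.1 (by ring)

/-- The segment from a point `x` with `0 < x v` to the vertex `v` stays in the open star of v
and inside one face. -/
theorem exists_seg_pos {X : Set (Finset ℕ)} {v : ℕ} (hv : v ∈ verts X) {x : Rz X}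
    (hx : 0 < (x : E) v) :
    ∃ γ : Path x (pt X hv), ∀ t, 0 < ((γ t : Rz X) : E) v := by
  obtain ⟨s, hs, hxs⟩ := x.2
  have hvs : v ∈ s := pos_mem (X := X) hxs hx
  have hpt : ((pt X hv : Rz X) : E) ∈ sx s := single_mem hvs
  refine ⟨segP hs hxs hpt, fun t => ?_⟩
  rw [segP_apply]
  have h1 : ((pt X hv : Rz X) : E) v = 1 := Pi.single_eq_same v 1
  rw [Pi.add_apply, Pi.smul_apply, Pi.smul_apply, h1, smul_eq_mul, smul_eq_mul, mul_one]
  have h2 := t.2.1
  have h3 := t.2.2
  rcases h3.lt_or_eq with h4 | h4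
  · have : 0 < (1 - (t : ℝ)) * (x : E) v := mul_pos (sub_pos.2 h4) hx
    linarith
  · rw [h4]
    norm_num

theorem star_homotopic {X : Set (Finset ℕ)} {v : ℕ} {x y : Rz X} (γ γ' : Path x y)
    (h : ∀ t, ∃ s ∈ X, v ∈ s ∧ ((γ t : Rz X) : E) ∈ sx s)
    (h' : ∀ t, ∃ s ∈ X, v ∈ s ∧ ((γ' t : Rz X) : E) ∈ sx s) :
    Path.Homotopic.Quotient.mk γ = Path.Homotopic.Quotient.mk γ' := by
  set St : Set E := {z | ∃ s ∈ X, v ∈ s ∧ z ∈ sx s} with hSt
  have hstar : StarConvex ℝ (Pi.single v 1 : E) St := by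
    rintro z ⟨s, hs, hv, hz⟩ a b ha hb hab
    exact ⟨s, hs, hv, convex_sx s (single_mem hv) hz ha hb hab⟩
  have hne : St.Nonempty := ⟨_, h 0⟩
  have : ContractibleSpace St := hstar.contractibleSpace hne
  have hι : ∀ z : St, (z : E) ∈ Rz X := by
    rintro ⟨z, s, hs, hv, hz⟩
    exact ⟨s, hs, hz⟩
  let ι : C(St, Rz X) := ⟨fun z => ⟨z, hι z⟩, continuous_subtype_val.subtype_mk _⟩
  have hx : (x : E) ∈ St := by
    have := h 0
    rwa [γ.source] at this
  have hy : (y : E) ∈ St := by
    have := h 1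
    rwa [γ.target] at this
  let mk' : (δ : Path x y) → (∀ t, ((δ t : Rz X) : E) ∈ St) →
      Path (⟨x, hx⟩ : St) ⟨y, hy⟩ := fun δ hδ =>
    { toFun := fun t => ⟨δ t, hδ t⟩
      continuous_toFun := (continuous_subtype_val.comp δ.continuous).subtype_mk _
      source' := Subtype.ext (congrArg (fun z : Rz X => (z : E)) δ.source)
      target' := Subtype.ext (congrArg (fun z : Rz X => (z : E)) δ.target) }
  have h1 := (SimplyConnectedSpace.paths_homotopic (mk' γ h) (mk' γ' h')).map ι
  exact Path.Homotopic.Quotient.eq.2 h1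

theorem path_conn {X : Set (Finset ℕ)} (hX : X.Finite) (h : IsConnected (Rz X)) :
    PathConnectedSpace (Rz X) := by
  obtain ⟨x₀, hx₀⟩ := h.nonempty
  set o : Rz X := ⟨x₀, hx₀⟩ with ho
  have : PreconnectedSpace (Rz X) := Subtype.preconnectedSpace h.isPreconnected
  have hj : ∀ s ∈ X, ∀ x y : Rz X, (x : E) ∈ sx s → (y : E) ∈ sx s → Joined x y := by
    intro s hs x y hx hy
    obtain ⟨γ, -⟩ := exists_seg hs hx hy
    exact ⟨γ⟩
  have hcl : ∀ P : Finset ℕ → Prop,
      IsClosed {z : Rz X | ∃ s ∈ X, P s ∧ (z : E) ∈ sx s} := by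
    intro P
    have e : {z : Rz X | ∃ s ∈ X, P s ∧ (z : E) ∈ sx s} =
        ⋃ s ∈ {s ∈ X | P s}, (fun z : Rz X => (z : E)) ⁻¹' sx s := by
      ext z
      simp only [Set.mem_ofPred_eq, Set.mem_iUnion, Set.mem_preimage, exists_prop, and_assoc]
    rw [e]
    exact (hX.subset (Set.sep_subset _ _)).isClosed_biUnion fun s _ =>
      (isClosed_sx s).preimage continuous_subtype_val
  have h1 : pathComponent o = {z : Rz X | ∃ s ∈ X, (∃ w : Rz X, (w : E) ∈ sx s ∧ Joined o w) ∧
      (z : E) ∈ sx s} := by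
    ext z
    constructor
    · intro hz
      obtain ⟨s, hs, hzs⟩ := z.2
      exact ⟨s, hs, ⟨z, hzs, hz⟩, hzs⟩
    · rintro ⟨s, hs, ⟨w, hw, how⟩, hz⟩
      exact how.trans (hj s hs w z hw hz)
  have h2 : (pathComponent o)ᶜ = {z : Rz X | ∃ s ∈ X,
      (¬ ∃ w : Rz X, (w : E) ∈ sx s ∧ Joined o w) ∧ (z : E) ∈ sx s} := by
    ext z
    constructor
    · intro hz
      obtain ⟨s, hs, hzs⟩ := z.2
      refine ⟨s, hs, ?_, hzs⟩
      rintro ⟨w, hw, how⟩
      exact hz (how.trans (hj s hs w z hw hzs))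
    · rintro ⟨s, hs, hns, hz⟩ hz'
      exact hns ⟨z, hz, hz'⟩
  have h3 : IsClopen (pathComponent o) := by
    refine ⟨?_, ?_⟩
    · rw [h1]
      exact hcl _
    · rw [← isClosed_compl_iff, h2]
      exact hcl _
  have h4 := h3.eq_univ ⟨o, mem_pathComponent_self o⟩
  have h5 : ∀ z : Rz X, Joined o z := by
    intro z
    have : z ∈ pathComponent o := by
      rw [h4]
      exact Set.mem_univ z
    exact this
  exact ⟨⟨o⟩, fun x y => (h5 x).symm.trans (h5 y)⟩

end Pool.Agent.DT70
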