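import Pool.Agent.DT70.Maps

/-! Module DT70/Star. Starring a facet is a PL homeomorphism.

`star_iso`: let n = F.card ≥ 1, c a new vertex. Define
  φ x w = 0 if w = c;  x w + x c / n if w ∈ F;  x w otherwise     (linear, `plOn_of_coord`)
  ψ y w = n * m y if w = c;  y w - m y if w ∈ F;  y w otherwise,  m y = min over F of y.
φ maps Rz (st X F c) to Rz X: if x ∈ sx s with s ∈ X, s ≠ F then x c = 0 and φ x = x; if
x ∈ sx (insert c (F.erase u)) then φ x vanishes outside F, is nonnegative and has sum
sum_{F.erase u} x + x c = 1.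
ψ maps Rz X to Rz (st X F c): y ∈ sx s, s ∈ X, s ≠ F: F is not a subset of s (hmax), so some
coordinate in F vanishes, m y = 0, y c = 0, ψ y = y. If y ∈ sx F: let the minimum be attained at
u ∈ F; then (ψ y) u = 0, ψ y ≥ 0, total sum = 1 - n m + n m = 1: ψ y ∈ sx (insert c (F.erase u)).
φ (ψ y) = y: coordinate c: 0 = y c; w ∈ F: y w - m + n m / n = y w.
ψ (φ x) = x: if x ∈ sx s, s ≠ F: φ x = x, m x = 0, fine. If x ∈ sx (insert c (F.erase u)):
(φ x) u = x c / n and all (φ x) w = x w + x c / n ≥ x c / n for w ∈ F, so m = x c / n. Fine.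
ψ is PL on every set: pieces indexed by u ∈ F: inequalities 0 ≤ y v - y u (v ∈ F); there
m y = y u, and ψ is given by the linear map with coordinates n * y u, y w - y u, y w. Build the
list of pieces as `F.toList.map ...`; affine maps from `ContinuousLinearMap.pi`.
It may be convenient to take `F.inf' hF y` for m y.

`lk_st_new`, `lk_st_mem`, `lk_st_not`: elementary set computations.
`lks_st`: let v be a vertex of st X F c. v = c: the link is bd F, `sph_bd` is not available here, so
it is a hypothesis hb. v ∈ F: lk v (st X F c) = st (lk v X) (F.erase v) c, PL homeomorphic to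
lk v X by `star_iso` (all members of lk v X have 4 elements, so F.erase v is maximal).
v ∉ F, v ≠ c: the link is lk v X, and v is a vertex of X.
-/

namespace Pool.Agent.DT70

/-- collapsing map -/
noncomputable def starPhi (F : Finset ℕ) (c : ℕ) (x : E) : E := fun w =>
  if w = c then 0 else if w ∈ F then x w + x c / F.card else x w

/-- starring map -/
noncomputable def starPsi (F : Finset ℕ) (hF : F.Nonempty) (c : ℕ) (y : E) : E := fun w =>
  if w = c then F.card * F.inf' hF y else if w ∈ F then y w - F.inf' hF y else y w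

theorem starPhi_pl (F : Finset ℕ) (c : ℕ) (S : Set E) : PLOn S (starPhi F c) := by
  apply plOn_of_coord
  intro w
  by_cases h1 : w = c
  · exact ⟨0, fun x => by simp [starPhi, h1]⟩
  · by_cases h2 : w ∈ F
    · refine ⟨ContinuousLinearMap.proj w + ((1 : ℝ) / F.card) • ContinuousLinearMap.proj c, ?_⟩
      intro x
      simp only [starPhi, if_neg h1, if_pos h2]
      simp [div_eq_inv_mul]
    · exact ⟨ContinuousLinearMap.proj w, fun x => by simp [starPhi, h1, h2]⟩

theorem star_inf (F : Finset ℕ) (hF : F.Nonempty) (y : E) {u : ℕ} (hu : u ∈ F)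
    (h : ∀ v ∈ F, y u ≤ y v) : F.inf' hF y = y u :=
  le_antisymm (Finset.inf'_le y hu) ((Finset.le_inf'_iff hF y).2 h)

/-- coordinate functional -/
noncomputable def starPr (w : ℕ) : E →L[ℝ] ℝ := ContinuousLinearMap.proj (R := ℝ) (φ := fun _ : ℕ => ℝ) w

theorem starPr_apply (w : ℕ) (x : E) : starPr w x = x w := rfl

/-- the linear branch of the starring map -/
noncomputable def starLin (F : Finset ℕ) (c u : ℕ) : E →L[ℝ] E :=
  ContinuousLinearMap.pi (fun w => if w = c then (F.card : ℝ) • starPr u else
    if w ∈ F then starPr w - starPr u else starPr w)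

theorem starLin_eq (F : Finset ℕ) (hF : F.Nonempty) (c : ℕ) (y : E) {u : ℕ} (hu : u ∈ F)
    (h : ∀ v ∈ F, y u ≤ y v) : starPsi F hF c y = starLin F c u y := by
  funext w
  simp only [starPsi, starLin, ContinuousLinearMap.coe_pi', star_inf F hF y hu h]
  split_ifs <;> simp [starPr_apply]

theorem starPsi_pl (F : Finset ℕ) (hF : F.Nonempty) (c : ℕ) (S : Set E) :
    PLOn S (starPsi F hF c) := by
  refine ⟨F.toList.map (fun u => (F.toList.map (fun v =>
    (starPr v - starPr u).toContinuousAffineMap),
    (starLin F c u).toContinuousAffineMap)), ?_⟩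
  have key : ∀ (x : E) (u : ℕ),
      (∀ φ ∈ F.toList.map (fun v =>
        (starPr v - starPr u).toContinuousAffineMap), 0 ≤ φ x) ↔ ∀ v ∈ F, x u ≤ x v := by
    intro x u
    constructor
    · intro h v hv
      have := h _ (List.mem_map.2 ⟨v, Finset.mem_toList.2 hv, rfl⟩)
      simp [starPr_apply] at this
      exact this
    · intro h φ hφ
      obtain ⟨v, hv, rfl⟩ := List.mem_map.1 hφ
      have := h v (Finset.mem_toList.1 hv)
      simp [starPr_apply]
      exact this
  intro x _
  constructor
  · obtain ⟨u, hu, hu2⟩ := F.exists_min_image x hF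
    refine ⟨_, List.mem_map.2 ⟨u, Finset.mem_toList.2 hu, rfl⟩, ?_⟩
    exact (key x u).2 hu2
  · intro q hq
    obtain ⟨u, hu, rfl⟩ := List.mem_map.1 hq
    intro h
    exact starLin_eq F hF c x (Finset.mem_toList.1 hu) ((key x u).1 h)

theorem star_iso (X : Set (Finset ℕ)) (F : Finset ℕ) (c : ℕ) (hF : F.Nonempty) (hFX : F ∈ X)
    (hmax : ∀ s ∈ X, F ⊆ s → s = F) (hc : ∀ s ∈ X, c ∉ s) :
    PLh (st X F c) X := by
  have hcF : c ∉ F := hc F hFX
  have hn : (0 : ℝ) < F.card := by exact_mod_cast hF.card_pos
  -- points in other facets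
  have other : ∀ s ∈ X, s ≠ F → ∀ x ∈ sx s, F.inf' hF x = 0 ∧ x c = 0 := by
    intro s hs hsF x hx
    have h1 : ¬ F ⊆ s := fun h => hsF (hmax s hs h)
    rw [Finset.not_subset] at h1
    obtain ⟨u, hu, hus⟩ := h1
    have h2 : x u = 0 := hx.2.1 u hus
    constructor
    · rw [star_inf F hF x hu (fun v _ => by rw [h2]; exact hx.1 v), h2]
    · exact hx.2.1 c (hc s hs)
  have otherPhi : ∀ s ∈ X, s ≠ F → ∀ x ∈ sx s, starPhi F c x = x := by
    intro s hs hsF x hx
    obtain ⟨-, h0⟩ := other s hs hsF x hx
    funext w
    simp only [starPhi, h0]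
    split_ifs with h1 h2
    · rw [h1, h0]
    · simp
    · rfl
  have otherPsi : ∀ s ∈ X, s ≠ F → ∀ x ∈ sx s, starPsi F hF c x = x := by
    intro s hs hsF x hx
    obtain ⟨hm, h0⟩ := other s hs hsF x hx
    funext w
    simp only [starPsi, hm]
    split_ifs with h1 h2
    · rw [h1, h0]; simp
    · simp
    · rfl
  refine ⟨starPhi F c, starPsi F hF c, ?_, ?_, starPhi_pl F c _, starPsi_pl F hF c _⟩
  · rintro x ⟨s, hs | ⟨u, hu, rfl⟩, hx⟩
    · rw [otherPhi s hs.1 hs.2 x hx, otherPsi s hs.1 hs.2 x hx]
      exact ⟨⟨s, hs.1, hx⟩, rfl⟩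
    · obtain ⟨hx1, hx2, hx3⟩ := hx
      have hcu : c ∉ F.erase u := fun h => hcF (Finset.mem_of_mem_erase h)
      rw [Finset.sum_insert hcu] at hx3
      have hxu : x u = 0 := by
        apply hx2
        rw [Finset.mem_insert, not_or]
        refine ⟨?_, Finset.notMem_erase u F⟩
        rintro rfl
        exact hcF hu
      have hsum : ∑ v ∈ F, x v = 1 - x c := by
        rw [← Finset.sum_erase_add F x hu, hxu]
        linarith
      have huc : u ≠ c := by rintro rfl; exact hcF hu
      constructor
      · refine ⟨F, hFX, ?_, ?_, ?_⟩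
        · intro w
          simp only [starPhi]
          split_ifs with h1 h2
          · exact le_refl _
          · have := hx1 w
            have := hx1 c
            positivity
          · exact hx1 w
        · intro w hw
          simp only [starPhi, if_neg hw]
          split_ifs with h1
          · rfl
          · apply hx2
            rw [Finset.mem_insert, not_or]
            exact ⟨h1, fun h => hw (Finset.mem_of_mem_erase h)⟩
        · have : ∀ w ∈ F, starPhi F c x w = x w + x c / F.card := by
            intro w hw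
            have hwc : w ≠ c := by rintro rfl; exact hcF hw
            simp only [starPhi, if_neg hwc, if_pos hw]
          rw [Finset.sum_congr rfl this, Finset.sum_add_distrib, hsum, Finset.sum_const,
            nsmul_eq_mul]
          field_simp
          ring
      · have hin : F.inf' hF (starPhi F c x) = x c / F.card := by
          rw [star_inf F hF (starPhi F c x) hu]
          · simp only [starPhi, if_neg huc, if_pos hu, hxu, zero_add]
          · intro v hv
            have hvc : v ≠ c := by rintro rfl; exact hcF hv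
            simp only [starPhi, if_neg huc, if_pos hu, if_neg hvc, if_pos hv, hxu, zero_add]
            have := hx1 v
            linarith
        funext w
        simp only [starPsi, hin]
        split_ifs with h1 h2
        · rw [h1]; field_simp
        · simp only [starPhi, if_neg h1, if_pos h2]; ring
        · simp only [starPhi, if_neg h1, if_neg h2]
  · rintro y ⟨s, hs, hy⟩
    by_cases hsF : s = F
    · subst hsF
      obtain ⟨hy1, hy2, hy3⟩ := hy
      obtain ⟨u, hu, hu2⟩ := s.exists_min_image y hF
      have hm : s.inf' hF y = y u := star_inf s hF y hu hu2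
      have hcu : c ∉ s.erase u := fun h => hcF (Finset.mem_of_mem_erase h)
      constructor
      · refine ⟨insert c (s.erase u), Or.inr ⟨u, hu, rfl⟩, ?_, ?_, ?_⟩
        · intro w
          simp only [starPsi, hm]
          split_ifs with h1 h2
          · have := hy1 u
            positivity
          · have := hu2 w h2
            linarith
          · exact hy1 w
        · intro w hw
          rw [Finset.mem_insert, not_or, Finset.mem_erase, not_and_or, not_not] at hw
          simp only [starPsi, hm, if_neg hw.1]
          split_ifs with h2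
          · rcases hw.2 with h | h
            · rw [h]; ring
            · exact absurd h2 h
          · exact hy2 w h2
        · rw [Finset.sum_insert hcu]
          have h1 : starPsi s hF c y c = s.card * y u := by
            simp only [starPsi, hm, if_true]
          have h2 : ∀ w ∈ s.erase u, starPsi s hF c y w = y w - y u := by
            intro w hw
            have hws := Finset.mem_of_mem_erase hw
            have hwc : w ≠ c := by rintro rfl; exact hcF hws
            simp only [starPsi, hm, if_neg hwc, if_pos hws]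
          rw [h1, Finset.sum_congr rfl h2, Finset.sum_sub_distrib, Finset.sum_const,
            nsmul_eq_mul, Finset.card_erase_of_mem hu]
          have h3 : ∑ v ∈ s.erase u, y v = 1 - y u := by
            rw [← hy3, ← Finset.sum_erase_add s y hu]
            ring
          rw [h3, Nat.cast_sub (Finset.one_le_card.2 hF)]
          push_cast
          ring
      · funext w
        have h1 : starPsi s hF c y c = s.card * y u := by
          simp only [starPsi, hm, if_true]
        simp only [starPhi, h1]
        split_ifs with h2 h3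
        · rw [h2, hy2 c hcF]
        · simp only [starPsi, hm, if_neg h2, if_pos h3]
          field_simp
          ring
        · simp only [starPsi, if_neg h2, if_neg h3]
    · rw [otherPsi s hs hsF y hy, otherPhi s hs hsF y hy]
      exact ⟨⟨s, Or.inl ⟨hs, hsF⟩, hy⟩, rfl⟩

theorem lk_st_new (X : Set (Finset ℕ)) (F : Finset ℕ) (c : ℕ) (hFX : F ∈ X)
    (hc : ∀ s ∈ X, c ∉ s) : lk c (st X F c) = bd F := by
  have hcF : c ∉ F := hc F hFX
  ext t
  constructor
  · rintro ⟨s, hs | ⟨x, hx, rfl⟩, hcs, rfl⟩
    · exact absurd hcs (hc s hs.1)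
    · refine ⟨x, hx, ?_⟩
      rw [Finset.erase_insert]
      exact fun h => hcF (Finset.mem_of_mem_erase h)
  · rintro ⟨x, hx, rfl⟩
    refine ⟨insert c (F.erase x), Or.inr ⟨x, hx, rfl⟩, Finset.mem_insert_self _ _, ?_⟩
    rw [Finset.erase_insert]
    exact fun h => hcF (Finset.mem_of_mem_erase h)

theorem lk_st_mem (X : Set (Finset ℕ)) (F : Finset ℕ) (c v : ℕ) (hFX : F ∈ X)
    (hc : ∀ s ∈ X, c ∉ s) (hv : v ∈ F) : lk v (st X F c) = st (lk v X) (F.erase v) c := by
  have hcF : c ∉ F := hc F hFX
  have hvc : v ≠ c := by rintro rfl; exact hcF hv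
  have e1 : ∀ x : ℕ, (insert c (F.erase x)).erase v = insert c ((F.erase v).erase x) := by
    intro x
    rw [Finset.erase_insert_of_ne hvc.symm, Finset.erase_right_comm]
  ext t
  constructor
  · rintro ⟨s, hs | ⟨x, hx, rfl⟩, hvs, rfl⟩
    · refine Or.inl ⟨⟨s, hs.1, hvs, rfl⟩, ?_⟩
      intro h
      apply hs.2
      rw [← Finset.insert_erase hvs, h, Finset.insert_erase hv]
    · refine Or.inr ⟨x, ?_, e1 x⟩
      rw [Finset.mem_erase]
      refine ⟨?_, hx⟩
      rintro rfl
      rw [Finset.mem_insert] at hvs
      rcases hvs with h | h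
      · exact hvc h
      · exact Finset.notMem_erase _ _ h
  · rintro (⟨⟨s, hs, hvs, rfl⟩, hne⟩ | ⟨x, hx, rfl⟩)
    · refine ⟨s, Or.inl ⟨hs, ?_⟩, hvs, rfl⟩
      rintro rfl
      exact hne rfl
    · rw [Finset.mem_erase] at hx
      refine ⟨insert c (F.erase x), Or.inr ⟨x, hx.2, rfl⟩, ?_, (e1 x).symm⟩
      rw [Finset.mem_insert, Finset.mem_erase]
      exact Or.inr ⟨hx.1.symm, hv⟩

theorem lk_st_not (X : Set (Finset ℕ)) (F : Finset ℕ) (c v : ℕ) (hv : v ∉ F) (hvc : v ≠ c) :
    lk v (st X F c) = lk v X := by
  ext t
  constructor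
  · rintro ⟨s, hs | ⟨x, hx, rfl⟩, hvs, rfl⟩
    · exact ⟨s, hs.1, hvs, rfl⟩
    · exfalso
      rw [Finset.mem_insert] at hvs
      rcases hvs with h | h
      · exact hvc h
      · exact hv (Finset.mem_of_mem_erase h)
  · rintro ⟨s, hs, hvs, rfl⟩
    refine ⟨s, Or.inl ⟨hs, ?_⟩, hvs, rfl⟩
    rintro rfl
    exact hv hvs

/-- Starring a facet of a pure 4-dimensional complex preserves the property that all links are
spheres. -/
theorem lks_st {bb : Bool} (X : Set (Finset ℕ)) (F : Finset ℕ) (c : ℕ)
    (hX : ∀ s ∈ X, s.card = 5)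
    (hFX : F ∈ X) (hc : ∀ s ∈ X, c ∉ s) (hb : Sph (bd F)) (hL : Lks bb X) :
    Lks bb (st X F c) := by
  intro v hv
  by_cases hvc : v = c
  · subst hvc
    rw [lk_st_new X F v hFX hc]
    exact Or.inl hb
  · by_cases hvF : v ∈ F
    · rw [lk_st_mem X F c v hFX hc hvF]
      have h1 : PLh (st (lk v X) (F.erase v) c) (lk v X) := by
        apply star_iso
        · rw [← Finset.card_pos, Finset.card_erase_of_mem hvF, hX F hFX]
          norm_num
        · exact ⟨F, hFX, hvF, rfl⟩
        · rintro s ⟨t, ht, hvt, rfl⟩ hsub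
          refine (Finset.eq_of_subset_of_card_le hsub ?_).symm
          rw [Finset.card_erase_of_mem hvF, Finset.card_erase_of_mem hvt, hX F hFX, hX t ht]
        · rintro s ⟨t, ht, hvt, rfl⟩ h
          exact hc t ht (Finset.mem_of_mem_erase h)
      exact LkOK.of_plh h1 (hL v ⟨F, hFX, hvF⟩)
    · rw [lk_st_not X F c v hvF hvc]
      apply hL
      obtain ⟨s, hs | ⟨x, hx, rfl⟩, hvs⟩ := hv
      · exact ⟨s, hs.1, hvs⟩
      · exfalso
        rw [Finset.mem_insert] at hvs
        rcases hvs with h | h
        · exact hvc h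
        · exact hvF (Finset.mem_of_mem_erase h)

end Pool.Agent.DT70
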