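import Pool.Agent.DT70.Norm

/-! Module DT70/SumAlg. The edge path group of a connected sum (pure algebra).

Put X₁ = K₀ ∪ {a}, X₂ = L₀ ∪ {b}, T = fs (tube (a ++ (p ++ b))), M = K₀ ∪ (T ∪ L₀), W the set of
vertices of the list a ++ (p ++ b). Labels: vertices of K₀ are not in p, b, L₀; vertices of L₀ are
not in p, a, K₀ (h1, h2, h3); vertices of members of T are in the list (`tube_mem`).
(R1) L restricted to X₁ is a cocycle on X₁: for a face of K₀ clear; for u, v, w ∈ a: L u v = 1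
    etc.: each pair u, v ∈ a lies in a member of T (a minus a third vertex is contained in a member of
    T by `bd_left`), so `triv` gives L u v = L v w = L u w = 1. It is trivial on a. Same for X₂, b.
(R2) given cocycles c₁ on X₁ trivial on a and c₂ on X₂ trivial on b, let c u w = c₁ u w if u and w are
    vertices of K₀ or in a, c u w = c₂ u w if u and w are vertices of L₀ or in b, c u w = 1 otherwise
    (classical). It is a cocycle on M: on faces of K₀ it is c₁, on faces of L₀ it is c₂, on members of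
    T it is 1 (two vertices of a: c₁ trivial on a; two of b; mixed or in p: 1). It is trivial on W.
k, j: apply h1U.univ to L on X₁ and h2U.univ to L on X₂: k (L₁ u w) = (d u)⁻¹ * L u w * d w
with d = 1 on a, similarly j with e = 1 on b. ρ, q: apply hU.univ to the cocycle of (R2) for
(L₁, 1) and (1, L₂), with gauges f, f' equal to 1 on W.
Then ρ (k (L₁ u w)) = (φ u)⁻¹ * L₁ u w * φ w for edges of X₁, φ u = f u * ρ (d u), φ = 1 on a;
by induction over EP X₁ L₁ u w g: ρ (k g) = (φ u)⁻¹ * g * φ w, so ρ (k g) = g by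
`UnivT.gen` at a vertex of a. Same for q ∘ j. q (k g) = (φ' u)⁻¹ * φ' w in the same way, = 1 for
u = w ∈ a.
Generation: N = closure. D u = d u for u a vertex of K₀, e u for u a vertex of L₀, 1 otherwise
(so D = 1 on W). For every edge u, w of M: (D u)⁻¹ * L u w * D w ∈ N (face of K₀: k (L₁ u w);
face of L₀: j (L₂ u w); member of T: D = 1 and L u w = 1). By induction over EP M L u w g:
(D u)⁻¹ * g * D w ∈ N; take u = w ∈ W.
-/

namespace Pool.Agent.DT70

open Classical in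
/-- the glued cocycle -/
private noncomputable def sag (VK VL : ℕ → Prop) {Γ : Type} [Group Γ] (c₁ c₂ : ℕ → ℕ → Γ)
    (u w : ℕ) : Γ :=
  if VK u ∧ VK w then c₁ u w else if VL u ∧ VL w then c₂ u w else 1

private theorem sag_K {VK VL : ℕ → Prop} {Γ : Type} [Group Γ] {c₁ c₂ : ℕ → ℕ → Γ}
    {u w : ℕ} (hu : VK u) (hw : VK w) : sag VK VL c₁ c₂ u w = c₁ u w := if_pos ⟨hu, hw⟩

private theorem sag_L {VK VL : ℕ → Prop} {Γ : Type} [Group Γ] {c₁ c₂ : ℕ → ℕ → Γ}
    (hd : ∀ u, VK u → ¬ VL u) {u w : ℕ} (hu : VL u) (hw : VL w) :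
    sag VK VL c₁ c₂ u w = c₂ u w := by
  unfold sag
  rw [if_neg (fun h => hd u h.1 hu), if_pos ⟨hu, hw⟩]

private theorem sag_one {VK VL : ℕ → Prop} {Γ : Type} [Group Γ] {c₁ c₂ : ℕ → ℕ → Γ}
    {u w : ℕ} (h1 : VK u → VK w → c₁ u w = 1) (h2 : VL u → VL w → c₂ u w = 1) :
    sag VK VL c₁ c₂ u w = 1 := by
  unfold sag
  split_ifs with h h'
  · exact h1 h.1 h.2
  · exact h2 h'.1 h'.2
  · rfl

/-- induction over edge paths -/
private theorem ep_conj {X : Set (Finset ℕ)} {G Γ : Type} [Group G] [Group Γ] {L : ℕ → ℕ → G}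
    (θ : G →* Γ) (N : Subgroup Γ) (D : ℕ → Γ)
    (h : ∀ s ∈ X, ∀ u ∈ s, ∀ w ∈ s, (D u)⁻¹ * θ (L u w) * D w ∈ N) {u w : ℕ} {g : G}
    (hg : EP X L u w g) : (D u)⁻¹ * θ g * D w ∈ N := by
  induction hg with
  | nil u =>
    rw [map_one, mul_one, inv_mul_cancel]
    exact N.one_mem
  | cons s hs hu hv _ ih =>
    have h1 := N.mul_mem (h s hs _ hu _ hv) ih
    rw [map_mul]
    convert h1 using 1
    group

/-- a homomorphism which is a gauge transformation of another one on the edges -/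
private theorem ep_eq {X : Set (Finset ℕ)} {G Γ : Type} [Group G] [Group Γ] {L : ℕ → ℕ → G}
    (θ η : G →* Γ) (φ : ℕ → Γ)
    (h : ∀ s ∈ X, ∀ u ∈ s, ∀ w ∈ s, θ (L u w) = (φ u)⁻¹ * η (L u w) * φ w) {u w : ℕ} {g : G}
    (hg : EP X L u w g) : θ g = (φ u)⁻¹ * η g * φ w := by
  induction hg with
  | nil u => rw [map_one, map_one, mul_one, inv_mul_cancel]
  | cons s hs hu hv _ ih =>
    rw [map_mul, map_mul, h s hs _ hu _ hv, ih]
    group

private theorem five_ne {a : List ℕ} (ha : a.length = 5) (hn : a.Nodup) (u v : ℕ) :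
    ∃ x ∈ a, x ≠ u ∧ x ≠ v := by
  have h1 : a.toFinset.card = 5 := by rw [List.toFinset_card_of_nodup hn, ha]
  have h2 : ((a.toFinset.erase u).erase v).Nonempty := by
    rw [← Finset.card_pos]
    have h3 := Finset.pred_card_le_card_erase (s := a.toFinset) (a := u)
    have h4 := Finset.pred_card_le_card_erase (s := a.toFinset.erase u) (a := v)
    omega
  obtain ⟨x, hx⟩ := h2
  rw [Finset.mem_erase, Finset.mem_erase, List.mem_toFinset] at hx
  exact ⟨x, hx.2.2, hx.2.1, hx.1⟩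

theorem sum_alg {K₀ L₀ : Set (Finset ℕ)} {a p b : List ℕ} (ha : a.length = 5)
    (hp : p.length = 5) (hb : b.length = 5) (hn : (a ++ (p ++ b)).Nodup)
    (h1 : ∀ s ∈ K₀, ∀ v ∈ s, v ∉ p ∧ v ∉ b) (h2 : ∀ s ∈ L₀, ∀ v ∈ s, v ∉ p ∧ v ∉ a)
    (h3 : ∀ s ∈ K₀, ∀ t ∈ L₀, ∀ v ∈ s, v ∉ t)
    {G₁ G₂ G : Type} [Group G₁] [Group G₂] [Group G] {L₁ : ℕ → ℕ → G₁} {L₂ : ℕ → ℕ → G₂}
    {L : ℕ → ℕ → G}
    (h1U : UnivT (K₀ ∪ {a.toFinset}) {v | v ∈ a.toFinset} G₁ L₁)
    (h2U : UnivT (L₀ ∪ {b.toFinset}) {v | v ∈ b.toFinset} G₂ L₂)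
    (hU : UnivT (K₀ ∪ (fs (tube (a ++ (p ++ b))) ∪ L₀)) {v | v ∈ a ++ (p ++ b)} G L) :
    ∃ (k : G₁ →* G) (j : G₂ →* G) (ρ : G →* G₁) (q : G →* G₂), (∀ x, ρ (k x) = x) ∧
      (∀ y, q (j y) = y) ∧ (∀ x, q (k x) = 1) ∧
      Subgroup.closure (Set.range k ∪ Set.range j) = ⊤ := by
  classical
  have hna : a.Nodup := (List.nodup_append.1 hn).1
  have hnpb : (p ++ b).Nodup := (List.nodup_append.1 hn).2.1
  have hnb : b.Nodup := (List.nodup_append.1 hnpb).2.1
  have hab : ∀ v ∈ a, v ∉ b := fun v hv hv' =>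
    (List.nodup_append.1 hn).2.2 v hv v (List.mem_append_right _ hv') rfl
  have hne : ∃ o, o ∈ a := by
    obtain ⟨x, hx, -⟩ := five_ne ha hna 0 0
    exact ⟨x, hx⟩
  have hneb : ∃ o, o ∈ b := by
    obtain ⟨x, hx, -⟩ := five_ne hb hnb 0 0
    exact ⟨x, hx⟩
  -- L is trivial on a and b
  have hLa : ∀ u ∈ a, ∀ v ∈ a, L u v = 1 := by
    intro u hu v hv
    obtain ⟨x, hx, hxu, hxv⟩ := five_ne ha hna u v
    obtain ⟨t, ht, hst⟩ := bd_left ha hp hb hn (a.toFinset.erase x)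
      ⟨x, List.mem_toFinset.2 hx, rfl⟩
    exact hU.triv t (Or.inr (Or.inl ht)) u
      (hst (Finset.mem_erase.2 ⟨hxu.symm, List.mem_toFinset.2 hu⟩)) v
      (hst (Finset.mem_erase.2 ⟨hxv.symm, List.mem_toFinset.2 hv⟩))
      (List.mem_append_left _ hu) (List.mem_append_left _ hv)
  have hLb : ∀ u ∈ b, ∀ v ∈ b, L u v = 1 := by
    intro u hu v hv
    obtain ⟨x, hx, hxu, hxv⟩ := five_ne hb hnb u v
    obtain ⟨t, ht, hst⟩ := bd_right ha hp hb hn (b.toFinset.erase x)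
      ⟨x, List.mem_toFinset.2 hx, rfl⟩
    exact hU.triv t (Or.inr (Or.inl ht)) u
      (hst (Finset.mem_erase.2 ⟨hxu.symm, List.mem_toFinset.2 hu⟩)) v
      (hst (Finset.mem_erase.2 ⟨hxv.symm, List.mem_toFinset.2 hv⟩))
      (List.mem_append_right _ (List.mem_append_right _ hu))
      (List.mem_append_right _ (List.mem_append_right _ hv))
  -- (R1)
  have hcoc1 : Coc (K₀ ∪ {a.toFinset}) L := by
    rintro s (hs | hs) u hu v hv w hw
    · exact hU.coc s (Or.inl hs) u hu v hv w hw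
    · rw [Set.mem_singleton_iff] at hs
      subst hs
      rw [List.mem_toFinset] at hu hv hw
      rw [hLa u hu v hv, hLa v hv w hw, hLa u hu w hw, mul_one]
  have hcoc2 : Coc (L₀ ∪ {b.toFinset}) L := by
    rintro s (hs | hs) u hu v hv w hw
    · exact hU.coc s (Or.inr (Or.inr hs)) u hu v hv w hw
    · rw [Set.mem_singleton_iff] at hs
      subst hs
      rw [List.mem_toFinset] at hu hv hw
      rw [hLb u hu v hv, hLb v hv w hw, hLb u hu w hw, mul_one]
  have htri1 : Triv (K₀ ∪ {a.toFinset}) {v | v ∈ a.toFinset} L := by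
    intro s _ u _ w _ hu hw
    exact hLa u (List.mem_toFinset.1 hu) w (List.mem_toFinset.1 hw)
  have htri2 : Triv (L₀ ∪ {b.toFinset}) {v | v ∈ b.toFinset} L := by
    intro s _ u _ w _ hu hw
    exact hLb u (List.mem_toFinset.1 hu) w (List.mem_toFinset.1 hw)
  -- (R2)
  set VK : ℕ → Prop := fun u => (∃ s ∈ K₀, u ∈ s) ∨ u ∈ a with hVK
  set VL : ℕ → Prop := fun u => (∃ s ∈ L₀, u ∈ s) ∨ u ∈ b with hVL
  have hdis : ∀ u, VK u → ¬ VL u := by
    rintro u (⟨s, hs, hu⟩ | hu) (⟨t, ht, hu'⟩ | hu')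
    · exact h3 s hs t ht u hu hu'
    · exact (h1 s hs u hu).2 hu'
    · exact (h2 t ht u hu').2 hu
    · exact hab u hu hu'
  have hVKW : ∀ u, u ∈ a ++ (p ++ b) → VK u → u ∈ a := by
    rintro u hu (⟨s, hs, hu'⟩ | hu')
    · rw [List.mem_append, List.mem_append] at hu
      rcases hu with hu | hu | hu
      · exact hu
      · exact absurd hu (h1 s hs u hu').1
      · exact absurd hu (h1 s hs u hu').2
    · exact hu'
  have hVLW : ∀ u, u ∈ a ++ (p ++ b) → VL u → u ∈ b := by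
    rintro u hu (⟨s, hs, hu'⟩ | hu')
    · rw [List.mem_append, List.mem_append] at hu
      rcases hu with hu | hu | hu
      · exact absurd hu (h2 s hs u hu').2
      · exact absurd hu (h2 s hs u hu').1
      · exact hu
    · exact hu'
  have hTW : ∀ s ∈ fs (tube (a ++ (p ++ b))), ∀ u ∈ s, u ∈ a ++ (p ++ b) := by
    rintro s ⟨F, hF, rfl⟩ u hu
    exact (tube_mem hn hF).2.2 u (List.mem_toFinset.1 hu)
  have hW1 : ∀ {Γ : Type} [Group Γ] (c₁ c₂ : ℕ → ℕ → Γ),
      Triv (K₀ ∪ {a.toFinset}) {v | v ∈ a.toFinset} c₁ →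
      Triv (L₀ ∪ {b.toFinset}) {v | v ∈ b.toFinset} c₂ →
      ∀ u ∈ a ++ (p ++ b), ∀ w ∈ a ++ (p ++ b), sag VK VL c₁ c₂ u w = 1 := by
    intro Γ _ c₁ c₂ ht1 ht2 u hu w hw
    apply sag_one
    · intro h h'
      have hu' := List.mem_toFinset.2 (hVKW u hu h)
      have hw' := List.mem_toFinset.2 (hVKW w hw h')
      exact ht1 a.toFinset (Or.inr rfl) u hu' w hw' hu' hw'
    · intro h h'
      have hu' := List.mem_toFinset.2 (hVLW u hu h)
      have hw' := List.mem_toFinset.2 (hVLW w hw h')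
      exact ht2 b.toFinset (Or.inr rfl) u hu' w hw' hu' hw'
  have hR2 : ∀ {Γ : Type} [Group Γ] (c₁ c₂ : ℕ → ℕ → Γ), Coc (K₀ ∪ {a.toFinset}) c₁ →
      Coc (L₀ ∪ {b.toFinset}) c₂ →
      Triv (K₀ ∪ {a.toFinset}) {v | v ∈ a.toFinset} c₁ →
      Triv (L₀ ∪ {b.toFinset}) {v | v ∈ b.toFinset} c₂ →
      Coc (K₀ ∪ (fs (tube (a ++ (p ++ b))) ∪ L₀)) (sag VK VL c₁ c₂) := by
    rintro Γ _ c₁ c₂ hc1 hc2 ht1 ht2 s (hs | hs | hs) u hu v hv w hw
    · have hu' : VK u := Or.inl ⟨s, hs, hu⟩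
      have hv' : VK v := Or.inl ⟨s, hs, hv⟩
      have hw' : VK w := Or.inl ⟨s, hs, hw⟩
      rw [sag_K hu' hv', sag_K hv' hw', sag_K hu' hw']
      exact hc1 s (Or.inl hs) u hu v hv w hw
    · have hu' := hTW s hs u hu
      have hv' := hTW s hs v hv
      have hw' := hTW s hs w hw
      rw [hW1 c₁ c₂ ht1 ht2 u hu' v hv', hW1 c₁ c₂ ht1 ht2 v hv' w hw',
        hW1 c₁ c₂ ht1 ht2 u hu' w hw', mul_one]
    · have hu' : VL u := Or.inl ⟨s, hs, hu⟩
      have hv' : VL v := Or.inl ⟨s, hs, hv⟩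
      have hw' : VL w := Or.inl ⟨s, hs, hw⟩
      rw [sag_L hdis hu' hv', sag_L hdis hv' hw', sag_L hdis hu' hw']
      exact hc2 s (Or.inl hs) u hu v hv w hw
  have hR2t : ∀ {Γ : Type} [Group Γ] (c₁ c₂ : ℕ → ℕ → Γ),
      Triv (K₀ ∪ {a.toFinset}) {v | v ∈ a.toFinset} c₁ →
      Triv (L₀ ∪ {b.toFinset}) {v | v ∈ b.toFinset} c₂ →
      Triv (K₀ ∪ (fs (tube (a ++ (p ++ b))) ∪ L₀)) {v | v ∈ a ++ (p ++ b)}
        (sag VK VL c₁ c₂) := by
    intro Γ _ c₁ c₂ ht1 ht2 s _ u _ w _ hu hw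
    exact hW1 c₁ c₂ ht1 ht2 u hu w hw
  have hone1 : ∀ {Γ : Type} [Group Γ], Coc (K₀ ∪ {a.toFinset}) (fun _ _ => (1 : Γ)) ∧
      Triv (K₀ ∪ {a.toFinset}) {v | v ∈ a.toFinset} (fun _ _ => (1 : Γ)) := by
    intro Γ _
    exact ⟨fun _ _ _ _ _ _ _ _ => mul_one _, fun _ _ _ _ _ _ _ _ => rfl⟩
  have hone2 : ∀ {Γ : Type} [Group Γ], Coc (L₀ ∪ {b.toFinset}) (fun _ _ => (1 : Γ)) ∧
      Triv (L₀ ∪ {b.toFinset}) {v | v ∈ b.toFinset} (fun _ _ => (1 : Γ)) := by
    intro Γ _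
    exact ⟨fun _ _ _ _ _ _ _ _ => mul_one _, fun _ _ _ _ _ _ _ _ => rfl⟩
  obtain ⟨k, d, hd1, hk⟩ := h1U.univ G L hcoc1 htri1
  obtain ⟨j, e, he1, hj⟩ := h2U.univ G L hcoc2 htri2
  obtain ⟨ρ, f, hf1, hρ⟩ := hU.univ G₁ (sag VK VL L₁ fun _ _ => 1)
    (hR2 _ _ h1U.coc hone2.1 h1U.triv hone2.2) (hR2t _ _ h1U.triv hone2.2)
  obtain ⟨q, f', hf1', hq⟩ := hU.univ G₂ (sag VK VL (fun _ _ => 1) L₂)
    (hR2 _ _ hone1.1 h2U.coc hone1.2 h2U.triv) (hR2t _ _ hone1.2 h2U.triv)
  -- values on the edges of the two pieces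
  have hρ1 : ∀ s ∈ K₀ ∪ {a.toFinset}, ∀ u ∈ s, ∀ w ∈ s, ρ (L u w) = (f u)⁻¹ * L₁ u w * f w := by
    rintro s (hs | hs) u hu w hw
    · rw [hρ s (Or.inl hs) u hu w hw, sag_K (Or.inl ⟨s, hs, hu⟩) (Or.inl ⟨s, hs, hw⟩)]
    · rw [Set.mem_singleton_iff] at hs
      subst hs
      have hu' := List.mem_toFinset.1 hu
      have hw' := List.mem_toFinset.1 hw
      rw [hLa u hu' w hw', h1U.triv a.toFinset (Or.inr rfl) u hu w hw hu hw,
        hf1 u (List.mem_append_left _ hu'), hf1 w (List.mem_append_left _ hw'), map_one]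
      simp
  have hq1 : ∀ s ∈ K₀ ∪ {a.toFinset}, ∀ u ∈ s, ∀ w ∈ s, q (L u w) = (f' u)⁻¹ * 1 * f' w := by
    rintro s (hs | hs) u hu w hw
    · rw [hq s (Or.inl hs) u hu w hw, sag_K (Or.inl ⟨s, hs, hu⟩) (Or.inl ⟨s, hs, hw⟩)]
    · rw [Set.mem_singleton_iff] at hs
      subst hs
      have hu' := List.mem_toFinset.1 hu
      have hw' := List.mem_toFinset.1 hw
      rw [hLa u hu' w hw',
        hf1' u (List.mem_append_left _ hu'), hf1' w (List.mem_append_left _ hw'), map_one]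
      simp
  have hq2 : ∀ s ∈ L₀ ∪ {b.toFinset}, ∀ u ∈ s, ∀ w ∈ s, q (L u w) = (f' u)⁻¹ * L₂ u w * f' w := by
    rintro s (hs | hs) u hu w hw
    · rw [hq s (Or.inr (Or.inr hs)) u hu w hw,
        sag_L hdis (Or.inl ⟨s, hs, hu⟩) (Or.inl ⟨s, hs, hw⟩)]
    · rw [Set.mem_singleton_iff] at hs
      subst hs
      have hu' := List.mem_toFinset.1 hu
      have hw' := List.mem_toFinset.1 hw
      rw [hLb u hu' w hw', h2U.triv b.toFinset (Or.inr rfl) u hu w hw hu hw,
        hf1' u (List.mem_append_right _ (List.mem_append_right _ hu')),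
        hf1' w (List.mem_append_right _ (List.mem_append_right _ hw')), map_one]
      simp
  obtain ⟨o, ho⟩ := hne
  obtain ⟨o', ho'⟩ := hneb
  refine ⟨k, j, ρ, q, ?_, ?_, ?_, ?_⟩
  · intro x
    have hx := h1U.gen o (List.mem_toFinset.2 ho) x
    have := ep_eq (ρ.comp k) (MonoidHom.id G₁) (fun u => f u * ρ (d u)) (fun s hs u hu w hw => by
      rw [MonoidHom.comp_apply, MonoidHom.id_apply, hk s hs u hu w hw, map_mul, map_mul, map_inv,
        hρ1 s hs u hu w hw]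
      group) hx
    rw [MonoidHom.comp_apply, MonoidHom.id_apply, hf1 o (List.mem_append_left _ ho),
      hd1 o (List.mem_toFinset.2 ho)] at this
    simpa using this
  · intro x
    have hx := h2U.gen o' (List.mem_toFinset.2 ho') x
    have := ep_eq (q.comp j) (MonoidHom.id G₂) (fun u => f' u * q (e u)) (fun s hs u hu w hw => by
      rw [MonoidHom.comp_apply, MonoidHom.id_apply, hj s hs u hu w hw, map_mul, map_mul, map_inv,
        hq2 s hs u hu w hw]
      group) hx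
    rw [MonoidHom.comp_apply, MonoidHom.id_apply,
      hf1' o' (List.mem_append_right _ (List.mem_append_right _ ho')),
      he1 o' (List.mem_toFinset.2 ho')] at this
    simpa using this
  · intro x
    have hx := h1U.gen o (List.mem_toFinset.2 ho) x
    have := ep_eq (q.comp k) (1 : G₁ →* G₂) (fun u => f' u * q (d u)) (fun s hs u hu w hw => by
      rw [MonoidHom.comp_apply, MonoidHom.one_apply, hk s hs u hu w hw, map_mul, map_mul, map_inv,
        hq1 s hs u hu w hw]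
      group) hx
    rw [MonoidHom.comp_apply, MonoidHom.one_apply, hf1' o (List.mem_append_left _ ho),
      hd1 o (List.mem_toFinset.2 ho)] at this
    simpa using this
  · rw [Subgroup.eq_top_iff']
    intro g
    set D : ℕ → G := fun u => if VK u then d u else if VL u then e u else 1 with hD
    have hDW : ∀ u ∈ a ++ (p ++ b), D u = 1 := by
      intro u hu
      simp only [hD]
      split_ifs with h h'
      · exact hd1 u (List.mem_toFinset.2 (hVKW u hu h))
      · exact he1 u (List.mem_toFinset.2 (hVLW u hu h'))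
      · rfl
    have hDK : ∀ u, VK u → D u = d u := fun u hu => if_pos hu
    have hDL : ∀ u, VL u → D u = e u := by
      intro u hu
      simp only [hD]
      rw [if_neg (fun h => hdis u h hu), if_pos hu]
    have hx := hU.gen o (List.mem_append_left _ ho) g
    have := ep_conj (MonoidHom.id G) (Subgroup.closure (Set.range k ∪ Set.range j)) D (by
      rintro s (hs | hs | hs) u hu w hw
      · rw [MonoidHom.id_apply, hDK u (Or.inl ⟨s, hs, hu⟩), hDK w (Or.inl ⟨s, hs, hw⟩),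
          ← hk s (Or.inl hs) u hu w hw]
        exact Subgroup.subset_closure (Or.inl ⟨_, rfl⟩)
      · have hu' := hTW s hs u hu
        have hw' := hTW s hs w hw
        rw [MonoidHom.id_apply, hDW u hu', hDW w hw',
          hU.triv s (Or.inr (Or.inl hs)) u hu w hw hu' hw']
        simp
      · rw [MonoidHom.id_apply, hDL u (Or.inl ⟨s, hs, hu⟩), hDL w (Or.inl ⟨s, hs, hw⟩),
          ← hj s (Or.inl hs) u hu w hw]
        exact Subgroup.subset_closure (Or.inr ⟨_, rfl⟩)) hx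
    rw [MonoidHom.id_apply, hDW o (List.mem_append_left _ ho)] at this
    simpa using this

/-- Algebraic conclusion. `hA`: the first sum has a trivial first factor, so its group is
isomorphic to `G₂` (j is onto by the closure condition, and injective by q ∘ j = id). `hK`: then the
group of the second sum is finite of the same order as G₂, q is onto, hence injective, and
q ∘ k = 1 gives k = 1, so G₁ is trivial by ρ ∘ k = id. -/
theorem sum_trivial {G₁ G₂ G G₁' G' : Type} [Group G₁] [Group G₂] [Group G] [Group G₁']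
    [Group G'] [Finite G₂] [Subsingleton G₁'] (e : G ≃* G')
    (h : ∃ (k : G₁ →* G) (j : G₂ →* G) (ρ : G →* G₁) (q : G →* G₂), (∀ x, ρ (k x) = x) ∧
      (∀ y, q (j y) = y) ∧ (∀ x, q (k x) = 1) ∧
      Subgroup.closure (Set.range k ∪ Set.range j) = ⊤)
    (h' : ∃ (k : G₁' →* G') (j : G₂ →* G') (ρ : G' →* G₁') (q : G' →* G₂),
      (∀ x, ρ (k x) = x) ∧ (∀ y, q (j y) = y) ∧ (∀ x, q (k x) = 1) ∧
      Subgroup.closure (Set.range k ∪ Set.range j) = ⊤) :
    Subsingleton G₁ := by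
  obtain ⟨k, j, ρ, q, hρk, hqj, hqk, -⟩ := h
  obtain ⟨k', j', ρ', q', -, hqj', -, htop⟩ := h'
  have hj'inj : Function.Injective j' := fun x y hxy => by
    rw [← hqj' x, ← hqj' y, hxy]
  have hj'surj : Function.Surjective j' := by
    rw [← MonoidHom.range_eq_top, eq_top_iff, ← htop, Subgroup.closure_le]
    rintro _ (⟨x, rfl⟩ | ⟨x, rfl⟩)
    · rw [Subsingleton.elim x 1, map_one]
      exact Subgroup.one_mem _
    · exact ⟨x, rfl⟩
  have e2 : G₂ ≃ G := (Equiv.ofBijective j' ⟨hj'inj, hj'surj⟩).trans e.symm.toEquiv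
  have hqsurj : Function.Surjective q := fun y => ⟨j y, hqj y⟩
  have hfin : Finite G := Finite.of_equiv _ e2
  have hqinj : Function.Injective q :=
    (Finite.injective_iff_surjective_of_equiv e2.symm).2 hqsurj
  refine ⟨fun x y => ?_⟩
  have hk1 : ∀ x, k x = 1 := fun x => hqinj (by rw [hqk, map_one])
  rw [← hρk x, ← hρk y, hk1 x, hk1 y]

end Pool.Agent.DT70
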