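import Pool.Agent.DT70.Star
import Pool.Agent.DT70.Relabel
import Pool.Agent.DT70.Tube

/-! Module DT70/Tower. The tube is an iterated facet starring.

`Good bb M F`: M ∪ {F} is a pure complex all of whose links are spheres, F is not in M.

`good_step`. Write F = [x0,x1,x2,x3,x4]. Then four F v is the list
[x0,x2,x3,x4,v], [x0,x1,x3,x4,v], [x0,x1,x2,x4,v], [x0,x1,x2,x3,v] and F.tail ++ [v] =
[x1,x2,x3,x4,v]. As sets,
  (M ∪ fs (four F v)) ∪ {(F.tail ++ [v]).toFinset} = st (M ∪ {F.toFinset}) F.toFinset v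
because F.toFinset is not in M. Lks: `lks_st` with `sph_bd`; PLh: `star_iso` (purity gives
maximality). notMem: members of M do not contain v, the four others contain x0, and
x0 is not in F.tail ++ [v].

`tower`: induction on c from the end (`List.reverseRecOn` or induction on the length):
a ++ (c ++ [v]) = (a ++ c) ++ [v], `tube_append`, (a ++ c).drop c.length has length 5, and
((a ++ c) ++ [v]).drop (c.length + 1) = ((a ++ c).drop c.length).tail ++ [v]. The new vertex v is
not in the members of K₀ (hfresh) and not in those of fs (tube (a ++ c)) (`tube_mem`).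
PLh is composed with `PLh.trans`.
-/

namespace Pool.Agent.DT70

variable {bb : Bool}

/-- Pure complex `M ∪ {F}` with spherical links and a marked facet `F` not in `M`. -/
structure Good (bb : Bool) (M : Set (Finset ℕ)) (F : List ℕ) : Prop where
  nodup : F.Nodup
  len : F.length = 5
  card : ∀ s ∈ M, s.card = 5
  notMem : F.toFinset ∉ M
  lks : Lks bb (M ∪ {F.toFinset})

private theorem len5 {F : List ℕ} (h : F.length = 5) :
    ∃ x0 x1 x2 x3 x4, F = [x0, x1, x2, x3, x4] := by
  match F, h with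
  | [a, b, c, d, e], _ => exact ⟨a, b, c, d, e, rfl⟩

private theorem mem_four {F : List ℕ} {v : ℕ} (G : List ℕ) :
    G ∈ four F v ↔ G = (F ++ [v]).eraseIdx 1 ∨ G = (F ++ [v]).eraseIdx 2 ∨
      G = (F ++ [v]).eraseIdx 3 ∨ G = (F ++ [v]).eraseIdx 4 := by
  simp [four, eq_comm]

private theorem eq_st {M : Set (Finset ℕ)} {F : List ℕ} (hn : F.Nodup) (hl : F.length = 5)
    (hM : F.toFinset ∉ M) {v : ℕ} (hv : v ∉ F) :
    (M ∪ fs (four F v)) ∪ {(F.tail ++ [v]).toFinset} =
      st (M ∪ {F.toFinset}) F.toFinset v := by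
  obtain ⟨x0, x1, x2, x3, x4, rfl⟩ := len5 hl
  simp only [List.nodup_cons, List.mem_cons, List.not_mem_nil, or_false, not_or,
    List.nodup_nil, not_false_eq_true, and_true] at hn hv
  obtain ⟨⟨h01, h02, h03, h04⟩, ⟨h12, h13, h14⟩, ⟨h23, h24⟩, h34⟩ := hn
  obtain ⟨hv0, hv1, hv2, hv3, hv4⟩ := hv
  have e0 : insert v (([x0, x1, x2, x3, x4] : List ℕ).toFinset.erase x0) =
      ([x1, x2, x3, x4, v] : List ℕ).toFinset := by
    ext w
    simp only [Finset.mem_insert, Finset.mem_erase, List.mem_toFinset, List.mem_cons,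
      List.not_mem_nil, or_false]
    constructor
    · rintro (h | ⟨h, h'⟩) <;> tauto
    · rintro (h | h | h | h | h) <;> subst h <;> simp_all [eq_comm]
  have e1 : insert v (([x0, x1, x2, x3, x4] : List ℕ).toFinset.erase x1) =
      ([x0, x2, x3, x4, v] : List ℕ).toFinset := by
    ext w
    simp only [Finset.mem_insert, Finset.mem_erase, List.mem_toFinset, List.mem_cons,
      List.not_mem_nil, or_false]
    constructor
    · rintro (h | ⟨h, h'⟩) <;> tauto
    · rintro (h | h | h | h | h) <;> subst h <;> simp_all [eq_comm]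
  have e2 : insert v (([x0, x1, x2, x3, x4] : List ℕ).toFinset.erase x2) =
      ([x0, x1, x3, x4, v] : List ℕ).toFinset := by
    ext w
    simp only [Finset.mem_insert, Finset.mem_erase, List.mem_toFinset, List.mem_cons,
      List.not_mem_nil, or_false]
    constructor
    · rintro (h | ⟨h, h'⟩) <;> tauto
    · rintro (h | h | h | h | h) <;> subst h <;> simp_all [eq_comm]
  have e3 : insert v (([x0, x1, x2, x3, x4] : List ℕ).toFinset.erase x3) =
      ([x0, x1, x2, x4, v] : List ℕ).toFinset := by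
    ext w
    simp only [Finset.mem_insert, Finset.mem_erase, List.mem_toFinset, List.mem_cons,
      List.not_mem_nil, or_false]
    constructor
    · rintro (h | ⟨h, h'⟩) <;> tauto
    · rintro (h | h | h | h | h) <;> subst h <;> simp_all [eq_comm]
  have e4 : insert v (([x0, x1, x2, x3, x4] : List ℕ).toFinset.erase x4) =
      ([x0, x1, x2, x3, v] : List ℕ).toFinset := by
    ext w
    simp only [Finset.mem_insert, Finset.mem_erase, List.mem_toFinset, List.mem_cons,
      List.not_mem_nil, or_false]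
    constructor
    · rintro (h | ⟨h, h'⟩) <;> tauto
    · rintro (h | h | h | h | h) <;> subst h <;> simp_all [eq_comm]
  have m1 : ([x0, x1, x2, x3, x4] ++ [v]).eraseIdx 1 = [x0, x2, x3, x4, v] := rfl
  have m2 : ([x0, x1, x2, x3, x4] ++ [v]).eraseIdx 2 = [x0, x1, x3, x4, v] := rfl
  have m3 : ([x0, x1, x2, x3, x4] ++ [v]).eraseIdx 3 = [x0, x1, x2, x4, v] := rfl
  have m4 : ([x0, x1, x2, x3, x4] ++ [v]).eraseIdx 4 = [x0, x1, x2, x3, v] := rfl
  have m0 : ([x0, x1, x2, x3, x4] : List ℕ).tail ++ [v] = [x1, x2, x3, x4, v] := rfl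
  ext s
  rw [m0]
  constructor
  · rintro ((hs | ⟨G, hG, rfl⟩) | hs)
    · exact Or.inl ⟨Or.inl hs, fun h => hM (h ▸ hs)⟩
    · rw [mem_four, m1, m2, m3, m4] at hG
      rcases hG with rfl | rfl | rfl | rfl
      · exact Or.inr ⟨x1, by simp, e1.symm⟩
      · exact Or.inr ⟨x2, by simp, e2.symm⟩
      · exact Or.inr ⟨x3, by simp, e3.symm⟩
      · exact Or.inr ⟨x4, by simp, e4.symm⟩
    · rw [Set.mem_singleton_iff] at hs
      exact Or.inr ⟨x0, by simp, hs.trans e0.symm⟩
  · rintro (⟨hs | hs, hne⟩ | ⟨x, hx, rfl⟩)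
    · exact Or.inl (Or.inl hs)
    · exact absurd hs hne
    · rw [List.mem_toFinset] at hx
      simp only [List.mem_cons, List.not_mem_nil, or_false] at hx
      rcases hx with rfl | rfl | rfl | rfl | rfl
      · exact Or.inr e0
      · exact Or.inl (Or.inr ⟨_, (mem_four _).2 (Or.inl m1.symm), e1.symm⟩)
      · exact Or.inl (Or.inr ⟨_, (mem_four _).2 (Or.inr (Or.inl m2.symm)), e2.symm⟩)
      · exact Or.inl (Or.inr ⟨_, (mem_four _).2 (Or.inr (Or.inr (Or.inl m3.symm))), e3.symm⟩)
      · exact Or.inl (Or.inr ⟨_, (mem_four _).2 (Or.inr (Or.inr (Or.inr m4.symm))), e4.symm⟩)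

private theorem four_mem {F : List ℕ} (hn : F.Nodup) (hl : F.length = 5) {v : ℕ} (hv : v ∉ F)
    {G : List ℕ} (hG : G ∈ four F v) :
    G.Nodup ∧ G.length = 5 ∧ ∃ x ∈ G, x ∉ F.tail ++ [v] := by
  have h1 : (F ++ [v]).Nodup := by
    rw [List.nodup_append]
    refine ⟨hn, by simp, ?_⟩
    intro a ha b hb
    rw [List.mem_singleton] at hb
    rintro rfl
    exact hv (hb ▸ ha)
  obtain ⟨x0, x1, x2, x3, x4, rfl⟩ := len5 hl
  have h0 : x0 ∉ ([x0, x1, x2, x3, x4] : List ℕ).tail ++ [v] := by
    have := h1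
    simp only [List.cons_append, List.nodup_cons] at this
    exact this.1
  rw [mem_four] at hG
  rcases hG with rfl | rfl | rfl | rfl
  · exact ⟨h1.eraseIdx _, rfl, x0, by simp [List.eraseIdx], h0⟩
  · exact ⟨h1.eraseIdx _, rfl, x0, by simp [List.eraseIdx], h0⟩
  · exact ⟨h1.eraseIdx _, rfl, x0, by simp [List.eraseIdx], h0⟩
  · exact ⟨h1.eraseIdx _, rfl, x0, by simp [List.eraseIdx], h0⟩

theorem good_step {M : Set (Finset ℕ)} {F : List ℕ} (h : Good bb M F) {v : ℕ} (hvF : v ∉ F)
    (hvM : ∀ s ∈ M, v ∉ s) :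
    Good bb (M ∪ fs (four F v)) (F.tail ++ [v]) ∧
      PLh ((M ∪ fs (four F v)) ∪ {(F.tail ++ [v]).toFinset}) (M ∪ {F.toFinset}) := by
  have e := eq_st h.nodup h.len h.notMem hvF
  have hcardF : F.toFinset.card = 5 := by
    rw [List.toFinset_card_of_nodup h.nodup, h.len]
  have hX : ∀ s ∈ M ∪ {F.toFinset}, s.card = 5 := by
    rintro s (hs | hs)
    · exact h.card s hs
    · rw [Set.mem_singleton_iff] at hs
      rw [hs, hcardF]
  have hFX : F.toFinset ∈ M ∪ {F.toFinset} := Or.inr rfl
  have hc : ∀ s ∈ M ∪ {F.toFinset}, v ∉ s := by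
    rintro s (hs | hs)
    · exact hvM s hs
    · rw [Set.mem_singleton_iff] at hs
      rw [hs, List.mem_toFinset]
      exact hvF
  refine ⟨⟨?_, ?_, ?_, ?_, ?_⟩, ?_⟩
  · rw [List.nodup_append]
    refine ⟨h.nodup.tail, by simp, ?_⟩
    intro a ha b hb
    rw [List.mem_singleton] at hb
    rintro rfl
    exact hvF (hb ▸ List.mem_of_mem_tail ha)
  · rw [List.length_append, List.length_tail, h.len]
    rfl
  · rintro s (hs | ⟨G, hG, rfl⟩)
    · exact h.card s hs
    · obtain ⟨h1, h2, -⟩ := four_mem h.nodup h.len hvF hG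
      rw [List.toFinset_card_of_nodup h1, h2]
  · rintro (hs | ⟨G, hG, hGe⟩)
    · exact hvM _ hs (by simp)
    · obtain ⟨-, -, x, hx, hx'⟩ := four_mem h.nodup h.len hvF hG
      apply hx'
      rw [← List.mem_toFinset, ← hGe, List.mem_toFinset]
      exact hx
  · rw [e]
    exact lks_st _ _ _ hX hFX hc (sph_bd _ hcardF) h.lks
  · rw [e]
    refine star_iso _ _ _ ?_ hFX ?_ hc
    · rw [← Finset.card_pos, hcardF]
      norm_num
    · intro s hs hFs
      exact (Finset.eq_of_subset_of_card_le hFs (by rw [hX s hs, hcardF])).symm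

theorem tower {K₀ : Set (Finset ℕ)} {a : List ℕ} (h : Good bb K₀ a) (c : List ℕ)
    (hn : (a ++ c).Nodup) (hfresh : ∀ v ∈ c, ∀ s ∈ K₀, v ∉ s) :
    Good bb (K₀ ∪ fs (tube (a ++ c))) ((a ++ c).drop c.length) ∧
      PLh ((K₀ ∪ fs (tube (a ++ c))) ∪ {((a ++ c).drop c.length).toFinset})
        (K₀ ∪ {a.toFinset}) := by
  induction c using List.reverseRecOn with
  | nil =>
    have e : K₀ ∪ fs (tube (a ++ [])) = K₀ := by
      rw [List.append_nil, tube_five h.len, fs_nil, Set.union_empty]
    have e2 : (a ++ []).drop ([] : List ℕ).length = a := by simp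
    rw [e, e2]
    exact ⟨h, PLh.refl _⟩
  | append_singleton c v ih =>
    have e1 : a ++ (c ++ [v]) = (a ++ c) ++ [v] := (List.append_assoc _ _ _).symm
    rw [e1] at hn
    have hn' : (a ++ c).Nodup := (List.nodup_append.1 hn).1
    have hv : v ∉ a ++ c := by
      intro hv
      exact (List.nodup_append.1 hn).2.2 v hv v (by simp) rfl
    obtain ⟨g, hp⟩ := ih hn' (fun w hw => hfresh w (by simp [hw]))
    have hlen : (a ++ c).length = 5 + c.length := by rw [List.length_append, h.len]
    have e2 : (a ++ c).length - 5 = c.length := by omega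
    have e3 : tube ((a ++ c) ++ [v]) = tube (a ++ c) ++ four ((a ++ c).drop c.length) v := by
      rw [tube_append _ _ (by omega), e2]
    have e4 : ((a ++ c) ++ [v]).drop (c ++ [v]).length =
        ((a ++ c).drop c.length).tail ++ [v] := by
      rw [List.length_append, List.length_singleton,
        List.drop_append_of_le_length (by omega), List.tail_drop]
    have e5 : K₀ ∪ fs (tube ((a ++ c) ++ [v])) =
        (K₀ ∪ fs (tube (a ++ c))) ∪ fs (four ((a ++ c).drop c.length) v) := by
      rw [e3, fs_append, Set.union_assoc]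
    have hst := good_step g (v := v) (fun hm => hv (List.mem_of_mem_drop hm)) (by
      rintro s (hs | ⟨G, hG, rfl⟩)
      · exact hfresh v (by simp) s hs
      · intro hvG
        exact hv ((tube_mem hn' hG).2.2 v (List.mem_toFinset.1 hvG)))
    rw [e1, e4, e5]
    exact ⟨hst.1, hst.2.trans hp⟩

/-- The order of the marked facet does not matter for `Good`. -/
theorem Good.reverse {M : Set (Finset ℕ)} {F : List ℕ} (h : Good bb M F) : Good bb M F.reverse := by
  have e : F.reverse.toFinset = F.toFinset := by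
    ext x
    simp
  refine ⟨List.nodup_reverse.2 h.nodup, by rw [List.length_reverse, h.len], h.card, ?_, ?_⟩
  · rw [e]
    exact h.notMem
  · rw [e]
    exact h.lks

/-- `Good` is preserved by an injective relabelling. -/
theorem Good.map {M : Set (Finset ℕ)} {F : List ℕ} (h : Good bb M F) (σ τ : ℕ → ℕ)
    (hστ : ∀ v, τ (σ v) = v) : Good bb {t | ∃ s ∈ M, t = s.image σ} (F.map σ) := by
  have hinj : Function.Injective σ := Function.LeftInverse.injective hστ
  have e : (F.map σ).toFinset = F.toFinset.image σ := by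
    ext x
    simp only [List.mem_toFinset, List.mem_map, Finset.mem_image]
  refine ⟨h.nodup.map hinj, by rw [List.length_map, h.len], ?_, ?_, ?_⟩
  · rintro t ⟨s, hs, rfl⟩
    rw [Finset.card_image_of_injective _ hinj]
    exact h.card s hs
  · rintro ⟨s, hs, hse⟩
    rw [e] at hse
    have := Finset.image_injective hinj hse
    exact h.notMem (this ▸ hs)
  · have e2 : {t | ∃ s ∈ M, t = s.image σ} ∪ {(F.map σ).toFinset} =
        {t | ∃ s ∈ M ∪ {F.toFinset}, t = s.image σ} := by
      ext t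
      constructor
      · rintro (⟨s, hs, rfl⟩ | ht)
        · exact ⟨s, Or.inl hs, rfl⟩
        · rw [Set.mem_singleton_iff] at ht
          exact ⟨F.toFinset, Or.inr rfl, ht.trans e⟩
      · rintro ⟨s, hs | hs, rfl⟩
        · exact Or.inl ⟨s, hs, rfl⟩
        · rw [Set.mem_singleton_iff] at hs
          refine Or.inr ?_
          rw [Set.mem_singleton_iff, hs, e]
    rw [e2]
    exact lks_image _ σ τ (fun _ _ v _ => hστ v) h.lks

/-- All links of a connected sum are spheres. Let T = fs (tube (a ++ (p ++ b))). By `tower` with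
c = p ++ b all links of K₀ ∪ T ∪ {b} are spheres; by `tower` for L₀, b.reverse,
p.reverse ++ a.reverse and `tube_reverse`, all links of L₀ ∪ T ∪ {a} are spheres. Let v be a
vertex of K₀ ∪ T ∪ L₀. If v is in b or in a member of L₀, then v is not in a and not in a member
of K₀, hence lk v (K₀ ∪ T ∪ L₀) = lk v (L₀ ∪ T ∪ {a}). Otherwise
lk v (K₀ ∪ T ∪ L₀) = lk v (K₀ ∪ T ∪ {b}). (`lk_union`, `lk_eq_empty`) -/
theorem lks_sum {K₀ L₀ : Set (Finset ℕ)} {a p b : List ℕ} (hK : Good bb K₀ a) (hL : Good bb L₀ b)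
    (hp : p.length = 5) (hn : (a ++ (p ++ b)).Nodup)
    (h1 : ∀ s ∈ K₀, ∀ v ∈ s, v ∉ p ∧ v ∉ b) (h2 : ∀ s ∈ L₀, ∀ v ∈ s, v ∉ p ∧ v ∉ a)
    (h3 : ∀ s ∈ K₀, ∀ t ∈ L₀, ∀ v ∈ s, v ∉ t) :
    Lks bb (K₀ ∪ (fs (tube (a ++ (p ++ b))) ∪ L₀)) := by
  have hla := hK.len
  have hlb := hL.len
  have hrev : (a ++ (p ++ b)).reverse = b.reverse ++ (p.reverse ++ a.reverse) := by
    simp [List.reverse_append, List.append_assoc]
  have hT := tube_reverse (l := a ++ (p ++ b)) (by simp [hla, hlb, hp])
  rw [hrev] at hT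
  have hnr : (b.reverse ++ (p.reverse ++ a.reverse)).Nodup := by
    rw [← hrev]
    exact List.nodup_reverse.2 hn
  have d1 : (a ++ (p ++ b)).drop (p ++ b).length = b := by
    rw [← List.append_assoc]
    exact List.drop_left' (by simp [hla, hlb, hp])
  have d2 : (b.reverse ++ (p.reverse ++ a.reverse)).drop (p.reverse ++ a.reverse).length =
      a.reverse := by
    rw [← List.append_assoc]
    exact List.drop_left' (by simp [hla, hlb, hp])
  have g1 := (tower hK (p ++ b) hn (by
    intro v hv s hs hvs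
    rw [List.mem_append] at hv
    rcases hv with hv | hv
    · exact (h1 s hs v hvs).1 hv
    · exact (h1 s hs v hvs).2 hv)).1.lks
  have g2 := (tower hL.reverse (p.reverse ++ a.reverse) hnr (by
    intro v hv s hs hvs
    rw [List.mem_append, List.mem_reverse, List.mem_reverse] at hv
    rcases hv with hv | hv
    · exact (h2 s hs v hvs).1 hv
    · exact (h2 s hs v hvs).2 hv)).1.lks
  rw [d1] at g1
  rw [d2, hT] at g2
  have er : a.reverse.toFinset = a.toFinset := by
    ext x
    simp
  rw [er] at g2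
  intro v hv
  by_cases hc : v ∈ b ∨ ∃ t ∈ L₀, v ∈ t
  · have hva : v ∉ a := by
      rcases hc with hc | ⟨t, ht, hvt⟩
      · intro hva
        exact (List.nodup_append.1 hn).2.2 v hva v (by simp [hc]) rfl
      · exact (h2 t ht v hvt).2
    have hvK : ∀ s ∈ K₀, v ∉ s := by
      intro s hs hvs
      rcases hc with hc | ⟨t, ht, hvt⟩
      · exact (h1 s hs v hvs).2 hc
      · exact h3 s hs t ht v hvs hvt
    have e1 : lk v (K₀ ∪ (fs (tube (a ++ (p ++ b))) ∪ L₀)) =
        lk v ((L₀ ∪ fs (tube (a ++ (p ++ b)))) ∪ {a.toFinset}) := by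
      rw [lk_union, lk_union, lk_union, lk_union, lk_eq_empty hvK,
        lk_eq_empty (X := {a.toFinset}) (by
          intro s hs
          rw [Set.mem_singleton_iff] at hs
          rw [hs, List.mem_toFinset]
          exact hva), Set.union_empty, Set.empty_union, Set.union_comm]
    rw [e1]
    apply g2
    obtain ⟨s, hs | hs | hs, hvs⟩ := hv
    · exact absurd hvs (hvK s hs)
    · exact ⟨s, Or.inl (Or.inr hs), hvs⟩
    · exact ⟨s, Or.inl (Or.inl hs), hvs⟩
  · rw [not_or] at hc
    obtain ⟨hvb, hvL⟩ := hc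
    have hvL' : ∀ t ∈ L₀, v ∉ t := fun t ht hvt => hvL ⟨t, ht, hvt⟩
    have e1 : lk v (K₀ ∪ (fs (tube (a ++ (p ++ b))) ∪ L₀)) =
        lk v ((K₀ ∪ fs (tube (a ++ (p ++ b)))) ∪ {b.toFinset}) := by
      rw [lk_union, lk_union, lk_union, lk_union, lk_eq_empty hvL',
        lk_eq_empty (X := {b.toFinset}) (by
          intro s hs
          rw [Set.mem_singleton_iff] at hs
          rw [hs, List.mem_toFinset]
          exact hvb), Set.union_empty, Set.union_empty]
    rw [e1]
    apply g1
    obtain ⟨s, hs | hs | hs, hvs⟩ := hv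
    · exact ⟨s, Or.inl (Or.inl hs), hvs⟩
    · exact ⟨s, Or.inl (Or.inr hs), hvs⟩
    · exact absurd hvs (hvL' s hs)

end Pool.Agent.DT70
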